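import Mathlib

/-!
# A vector of a lattice fixed by a p-group modulo p times the lattice, and transitivity of Sylow groups
-/

set_option autoImplicit false

namespace Pool.Agent.Q29.DP

open MulAction

section

variable {Y : Type*} [Finite Y] {S : Type*} [Group S] [MulAction S Y]

/-- The action of a group element on the functions of a stable lattice. -/
def act (Λ : AddSubgroup (Y → ℤ))
    (hst : ∀ (s : S) (n : Y → ℤ), n ∈ Λ → (fun y => n (s⁻¹ • y)) ∈ Λ) (s : S) : Λ →+ Λ where
  toFun n := ⟨fun y => n.1 (s⁻¹ • y), hst s n.1 n.2⟩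
  map_zero' := rfl
  map_add' _ _ := rfl

/-- A nonzero lattice of integral functions which is stable under a finite p-group contains a
function which is not p times a function of the lattice and is fixed modulo p times the lattice. -/
theorem exists_fixed_mod [Finite S] (p : ℕ) [Fact p.Prime] (hS : IsPGroup p S)
    (Λ : AddSubgroup (Y → ℤ))
    (hst : ∀ (s : S) (n : Y → ℤ), n ∈ Λ → (fun y => n (s⁻¹ • y)) ∈ Λ)
    (h0 : ∃ n ∈ Λ, n ≠ 0) :
    ∃ n ∈ Λ, (¬ ∃ m ∈ Λ, n = fun y => (p : ℤ) * m y) ∧
      ∀ s : S, ∃ m ∈ Λ, ∀ y, n (s⁻¹ • y) - n y = p * m y := by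
  classical
  have _ : Fintype Y := Fintype.ofFinite Y
  have hp : p.Prime := Fact.out
  let N : AddSubgroup Λ := (nsmulAddMonoidHom (α := Λ) p).range
  have hN : ∀ x : Λ, x ∈ N ↔ ∃ y : Λ, p • y = x := fun x => Iff.rfl
  have hact : ∀ s : S, N ≤ N.comap (act Λ hst s) := by
    intro s x hx
    obtain ⟨y, rfl⟩ := (hN x).1 hx
    exact (hN _).2 ⟨act Λ hst s y, (map_nsmul (act Λ hst s) p y).symm⟩
  let A : MulAction S (Λ ⧸ N) :=
    { smul := fun s x => QuotientAddGroup.map N N (act Λ hst s) (hact s) x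
      one_smul := by
        intro x
        obtain ⟨x, rfl⟩ := QuotientAddGroup.mk_surjective x
        change QuotientAddGroup.map N N (act Λ hst 1) (hact 1) (x : Λ ⧸ N) = _
        rw [QuotientAddGroup.map_mk]
        congr 1
        apply Subtype.ext
        funext y
        change x.1 ((1 : S)⁻¹ • y) = x.1 y
        rw [inv_one, one_smul]
      mul_smul := by
        intro s t x
        obtain ⟨x, rfl⟩ := QuotientAddGroup.mk_surjective x
        change QuotientAddGroup.map N N (act Λ hst (s * t)) (hact (s * t)) (x : Λ ⧸ N) =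
          QuotientAddGroup.map N N (act Λ hst s) (hact s)
            (QuotientAddGroup.map N N (act Λ hst t) (hact t) (x : Λ ⧸ N))
        rw [QuotientAddGroup.map_mk, QuotientAddGroup.map_mk, QuotientAddGroup.map_mk]
        congr 1
        apply Subtype.ext
        funext y
        change x.1 ((s * t)⁻¹ • y) = x.1 (t⁻¹ • s⁻¹ • y)
        rw [mul_inv_rev, mul_smul] }
  -- a nonzero element that is not divisible
  obtain ⟨n0, hn0, hn0'⟩ : ∃ n ∈ Λ, ¬ ∃ m ∈ Λ, n = fun y => (p : ℤ) * m y := by
    by_contra hcon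
    push Not at hcon
    have key : ∀ k : ℕ, ∀ n ∈ Λ, n ≠ 0 → ∑ y, (n y).natAbs ≤ k → False := by
      intro k
      induction k with
      | zero =>
        intro n hn hne hs
        apply hne
        funext y
        have h1 := Finset.sum_eq_zero_iff.1 (Nat.le_zero.1 hs) y (Finset.mem_univ y)
        exact Int.natAbs_eq_zero.1 h1
      | succ k ih =>
        intro n hn hne hs
        obtain ⟨m, hm, hnm⟩ := hcon n hn
        have hm0 : m ≠ 0 := by
          intro h
          apply hne
          rw [hnm, h]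
          funext y
          simp
        apply ih m hm hm0
        have h1 : ∑ y, (n y).natAbs = p * ∑ y, (m y).natAbs := by
          rw [Finset.mul_sum]
          refine Finset.sum_congr rfl fun y _ => ?_
          rw [hnm, Int.natAbs_mul, Int.natAbs_natCast]
        have h2 : 0 < ∑ y, (m y).natAbs := by
          rw [Nat.pos_iff_ne_zero]
          intro h
          apply hm0
          funext y
          exact Int.natAbs_eq_zero.1 (Finset.sum_eq_zero_iff.1 h y (Finset.mem_univ y))
        have h3 := hp.two_le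
        nlinarith
    obtain ⟨n, hn, hne⟩ := h0
    exact key _ n hn hne le_rfl
  -- the quotient is finite
  have hpN : ∀ x : Λ ⧸ N, p • x = 0 := by
    intro x
    obtain ⟨x, rfl⟩ := QuotientAddGroup.mk_surjective x
    rw [← QuotientAddGroup.mk_nsmul]
    exact (QuotientAddGroup.eq_zero_iff _).2 ⟨x, rfl⟩
  have hfg : Module.Finite ℤ (Λ ⧸ N) := by
    have h1 : Module.Finite ℤ (AddSubgroup.toIntSubmodule Λ) := inferInstance
    have h2 : Module.Finite ℤ Λ := h1
    exact Module.Finite.of_surjective (QuotientAddGroup.mk' N).toIntLinearMap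
      (QuotientAddGroup.mk'_surjective N)
  have htor : Module.IsTorsion ℤ (Λ ⧸ N) := by
    intro x
    refine ⟨⟨(p : ℤ), ?_⟩, ?_⟩
    · exact mem_nonZeroDivisors_of_ne_zero (by exact_mod_cast hp.ne_zero)
    · change (p : ℤ) • x = 0
      rw [natCast_zsmul]
      exact hpN x
  have hfin : Finite (Λ ⧸ N) := Module.finite_of_fg_torsion _ htor
  have hx0 : ((⟨n0, hn0⟩ : Λ) : Λ ⧸ N) ≠ 0 := by
    intro h
    obtain ⟨y, hy⟩ := (hN _).1 ((QuotientAddGroup.eq_zero_iff _).1 h)
    apply hn0'
    refine ⟨y.1, y.2, ?_⟩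
    have h1 := congrArg Subtype.val hy
    funext z
    have h2 : (p • y.1) z = n0 z := congrFun h1 z
    rw [← h2, Pi.smul_apply, nsmul_eq_mul]
  have hcard : p ∣ Nat.card (Λ ⧸ N) := by
    have h1 : addOrderOf ((⟨n0, hn0⟩ : Λ) : Λ ⧸ N) = p :=
      addOrderOf_eq_prime (hpN _) hx0
    rw [← h1]
    exact addOrderOf_dvd_natCard _
  obtain ⟨x, hx, hx'⟩ := hS.exists_fixed_point_of_prime_dvd_card_of_fixed_point (Λ ⧸ N) hcard
    (a := 0) (by
      intro s
      exact map_zero (QuotientAddGroup.map N N (act Λ hst s) (hact s)))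
  obtain ⟨n, rfl⟩ := QuotientAddGroup.mk_surjective x
  refine ⟨n.1, n.2, ?_, ?_⟩
  · rintro ⟨m, hm, hnm⟩
    apply hx'
    symm
    refine (QuotientAddGroup.eq_zero_iff _).2 ((hN _).2 ⟨⟨m, hm⟩, ?_⟩)
    apply Subtype.ext
    rw [hnm]
    funext y
    change (p • m) y = _
    rw [Pi.smul_apply, nsmul_eq_mul]
  · intro s
    have h1 : QuotientAddGroup.map N N (act Λ hst s) (hact s) (n : Λ ⧸ N) = (n : Λ ⧸ N) := hx s
    rw [QuotientAddGroup.map_mk] at h1
    have h2 := (QuotientAddGroup.eq (s := N)).1 h1.symm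
    obtain ⟨m, hm⟩ := (hN _).1 h2
    refine ⟨m.1, m.2, fun y => ?_⟩
    have h3 := congrFun (congrArg Subtype.val hm) y
    change (p • m.1) y = -(n.1 y) + n.1 (s⁻¹ • y) at h3
    rw [Pi.smul_apply, nsmul_eq_mul] at h3
    rw [h3]
    ring

end

end Pool.Agent.Q29.DP
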