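import Mathlib
import Pool.Agent.Q29.DP.Lat
import Pool.Agent.H925R2.Core

/-!
# The combinatorial core at the prime two, second level

A group of permutations acts transitively on a set `Y` of `2 ^ k` points, and on a quotient `Y₀` of `Y`
whose fibres have at least four elements; both carry compatible involutions without fixed points. An
antisymmetric function `e = u ∘ π - 2 w` with odd values `u`, for which the sum of `w` over a half
system is odd, satisfies no antisymmetric linear relation that is stable under the group.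
-/

set_option autoImplicit false
set_option linter.unusedSectionVars false

namespace Pool.Agent.Q29.DP

open MulAction Finset

/-- The sum of a symmetric function is twice the sum over a half system. -/
theorem sum_half {Y : Type*} [Fintype Y] [DecidableEq Y] (inv : Y → Y)
    (hinv : ∀ y, inv (inv y) = y) (O : Finset Y) (hO : ∀ y, y ∈ O ↔ inv y ∉ O) (f : Y → ℤ)
    (hf : ∀ y, f (inv y) = f y) : ∑ y, f y = 2 * ∑ y ∈ O, f y := by
  have h1 : ∑ y ∈ Oᶜ, f y = ∑ y ∈ O, f y := by
    refine sum_bij (fun y _ => inv y) ?_ ?_ ?_ ?_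
    · intro y hy
      rw [mem_compl, hO, not_not] at hy
      exact hy
    · intro a _ b _ hab
      rw [← hinv a, hab, hinv]
    · intro y hy
      refine ⟨inv y, ?_, hinv y⟩
      rw [mem_compl]
      exact (hO y).1 hy
    · intro y _
      exact (hf y).symm
  rw [← sum_add_sum_compl O, h1, two_mul]

section

variable {G : Type*} [Group G] [Finite G] {Y Y₀ : Type*} [Fintype Y] [DecidableEq Y]
  [Fintype Y₀] [DecidableEq Y₀] [MulAction G Y] [MulAction G Y₀]

/-- The lattice of the relations all whose values have the same parity. -/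
def relLattice (G : Type*) [Group G] {Y : Type*} [Fintype Y] [MulAction G Y] (inv : Y → Y)
    (e : Y → ℤ) : AddSubgroup (Y → ℤ) where
  carrier := {n | (∀ y, n (inv y) = -n y) ∧ (∀ g : G, ∑ y, n y * e (g • y) = 0) ∧
    ∀ y y', (2 : ℤ) ∣ n y - n y'}
  zero_mem' := by
    refine ⟨fun y => ?_, fun g => ?_, fun y y' => ?_⟩
    · simp
    · simp
    · simp
  add_mem' := by
    rintro a b ⟨ha1, ha2, ha3⟩ ⟨hb1, hb2, hb3⟩
    refine ⟨fun y => ?_, fun g => ?_, fun y y' => ?_⟩
    · simp only [Pi.add_apply, ha1, hb1]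
      ring
    · simp only [Pi.add_apply, add_mul, sum_add_distrib, ha2, hb2, add_zero]
    · have h1 := dvd_add (ha3 y y') (hb3 y y')
      simp only [Pi.add_apply]
      have h2 : a y + b y - (a y' + b y') = a y - a y' + (b y - b y') := by ring
      rw [h2]
      exact h1
  neg_mem' := by
    rintro a ⟨ha1, ha2, ha3⟩
    refine ⟨fun y => ?_, fun g => ?_, fun y y' => ?_⟩
    · simp only [Pi.neg_apply, ha1]
    · simp only [Pi.neg_apply, neg_mul, sum_neg_distrib, ha2, neg_zero]
    · simp only [Pi.neg_apply]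
      have h2 : -a y - -a y' = -(a y - a y') := by ring
      rw [h2]
      exact (dvd_neg).2 (ha3 y y')

theorem mem_relLattice {inv : Y → Y} {e n : Y → ℤ} :
    n ∈ relLattice G inv e ↔ (∀ y, n (inv y) = -n y) ∧ (∀ g : G, ∑ y, n y * e (g • y) = 0) ∧
      ∀ y y', (2 : ℤ) ∣ n y - n y' := Iff.rfl

/-- The identity behind the criterion. -/
theorem identity (inv : Y → Y) (inv₀ : Y₀ → Y₀)
    (hinv : ∀ y, inv (inv y) = y) (hinv₀ : ∀ z, inv₀ (inv₀ z) = z)
    (hG₀ : ∀ (g : G) (z : Y₀), g • inv₀ z = inv₀ (g • z))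
    (π : Y → Y₀) (hπ : ∀ (g : G) (y : Y), π (g • y) = g • π y)
    (hπi : ∀ y, π (inv y) = inv₀ (π y))
    (O₀ : Finset Y₀) (hO₀ : ∀ z, z ∈ O₀ ↔ inv₀ z ∉ O₀)
    (u : Y₀ → ℤ) (hui : ∀ z, u (inv₀ z) = -u z) (w : Y → ℤ) (hwi : ∀ y, w (inv y) = -w y)
    (n m : Y → ℤ) (hn : ∀ y, n (inv y) = -n y) (hm : ∀ y, m (inv y) = -m y) (s : G)
    (hrel1 : ∑ y, n y * (u (π y) - 2 * w y) = 0)
    (hrels : ∑ y, n y * (u (π (s • y)) - 2 * w (s • y)) = 0)
    (hnm : ∀ y, n (s⁻¹ • y) - n y = 2 * m y)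
    (t : Y₀ → ℤ) (ht : ∀ z, u z - u (s • z) = 2 * t z) :
    ∑ z ∈ O₀, t z * ∑ y with π y = z, n y =
      -(2 * ∑ y with π y ∈ O₀, m y * w y) := by
  classical
  have hti : ∀ z, t (inv₀ z) = -t z := by
    intro z
    have h1 := ht z
    have h2 := ht (inv₀ z)
    rw [hG₀, hui, hui] at h2
    linarith
  have hO : ∀ y, y ∈ univ.filter (fun y => π y ∈ O₀) ↔ inv y ∉ univ.filter (fun y => π y ∈ O₀) := by
    intro y
    simp only [mem_filter, mem_univ, true_and, hπi]
    exact hO₀ (π y)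
  -- the shifted sum
  have h1 : ∑ y, n y * w (s • y) = ∑ y, n y * w y + 2 * ∑ y, m y * w y := by
    have h2 : ∑ y, n y * w (s • y) = ∑ y, n (s⁻¹ • y) * w y := by
      refine Fintype.sum_equiv (MulAction.toPerm s) _ _ fun y => ?_
      simp only [MulAction.toPerm_apply, inv_smul_smul]
    rw [h2, mul_sum, ← sum_add_distrib]
    refine sum_congr rfl fun y _ => ?_
    have h3 := hnm y
    have h4 : n (s⁻¹ • y) = n y + 2 * m y := by linarith
    rw [h4]
    ring
  have h2 : ∑ y, n y * u (π y) = 2 * ∑ y, n y * w y := by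
    have h3 : ∑ y, n y * (u (π y) - 2 * w y) = ∑ y, n y * u (π y) - 2 * ∑ y, n y * w y := by
      rw [mul_sum, ← sum_sub_distrib]
      exact sum_congr rfl fun y _ => by ring
    linarith
  have h3 : ∑ y, n y * u (π (s • y)) = 2 * ∑ y, n y * w (s • y) := by
    have h4 : ∑ y, n y * (u (π (s • y)) - 2 * w (s • y)) =
        ∑ y, n y * u (π (s • y)) - 2 * ∑ y, n y * w (s • y) := by
      rw [mul_sum, ← sum_sub_distrib]
      exact sum_congr rfl fun y _ => by ring
    linarith
  have h4 : ∑ y, n y * t (π y) = -(2 * ∑ y, m y * w y) := by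
    have h5 : 2 * ∑ y, n y * t (π y) = ∑ y, n y * u (π y) - ∑ y, n y * u (π (s • y)) := by
      rw [mul_sum, ← sum_sub_distrib]
      refine sum_congr rfl fun y _ => ?_
      rw [hπ, ← mul_sub, ht]
      ring
    rw [h2, h3, h1] at h5
    linarith
  have h5 : ∑ y, n y * t (π y) = ∑ z, t z * ∑ y with π y = z, n y := by
    rw [← sum_fiberwise_of_maps_to (s := (univ : Finset Y)) (t := (univ : Finset Y₀)) (g := π)
      (fun y _ => mem_univ _)]
    refine sum_congr rfl fun z _ => ?_
    rw [mul_sum]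
    refine sum_congr rfl fun y hy => ?_
    rw [(mem_filter.1 hy).2, mul_comm]
  have h6 : ∑ z, t z * ∑ y with π y = z, n y = 2 * ∑ z ∈ O₀, t z * ∑ y with π y = z, n y := by
    refine sum_half inv₀ hinv₀ O₀ hO₀ _ fun z => ?_
    have h7 : ∑ y with π y = inv₀ z, n y = -∑ y with π y = z, n y := by
      rw [← sum_neg_distrib]
      refine sum_bij (fun y _ => inv y) ?_ ?_ ?_ ?_
      · intro y hy
        rw [mem_filter] at hy ⊢
        refine ⟨mem_univ _, ?_⟩
        rw [hπi, hy.2, hinv₀]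
      · intro a _ b _ hab
        rw [← hinv a, hab, hinv]
      · intro y hy
        refine ⟨inv y, ?_, hinv y⟩
        rw [mem_filter] at hy ⊢
        refine ⟨mem_univ _, ?_⟩
        rw [hπi, hy.2]
      · intro y _
        rw [hn, neg_neg]
    rw [h7, hti]
    ring
  have h7 : ∑ y, m y * w y = 2 * ∑ y with π y ∈ O₀, m y * w y := by
    refine sum_half inv hinv _ hO _ fun y => ?_
    rw [hm, hwi]
    ring
  rw [h5, h6, h7] at h4
  linarith

theorem stable_relLattice (inv : Y → Y) (hG : ∀ (g : G) (y : Y), g • inv y = inv (g • y))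
    (e : Y → ℤ) (s : G) (n : Y → ℤ) (hn : n ∈ relLattice G inv e) :
    (fun y => n (s⁻¹ • y)) ∈ relLattice G inv e := by
  obtain ⟨h1, h2, h3⟩ := mem_relLattice.1 hn
  refine mem_relLattice.2 ⟨fun y => ?_, fun g => ?_, fun y y' => h3 _ _⟩
  · rw [hG, h1]
  · rw [← h2 (g * s)]
    refine Fintype.sum_equiv (MulAction.toPerm s⁻¹) _ _ fun y => ?_
    simp only [MulAction.toPerm_apply, mul_smul, smul_inv_smul]

/-- The parity of a sum of integers. -/
theorem two_dvd_sum {ι : Type*} (s : Finset ι) (f : ι → ℤ)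
    (h : Even (s.filter (fun i => ¬ (2 : ℤ) ∣ f i)).card) : (2 : ℤ) ∣ ∑ i ∈ s, f i := by
  classical
  refine (ZMod.intCast_zmod_eq_zero_iff_dvd (∑ i ∈ s, f i) 2).1 ?_
  rw [Int.cast_sum]
  have h1 : ∀ i ∈ s, ((f i : ℤ) : ZMod 2) = if ¬ (2 : ℤ) ∣ f i then 1 else 0 := by
    intro i _
    by_cases h2 : (2 : ℤ) ∣ f i
    · rw [if_neg (not_not.2 h2)]
      exact (ZMod.intCast_zmod_eq_zero_iff_dvd (f i) 2).2 h2
    · rw [if_pos h2]
      have h3 : ((f i : ℤ) : ZMod 2) ≠ 0 := fun h4 =>
        h2 ((ZMod.intCast_zmod_eq_zero_iff_dvd (f i) 2).1 h4)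
      revert h3
      generalize ((f i : ℤ) : ZMod 2) = a
      revert a
      decide
  rw [sum_congr rfl h1, ← sum_filter, sum_const, nsmul_eq_mul, mul_one]
  obtain ⟨r, hr⟩ := h
  rw [hr, Nat.cast_add]
  exact CharTwo.add_self_eq_zero _

/-- The sums over the fibres are divisible by four. -/
theorem four_dvd_fibre (S : Subgroup G) (htr : ∀ x y : Y, ∃ s : S, (s : G) • x = y)
    (π : Y → Y₀) (hπ : ∀ (g : G) (y : Y), π (g • y) = g • π y)
    (l : ℕ) (hl : 2 ≤ l) (z : Y₀) (hfib : (univ.filter (fun y => π y = z)).card = 2 ^ l)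
    (n : Y → ℤ) (hpar : ∀ y y', (2 : ℤ) ∣ n y - n y')
    (hs : ∀ s : S, ∃ m : Y → ℤ, (∀ y y', (2 : ℤ) ∣ m y - m y') ∧
      ∀ y, n ((s : G)⁻¹ • y) - n y = 2 * m y) :
    (4 : ℤ) ∣ ∑ y with π y = z, n y := by
  classical
  have hne : (univ.filter (fun y => π y = z)).Nonempty := by
    rw [← card_pos, hfib]
    positivity
  obtain ⟨b, hb⟩ := hne
  have hbz : π b = z := (mem_filter.1 hb).2
  choose ε hε using fun y => hpar y b
  have hsum : ∑ y with π y = z, n y = 2 ^ l * n b + 2 * ∑ y with π y = z, ε y := by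
    have h1 : ∀ y ∈ univ.filter (fun y => π y = z), n y = n b + 2 * ε y := by
      intro y _
      have h2 := hε y
      linarith
    rw [sum_congr rfl h1, sum_add_distrib, sum_const, hfib, ← mul_sum, nsmul_eq_mul]
    push_cast
    ring
  have h4 : (4 : ℤ) ∣ 2 ^ l * n b := by
    obtain ⟨l', rfl⟩ := Nat.exists_eq_add_of_le hl
    rw [pow_add]
    exact Dvd.intro (2 ^ l' * n b) (by ring)
  have hE : (2 : ℤ) ∣ ∑ y with π y = z, ε y := by
    apply two_dvd_sum
    by_cases hall : ∀ y ∈ univ.filter (fun y => π y = z), (2 : ℤ) ∣ ε y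
    · rw [filter_false_of_mem (fun y hy => not_not.2 (hall y hy)), card_empty]
      exact Even.zero
    · push Not at hall
      obtain ⟨y1, hy1, hy1o⟩ := hall
      obtain ⟨s, hs1⟩ := htr y1 b
      have hs2 : (s : G)⁻¹ • b = y1 := by rw [← hs1, inv_smul_smul]
      obtain ⟨m, hm1, hm2⟩ := hs s
      have hmb : m b = ε y1 := by
        have h5 := hm2 b
        rw [hs2, hε] at h5
        linarith
      have hmo : ∀ y, ¬ (2 : ℤ) ∣ m y := by
        intro y h5
        apply hy1o
        rw [← hmb]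
        have h6 := hm1 b y
        have h7 := dvd_add h6 h5
        rwa [sub_add_cancel] at h7
      have hεs : ∀ y, ε ((s : G)⁻¹ • y) = ε y + m y := by
        intro y
        have h5 := hm2 y
        have h6 := hε y
        have h7 := hε ((s : G)⁻¹ • y)
        linarith
      have hz : (s : G)⁻¹ • z = z := by
        rw [← hbz, ← hπ, hs2, (mem_filter.1 hy1).2, hbz]
      have hmaps : ∀ y, π y = z → π ((s : G)⁻¹ • y) = z := by
        intro y hy
        rw [hπ, hy, hz]
      have hinj : Function.Injective (fun y : Y => (s : G)⁻¹ • y) := fun a b h =>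
        smul_left_cancel _ h
      have hc1 : ((univ.filter (fun y => π y = z)).filter (fun y => ¬ (2 : ℤ) ∣ ε y)).card ≤
          ((univ.filter (fun y => π y = z)).filter (fun y => ¬ ¬ (2 : ℤ) ∣ ε y)).card := by
        refine card_le_card_of_injOn (fun y => (s : G)⁻¹ • y) ?_ hinj.injOn
        intro y hy
        simp only [coe_filter, mem_filter, mem_univ, true_and, Set.mem_ofPred_eq, not_not] at hy ⊢
        refine ⟨hmaps y hy.1, ?_⟩
        rw [hεs]
        have h5 := hy.2
        have h6 := hmo y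
        omega
      have hc2 : ((univ.filter (fun y => π y = z)).filter (fun y => ¬ ¬ (2 : ℤ) ∣ ε y)).card ≤
          ((univ.filter (fun y => π y = z)).filter (fun y => ¬ (2 : ℤ) ∣ ε y)).card := by
        refine card_le_card_of_injOn (fun y => (s : G)⁻¹ • y) ?_ hinj.injOn
        intro y hy
        simp only [coe_filter, mem_filter, mem_univ, true_and, Set.mem_ofPred_eq, not_not] at hy ⊢
        refine ⟨hmaps y hy.1, ?_⟩
        rw [hεs]
        have h5 := hy.2
        have h6 := hmo y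
        omega
      have hc3 := card_filter_add_card_filter_not (s := univ.filter (fun y => π y = z))
        (fun y => ¬ (2 : ℤ) ∣ ε y)
      rw [hfib] at hc3
      have hc4 := le_antisymm hc1 hc2
      rw [← hc4] at hc3
      obtain ⟨l', rfl⟩ := Nat.exists_eq_add_of_le hl
      have hc5 : ((univ.filter (fun y => π y = z)).filter (fun y => ¬ (2 : ℤ) ∣ ε y)).card =
          2 * 2 ^ l' := by
        have h5 : (2 : ℕ) ^ (2 + l') = 2 * (2 * 2 ^ l') := by ring
        omega
      rw [hc5]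
      exact even_two_mul _
  obtain ⟨a, ha⟩ := hE
  rw [hsum, ha]
  refine dvd_add h4 ⟨a, by ring⟩

/-- **The core.** An antisymmetric function `u ∘ π - 2 w` with odd values `u`, for which the sum of
`w` over a half system is odd, satisfies no relation, if the fibres of `π` have at least four
elements. -/
theorem core_parity [IsPretransitive G Y] (inv : Y → Y) (inv₀ : Y₀ → Y₀)
    (hinv : ∀ y, inv (inv y) = y) (hinv₀ : ∀ z, inv₀ (inv₀ z) = z)
    (hG : ∀ (g : G) (y : Y), g • inv y = inv (g • y))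
    (hG₀ : ∀ (g : G) (z : Y₀), g • inv₀ z = inv₀ (g • z))
    (π : Y → Y₀) (hπ : ∀ (g : G) (y : Y), π (g • y) = g • π y)
    (hπi : ∀ y, π (inv y) = inv₀ (π y))
    (k l : ℕ) (hk : Fintype.card Y = 2 ^ k) (hl : 2 ≤ l)
    (hfib : ∀ z, (univ.filter (fun y => π y = z)).card = 2 ^ l)
    (O₀ : Finset Y₀) (hO₀ : ∀ z, z ∈ O₀ ↔ inv₀ z ∉ O₀)
    (u : Y₀ → ℤ) (hu : ∀ z, ¬ (2 : ℤ) ∣ u z) (hui : ∀ z, u (inv₀ z) = -u z)
    (w : Y → ℤ) (hwi : ∀ y, w (inv y) = -w y)
    (hodd : ¬ (2 : ℤ) ∣ ∑ y with π y ∈ O₀, w y)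
    (c : Y → ℤ) (hc : ∀ y, c (inv y) = -c y)
    (hrel : ∀ g : G, ∑ y, c y * (u (π (g • y)) - 2 * w (g • y)) = 0) : ∀ y, c y = 0 := by
  classical
  by_contra hcon
  push Not at hcon
  obtain ⟨x₀, hx₀⟩ := hcon
  have _ : Fact (Nat.Prime 2) := ⟨Nat.prime_two⟩
  obtain ⟨S⟩ : Nonempty (Sylow 2 G) := inferInstance
  have htr : ∀ x y : Y, ∃ s : (S : Subgroup G), (s : G) • x = y := fun x y =>
    Pool.Agent.H925R2.sylow_transitive 2 k (by rw [Nat.card_eq_fintype_card, hk]) S x y
  set e : Y → ℤ := fun y => u (π y) - 2 * w y with he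
  obtain ⟨n, hn, hnd, hns⟩ := exists_fixed_mod (Y := Y) (S := (S : Subgroup G)) 2 S.isPGroup'
    (relLattice G inv e) (fun s n hn => stable_relLattice inv hG e (s : G) n hn)
    ⟨fun y => 2 * c y, mem_relLattice.2 ⟨fun y => by rw [hc]; ring, fun g => by
      have h1 := hrel g
      have h2 : ∑ y, 2 * c y * e (g • y) = 2 * ∑ y, c y * e (g • y) := by
        rw [mul_sum]
        exact sum_congr rfl fun y _ => by ring
      rw [h2]
      have h3 : ∑ y, c y * e (g • y) = 0 := h1
      rw [h3, mul_zero], fun y y' => ⟨c y - c y', by ring⟩⟩, fun h => hx₀ (by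
        have h1 := congrFun h x₀
        simpa using h1)⟩
  obtain ⟨hn1, hn2, hn3⟩ := mem_relLattice.1 hn
  have hF : ∀ z, (4 : ℤ) ∣ ∑ y with π y = z, n y := by
    intro z
    refine four_dvd_fibre (S : Subgroup G) htr π hπ l hl z (hfib z) n hn3 fun s => ?_
    obtain ⟨m, hm, hm2⟩ := hns s
    exact ⟨m, (mem_relLattice.1 hm).2.2, fun y => by
      have h1 := hm2 y
      exact_mod_cast h1⟩
  choose F hF using hF
  have hkey : ∀ s : (S : Subgroup G), ∃ m : Y → ℤ, (∀ y, (2 : ℤ) ∣ m y) ∧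
      ∀ y, n ((s : G)⁻¹ • y) - n y = 2 * m y := by
    intro s
    obtain ⟨m, hm, hm2⟩ := hns s
    obtain ⟨hm3, hm4, hm5⟩ := mem_relLattice.1 hm
    have hm6 : ∀ y, n ((s : G)⁻¹ • y) - n y = 2 * m y := fun y => by
      have h1 := hm2 y
      exact_mod_cast h1
    have hte : ∀ z, ∃ t : ℤ, u z - u ((s : G) • z) = 2 * t := by
      intro z
      have h1 := hu z
      have h2 := hu ((s : G) • z)
      exact ⟨(u z - u ((s : G) • z)) / 2, by omega⟩
    choose t ht using hte
    have hid := identity inv inv₀ hinv hinv₀ hG₀ π hπ hπi O₀ hO₀ u hui w hwi n m hn1 hm3 (s : G)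
      (by
        have h1 := hn2 1
        simp only [one_smul] at h1
        exact h1) (hn2 (s : G)) hm6 t ht
    have h1 : ∑ z ∈ O₀, t z * ∑ y with π y = z, n y = 4 * ∑ z ∈ O₀, t z * F z := by
      rw [mul_sum]
      exact sum_congr rfl fun z _ => by rw [hF]; ring
    rw [h1] at hid
    have h2 : (2 : ℤ) ∣ ∑ y with π y ∈ O₀, m y * w y := ⟨-∑ z ∈ O₀, t z * F z, by linarith⟩
    refine ⟨m, fun y₁ => ?_, hm6⟩
    by_contra h3
    apply hodd
    have h4 : (2 : ℤ) ∣ ∑ y with π y ∈ O₀, (m y * w y - w y) := by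
      refine dvd_sum fun y _ => ?_
      have h5 : m y * w y - w y = (m y - 1) * w y := by ring
      rw [h5]
      refine Dvd.dvd.mul_right ?_ _
      have h6 := hm5 y y₁
      omega
    rw [sum_sub_distrib] at h4
    have h5 := dvd_sub h2 h4
    rwa [sub_sub_cancel] at h5
  -- all the values are even
  have heven : ∀ y, (2 : ℤ) ∣ n y := by
    intro y
    obtain ⟨s, hs⟩ := htr (inv y) y
    have hs2 : (s : G)⁻¹ • y = inv y := by
      conv_lhs => rw [← hs]
      rw [inv_smul_smul]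
    obtain ⟨m, hm1, hm2⟩ := hkey s
    have h1 := hm2 y
    rw [hs2, hn1] at h1
    obtain ⟨a, ha⟩ := hm1 y
    exact ⟨-a, by linarith⟩
  choose n' hn' using heven
  apply hnd
  refine ⟨n', mem_relLattice.2 ⟨fun y => ?_, fun g => ?_, fun y y' => ?_⟩, ?_⟩
  · have h1 := hn1 y
    rw [hn', hn'] at h1
    linarith
  · have h1 := hn2 g
    have h2 : ∑ y, n y * e (g • y) = 2 * ∑ y, n' y * e (g • y) := by
      rw [mul_sum]
      exact sum_congr rfl fun y _ => by rw [hn']; ring
    rw [h2] at h1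
    linarith
  · obtain ⟨s, hs⟩ := htr y y'
    have hs2 : (s : G)⁻¹ • y' = y := by rw [← hs, inv_smul_smul]
    obtain ⟨m, hm1, hm2⟩ := hkey s
    have h1 := hm2 y'
    rw [hs2, hn', hn'] at h1
    have h2 : n' y - n' y' = m y' := by linarith
    rw [h2]
    exact hm1 y'
  · funext y
    rw [hn']
    rfl

end

end Pool.Agent.Q29.DP
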