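import Mathlib
import Pool.Agent.Q29.DP.Core
import Pool.Agent.H204R3.CM.Sign

/-!
# The combinatorial core at the prime two, for fibres with two elements
-/

set_option autoImplicit false
set_option linter.unusedSectionVars false

namespace Pool.Agent.Q29.DP

open MulAction Finset

section

variable {G : Type*} [Group G] [Finite G] {Y Y₀ : Type*} [Fintype Y] [DecidableEq Y]
  [Fintype Y₀] [DecidableEq Y₀] [MulAction G Y] [MulAction G Y₀]

/-- Each Sylow 2-subgroup contains an element which acts like a given element of 2-power order, if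
the action of the latter commutes with all others. -/
theorem exists_inv_mem (S : Sylow 2 G) (inv : Y → Y) (hinv : ∀ y, inv (inv y) = y)
    (hG : ∀ (g : G) (y : Y), g • inv y = inv (g • y)) (ρ : G) (hρ : ∀ y : Y, ρ • y = inv y) :
    ∃ s ∈ (S : Subgroup G), ∀ y : Y, s • y = inv y := by
  classical
  have _ : Fact (Nat.Prime 2) := ⟨Nat.prime_two⟩
  -- an odd power of `ρ` of 2-power order
  obtain ⟨k, m, hm, hord⟩ := Nat.exists_eq_two_pow_mul_odd (orderOf_pos ρ).ne'
  have hact : ∀ (i : ℕ) (y : Y), (ρ ^ (2 * i + 1)) • y = inv y := by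
    intro i
    induction i with
    | zero =>
      intro y
      rw [mul_zero, zero_add, pow_one, hρ]
    | succ i ih =>
      intro y
      have h1 : ρ ^ (2 * (i + 1) + 1) = ρ ^ (2 * i + 1) * (ρ * ρ) := by
        rw [← pow_two, ← pow_add]
        congr 1
      rw [h1, mul_smul, mul_smul, hρ, hρ, hinv, ih]
  obtain ⟨i, hi⟩ := hm
  have hp : IsPGroup 2 (Subgroup.zpowers (ρ ^ m)) := by
    rw [IsPGroup.iff_orderOf]
    rintro ⟨x, hx⟩
    obtain ⟨z, rfl⟩ := Subgroup.mem_zpowers_iff.1 hx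
    have h1 : (ρ ^ m) ^ 2 ^ k = 1 := by
      rw [← pow_mul, mul_comm, ← hord, pow_orderOf_eq_one]
    have h2 : orderOf ((ρ ^ m) ^ z) ∣ 2 ^ k := by
      rw [orderOf_dvd_iff_pow_eq_one, ← zpow_natCast, ← zpow_mul, mul_comm, zpow_mul,
        zpow_natCast, h1, one_zpow]
    obtain ⟨j, -, hj⟩ := (Nat.dvd_prime_pow Nat.prime_two).1 h2
    refine ⟨j, ?_⟩
    rw [← hj, ← Subgroup.orderOf_coe]
  obtain ⟨Q, hQ⟩ := hp.exists_le_sylow
  obtain ⟨x, hx⟩ := MulAction.exists_smul_eq G Q S
  refine ⟨x * ρ ^ m * x⁻¹, ?_, ?_⟩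
  · rw [← hx, Sylow.coe_subgroup_smul, Subgroup.mem_pointwise_smul_iff_inv_smul_mem]
    have h1 : (MulAut.conj x)⁻¹ • (x * ρ ^ m * x⁻¹) = ρ ^ m := by
      rw [← map_inv, MulAut.smul_def, MulAut.conj_apply]
      group
    rw [h1]
    exact hQ (Subgroup.mem_zpowers _)
  · intro y
    rw [mul_smul, mul_smul, hi, hact, ← hG, smul_inv_smul]

/-- The number of the points of a half system that leave it determines the sign. -/
theorem even_flips_iff (inv₀ : Y₀ → Y₀) (hinv₀ : ∀ z, inv₀ (inv₀ z) = z)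
    (hG₀ : ∀ (g : G) (z : Y₀), g • inv₀ z = inv₀ (g • z))
    (O₀ : Finset Y₀) (hO₀ : ∀ z, z ∈ O₀ ↔ inv₀ z ∉ O₀) (g : G) :
    Even ((O₀.filter (fun z => g • z ∉ O₀)).card) ↔
      Equiv.Perm.sign (MulAction.toPerm g : Equiv.Perm Y₀) = 1 := by
  have h1 := Pool.Agent.H204R3.CM.sign_of_half hinv₀ O₀ hO₀ (MulAction.toPerm g : Equiv.Perm Y₀)
    (fun z => hG₀ g z)
  simp only [MulAction.toPerm_apply] at h1
  constructor
  · intro h2
    rw [h2.neg_one_pow] at h1
    exact Units.ext h1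
  · intro h2
    rw [h2, Units.val_one] at h1
    by_contra h3
    rw [Nat.not_even_iff_odd] at h3
    rw [h3.neg_one_pow] at h1
    norm_num at h1

/-- **The core for fibres with two elements.** -/
theorem core_two_fibre [IsPretransitive G Y] (inv : Y → Y) (inv₀ : Y₀ → Y₀)
    (hinv : ∀ y, inv (inv y) = y) (hinv₀ : ∀ z, inv₀ (inv₀ z) = z)
    (hG : ∀ (g : G) (y : Y), g • inv y = inv (g • y))
    (hG₀ : ∀ (g : G) (z : Y₀), g • inv₀ z = inv₀ (g • z))
    (ρ : G) (hρ : ∀ y : Y, ρ • y = inv y)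
    (π : Y → Y₀) (hπ : ∀ (g : G) (y : Y), π (g • y) = g • π y)
    (hπi : ∀ y, π (inv y) = inv₀ (π y))
    (k : ℕ) (hk : Fintype.card Y = 2 ^ k)
    (hfib : ∀ z, (univ.filter (fun y => π y = z)).card = 2)
    (O₀ : Finset Y₀) (hO₀ : ∀ z, z ∈ O₀ ↔ inv₀ z ∉ O₀) (heven : Even O₀.card)
    (hcond : (∀ (g : G) (z : Y₀), g • z = z →
        Equiv.Perm.sign (MulAction.toPerm g : Equiv.Perm Y₀) = 1) ∨
      ∃ (g : G) (y : Y), g • y = y ∧
        Equiv.Perm.sign (MulAction.toPerm g : Equiv.Perm Y₀) = -1)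
    (u : Y₀ → ℤ) (hu : ∀ z, u z = if z ∈ O₀ then 1 else -1)
    (w : Y → ℤ) (hwi : ∀ y, w (inv y) = -w y)
    (hodd : ¬ (2 : ℤ) ∣ ∑ y with π y ∈ O₀, w y)
    (c : Y → ℤ) (hc : ∀ y, c (inv y) = -c y)
    (hrel : ∀ g : G, ∑ y, c y * (u (π (g • y)) - 2 * w (g • y)) = 0) : ∀ y, c y = 0 := by
  classical
  by_contra hcon
  push Not at hcon
  obtain ⟨x₀, hx₀⟩ := hcon
  have _ : Fact (Nat.Prime 2) := ⟨Nat.prime_two⟩
  have hui : ∀ z, u (inv₀ z) = -u z := by
    intro z
    rw [hu, hu]
    by_cases hz : z ∈ O₀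
    · rw [if_pos hz, if_neg ((hO₀ z).1 hz)]
    · have h1 : inv₀ z ∈ O₀ := by
        by_contra h2
        exact hz ((hO₀ z).2 h2)
      rw [if_neg hz, if_pos h1, neg_neg]
  -- the choice of the Sylow group
  obtain ⟨S, hS⟩ : ∃ S : Sylow 2 G, (∀ s ∈ (S : Subgroup G), ∀ z : Y₀, s • z = z →
        Equiv.Perm.sign (MulAction.toPerm s : Equiv.Perm Y₀) = 1) ∨
      ∃ s ∈ (S : Subgroup G), ∃ y : Y, s • y = y ∧
        Equiv.Perm.sign (MulAction.toPerm s : Equiv.Perm Y₀) = -1 := by
    rcases hcond with h | ⟨g, y, hgy, hg⟩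
    · obtain ⟨S⟩ : Nonempty (Sylow 2 G) := inferInstance
      exact ⟨S, Or.inl fun s _ z hz => h s z hz⟩
    · obtain ⟨k', m, hm, hord⟩ := Nat.exists_eq_two_pow_mul_odd (orderOf_pos g).ne'
      have hp : IsPGroup 2 (Subgroup.zpowers (g ^ m)) := by
        rw [IsPGroup.iff_orderOf]
        rintro ⟨x, hx⟩
        obtain ⟨z, rfl⟩ := Subgroup.mem_zpowers_iff.1 hx
        have h1 : (g ^ m) ^ 2 ^ k' = 1 := by
          rw [← pow_mul, mul_comm, ← hord, pow_orderOf_eq_one]
        have h2 : orderOf ((g ^ m) ^ z) ∣ 2 ^ k' := by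
          rw [orderOf_dvd_iff_pow_eq_one, ← zpow_natCast, ← zpow_mul, mul_comm, zpow_mul,
            zpow_natCast, h1, one_zpow]
        obtain ⟨j, -, hj⟩ := (Nat.dvd_prime_pow Nat.prime_two).1 h2
        refine ⟨j, ?_⟩
        rw [← hj, ← Subgroup.orderOf_coe]
      obtain ⟨Q, hQ⟩ := hp.exists_le_sylow
      refine ⟨Q, Or.inr ⟨g ^ m, hQ (Subgroup.mem_zpowers _), y, ?_, ?_⟩⟩
      · have h1 : ∀ i : ℕ, g ^ i • y = y := by
          intro i
          induction i with
          | zero => rw [pow_zero, one_smul]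
          | succ i ih => rw [pow_succ, mul_smul, hgy, ih]
        exact h1 m
      · have h1 : (MulAction.toPerm (g ^ m) : Equiv.Perm Y₀) =
            (MulAction.toPerm g : Equiv.Perm Y₀) ^ m := by
          have h2 := map_pow (MulAction.toPermHom G Y₀) g m
          exact h2
        rw [h1, map_pow, hg, hm.neg_one_pow]
  have htr : ∀ x y : Y, ∃ s : (S : Subgroup G), (s : G) • x = y := fun x y =>
    Pool.Agent.H925R2.sylow_transitive 2 k (by rw [Nat.card_eq_fintype_card, hk]) S x y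
  set e : Y → ℤ := fun y => u (π y) - 2 * w y with he
  obtain ⟨n, hn, hnd, hns⟩ := exists_fixed_mod (Y := Y) (S := (S : Subgroup G)) 2 S.isPGroup'
    (relLattice G inv e) (fun s n hn => stable_relLattice inv hG e (s : G) n hn)
    ⟨fun y => 2 * c y, mem_relLattice.2 ⟨fun y => by rw [hc]; ring, fun g => by
      have h1 := hrel g
      have h2 : ∑ y, 2 * c y * e (g • y) = 2 * ∑ y, c y * e (g • y) := by
        rw [mul_sum]
        exact sum_congr rfl fun y _ => by ring
      rw [h2]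
      have h3 : ∑ y, c y * e (g • y) = 0 := h1
      rw [h3, mul_zero], fun y y' => ⟨c y - c y', by ring⟩⟩, fun h => hx₀ (by
        have h1 := congrFun h x₀
        simpa using h1)⟩
  obtain ⟨hn1, hn2, hn3⟩ := mem_relLattice.1 hn
  -- the sum over a fibre of a function with values of one parity
  have hpair : ∀ (f : Y → ℤ), (∀ y y', (2 : ℤ) ∣ f y - f y') → ∀ z,
      (2 : ℤ) ∣ ∑ y with π y = z, f y := by
    intro f hf z
    obtain ⟨a, b, hab, hz⟩ := card_eq_two.1 (hfib z)
    rw [hz, sum_pair hab]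
    have h1 := hf a b
    omega
  have hNs : ∀ s : (S : Subgroup G), ∀ z, (4 : ℤ) ∣
      (∑ y with π y = (s : G)⁻¹ • z, n y) - ∑ y with π y = z, n y := by
    intro s z
    obtain ⟨m, hm, hm2⟩ := hns s
    have h1 : ∑ y with π y = (s : G)⁻¹ • z, n y = ∑ y with π y = z, n ((s : G)⁻¹ • y) := by
      symm
      refine sum_bij (fun y _ => (s : G)⁻¹ • y) ?_ ?_ ?_ ?_
      · intro y hy
        rw [mem_filter] at hy ⊢
        refine ⟨mem_univ _, ?_⟩
        rw [hπ, hy.2]
      · intro a _ b _ hab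
        exact smul_left_cancel _ hab
      · intro y hy
        rw [mem_filter] at hy
        refine ⟨(s : G) • y, ?_, inv_smul_smul _ _⟩
        rw [mem_filter]
        refine ⟨mem_univ _, ?_⟩
        rw [hπ, hy.2, smul_inv_smul]
      · intro y _
        rfl
    rw [h1, ← sum_sub_distrib]
    have h2 : ∑ y with π y = z, (n ((s : G)⁻¹ • y) - n y) = 2 * ∑ y with π y = z, m y := by
      rw [mul_sum]
      refine sum_congr rfl fun y _ => ?_
      have h3 := hm2 y
      exact_mod_cast h3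
    rw [h2]
    obtain ⟨r, hr⟩ := hpair m (mem_relLattice.1 hm).2.2 z
    rw [hr]
    exact ⟨r, by ring⟩
  have hNc : ∀ z z', (4 : ℤ) ∣ (∑ y with π y = z, n y) - ∑ y with π y = z', n y := by
    intro z z'
    have hne : ∀ z, ∃ y, π y = z := by
      intro z
      have h1 : (univ.filter (fun y => π y = z)).Nonempty := by
        rw [← card_pos, hfib]
        norm_num
      obtain ⟨y, hy⟩ := h1
      exact ⟨y, (mem_filter.1 hy).2⟩
    obtain ⟨y, rfl⟩ := hne z
    obtain ⟨y', rfl⟩ := hne z'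
    obtain ⟨s, hs⟩ := htr y y'
    have h1 := hNs s (π y')
    have h2 : (s : G)⁻¹ • π y' = π y := by
      rw [← hs, hπ, inv_smul_smul]
    rwa [h2] at h1
  -- the number of the points of the half system that leave it
  have hkey : ∀ s : (S : Subgroup G), ∃ m : Y → ℤ, m ∈ relLattice G inv e ∧
      (∀ y, n ((s : G)⁻¹ • y) - n y = 2 * m y) ∧
      ((O₀.filter (fun z => (s : G) • z ∉ O₀)).card : ℤ) * ((∑ y with π y = π x₀, n y) / 2) -
        (∑ y with π y ∈ O₀, m y * w y) ∈ AddSubgroup.zmultiples (2 : ℤ) := by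
    intro s
    obtain ⟨m, hm, hm2⟩ := hns s
    obtain ⟨hm3, hm4, hm5⟩ := mem_relLattice.1 hm
    have hm6 : ∀ y, n ((s : G)⁻¹ • y) - n y = 2 * m y := fun y => by
      have h1 := hm2 y
      exact_mod_cast h1
    refine ⟨m, hm, hm6, ?_⟩
    have hte : ∀ z, ∃ t : ℤ, u z - u ((s : G) • z) = 2 * t ∧
        (z ∈ O₀ → t = if (s : G) • z ∉ O₀ then 1 else 0) := by
      intro z
      by_cases h1 : z ∈ O₀ <;> by_cases h2 : (s : G) • z ∈ O₀
      · refine ⟨0, ?_, fun _ => ?_⟩
        · rw [hu, hu, if_pos h1, if_pos h2]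
          ring
        · rw [if_neg (not_not.2 h2)]
      · refine ⟨1, ?_, fun _ => ?_⟩
        · rw [hu, hu, if_pos h1, if_neg h2]
          ring
        · rw [if_pos h2]
      · refine ⟨-1, ?_, fun h => absurd h h1⟩
        rw [hu, hu, if_neg h1, if_pos h2]
        ring
      · refine ⟨0, ?_, fun h => absurd h h1⟩
        rw [hu, hu, if_neg h1, if_neg h2]
        ring
    choose t ht ht2 using hte
    have hid := identity inv inv₀ hinv hinv₀ hG₀ π hπ hπi O₀ hO₀ u hui w hwi n m hn1 hm3 (s : G)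
      (by
        have h1 := hn2 1
        simp only [one_smul] at h1
        exact h1) (hn2 (s : G)) hm6 t ht
    have hF : ∀ z, ∃ a : ℤ, ∑ y with π y = z, n y = (∑ y with π y = π x₀, n y) + 4 * a := by
      intro z
      obtain ⟨a, ha⟩ := hNc z (π x₀)
      exact ⟨a, by linarith⟩
    choose a ha using hF
    obtain ⟨b, hb⟩ := hpair n hn3 (π x₀)
    have h1 : ∑ z ∈ O₀, t z * ∑ y with π y = z, n y =
        ((O₀.filter (fun z => (s : G) • z ∉ O₀)).card : ℤ) * (∑ y with π y = π x₀, n y) +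
          4 * ∑ z ∈ O₀, t z * a z := by
      have h2 : ∑ z ∈ O₀, t z = ((O₀.filter (fun z => (s : G) • z ∉ O₀)).card : ℤ) := by
        rw [sum_congr rfl (fun z hz => ht2 z hz), sum_boole]
      rw [← h2, sum_mul, mul_sum, ← sum_add_distrib]
      refine sum_congr rfl fun z _ => ?_
      rw [ha]
      ring
    rw [h1] at hid
    rw [hb] at hid ⊢
    rw [Int.mul_ediv_cancel_left _ two_ne_zero]
    rw [Int.mem_zmultiples_iff]
    refine ⟨((O₀.filter (fun z => (s : G) • z ∉ O₀)).card : ℤ) * b + ∑ z ∈ O₀, t z * a z, ?_⟩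
    linarith
  -- the parity of the elements `m`
  have hpar : ∀ s : (S : Subgroup G), ∃ m : Y → ℤ, m ∈ relLattice G inv e ∧
      (∀ y, n ((s : G)⁻¹ • y) - n y = 2 * m y) ∧ ∀ y, (2 : ℤ) ∣
      ((O₀.filter (fun z => (s : G) • z ∉ O₀)).card : ℤ) * ((∑ y with π y = π x₀, n y) / 2) -
        m y := by
    intro s
    obtain ⟨m, hm, hm6, h1⟩ := hkey s
    refine ⟨m, hm, hm6, fun y => ?_⟩
    rw [Int.mem_zmultiples_iff] at h1
    have h2 : (2 : ℤ) ∣ (∑ y with π y ∈ O₀, m y * w y) - m y * ∑ y with π y ∈ O₀, w y := by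
      rw [mul_sum, ← sum_sub_distrib]
      refine dvd_sum fun y' _ => ?_
      rw [← sub_mul]
      exact Dvd.dvd.mul_right ((mem_relLattice.1 hm).2.2 y' y) _
    obtain ⟨b, hb⟩ : ∃ b : ℤ, ∑ y with π y ∈ O₀, w y = 2 * b + 1 := by
      have h3 : Odd (∑ y with π y ∈ O₀, w y) := by
        rw [← Int.not_even_iff_odd, even_iff_two_dvd]
        exact hodd
      exact h3
    rw [hb] at h2
    have h3 : m y * (2 * b + 1) = 2 * (m y * b) + m y := by ring
    rw [h3] at h2
    generalize m y * b = z1 at *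
    generalize m y = z2 at *
    generalize ∑ y with π y ∈ O₀, m y * w y = z3 at *
    generalize ((O₀.filter (fun z => (s : G) • z ∉ O₀)).card : ℤ) *
      ((∑ y with π y = π x₀, n y) / 2) = z4 at *
    omega
  -- the element acting as the involution
  obtain ⟨s₀, hs₀, hs₀i⟩ := exists_inv_mem S inv hinv hG ρ hρ
  have hflip₀ : (O₀.filter (fun z => s₀ • z ∉ O₀)).card = O₀.card := by
    congr 1
    refine filter_true_of_mem fun z hz => ?_
    have h1 : (univ.filter (fun y => π y = z)).Nonempty := by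
      rw [← card_pos, hfib]
      norm_num
    obtain ⟨y, hy⟩ := h1
    have h2 : π y = z := (mem_filter.1 hy).2
    have h3 : s₀ • z = inv₀ z := by
      rw [← h2, ← hπ, hs₀i, hπi]
    rw [h3]
    exact (hO₀ z).1 hz
  have hneven : ∀ y, (2 : ℤ) ∣ n y := by
    intro y
    obtain ⟨m, hm, hm6, h1⟩ := hpar ⟨s₀, hs₀⟩
    have h2 := h1 y
    have h3 := hm6 y
    simp only at h2 h3
    rw [hflip₀] at h2
    have h4 : s₀⁻¹ • y = inv y := by
      rw [inv_smul_eq_iff, hs₀i, hinv]
    rw [h4, hn1] at h3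
    obtain ⟨a, ha⟩ := heven
    have h5 : (2 : ℤ) ∣ (O₀.card : ℤ) * ((∑ y with π y = π x₀, n y) / 2) := by
      rw [ha]
      push_cast
      exact ⟨(a : ℤ) * ((∑ y with π y = π x₀, n y) / 2), by ring⟩
    omega
  choose n' hn' using hneven
  -- the values of `n' ` have one parity
  have hfin : ∀ y y', (2 : ℤ) ∣ n' y - n' y' := by
    by_cases h4 : (4 : ℤ) ∣ ∑ y with π y = π x₀, n y
    · intro y y'
      obtain ⟨s, hs⟩ := htr y y'
      have hs2 : (s : G)⁻¹ • y' = y := by rw [← hs, inv_smul_smul]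
      obtain ⟨m, hm, hm6, h1⟩ := hpar s
      have h2 := h1 y'
      have h3 := hm6 y'
      rw [hs2, hn', hn'] at h3
      obtain ⟨b, hb⟩ := h4
      rw [hb] at h2
      have h5 : (4 * b) / 2 = 2 * b := by omega
      rw [h5] at h2
      have h6 : ((O₀.filter (fun z => (s : G) • z ∉ O₀)).card : ℤ) * (2 * b) =
        2 * (((O₀.filter (fun z => (s : G) • z ∉ O₀)).card : ℤ) * b) := by ring
      rw [h6] at h2
      generalize ((O₀.filter (fun z => (s : G) • z ∉ O₀)).card : ℤ) * b = z1 at *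
      omega
    · exfalso
      obtain ⟨b, hb⟩ := hpair n hn3 (π x₀)
      have hb2 : ¬ (2 : ℤ) ∣ b := by
        rintro ⟨b', rfl⟩
        apply h4
        rw [hb]
        exact ⟨b', by ring⟩
      rcases hS with hA | ⟨s, hs, y, hsy, hsg⟩
      · -- a fibre
        obtain ⟨y1, y2, hy12, hz⟩ := card_eq_two.1 (hfib (π x₀))
        have hy1 : π y1 = π x₀ := by
          have h1 : y1 ∈ univ.filter (fun y => π y = π x₀) := by
            rw [hz]
            exact mem_insert_self _ _
          exact (mem_filter.1 h1).2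
        have hy2 : π y2 = π x₀ := by
          have h1 : y2 ∈ univ.filter (fun y => π y = π x₀) := by
            rw [hz]
            exact mem_insert_of_mem (mem_singleton_self _)
          exact (mem_filter.1 h1).2
        obtain ⟨s, hs⟩ := htr y2 y1
        have hs2 : (s : G)⁻¹ • y1 = y2 := by rw [← hs, inv_smul_smul]
        have hsz : (s : G) • π x₀ = π x₀ := by
          rw [← hy2, ← hπ, hs, hy1, hy2]
        have hsgn := hA s s.2 _ hsz
        rw [← even_flips_iff inv₀ hinv₀ hG₀ O₀ hO₀] at hsgn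
        obtain ⟨m, hm, hm6, h1⟩ := hpar s
        have h2 := h1 y1
        have h3 := hm6 y1
        rw [hs2, hn', hn'] at h3
        obtain ⟨a, ha⟩ := hsgn
        rw [ha] at h2
        have h5 : (((a + a : ℕ) : ℤ)) * ((∑ y with π y = π x₀, n y) / 2) =
          2 * ((a : ℤ) * ((∑ y with π y = π x₀, n y) / 2)) := by
          push_cast
          ring
        rw [h5] at h2
        apply h4
        rw [hz, sum_pair hy12, hn', hn']
        generalize (a : ℤ) * ((∑ y with π y = π x₀, n y) / 2) = z1 at *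
        omega
      · obtain ⟨m, hm, hm6, h1⟩ := hpar ⟨s, hs⟩
        have h2 := h1 y
        have h3 := hm6 y
        simp only at h2 h3
        have h4' : s⁻¹ • y = y := by
          rw [inv_smul_eq_iff, hsy]
        rw [h4'] at h3
        have hm0 : m y = 0 := by linarith
        rw [hm0, sub_zero, hb, Int.mul_ediv_cancel_left _ two_ne_zero] at h2
        have h5 : ¬ Even ((O₀.filter (fun z => s • z ∉ O₀)).card) := by
          rw [even_flips_iff inv₀ hinv₀ hG₀ O₀ hO₀, hsg]
          decide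
        rw [Nat.not_even_iff_odd] at h5
        obtain ⟨a, ha⟩ := h5
        rw [ha] at h2
        apply hb2
        have h6 : ((2 * a + 1 : ℕ) : ℤ) * b = 2 * ((a : ℤ) * b) + b := by
          push_cast
          ring
        rw [h6] at h2
        generalize (a : ℤ) * b = z1 at *
        omega
  apply hnd
  refine ⟨n', mem_relLattice.2 ⟨fun y => ?_, fun g => ?_, hfin⟩, ?_⟩
  · have h1 := hn1 y
    rw [hn', hn'] at h1
    linarith
  · have h1 := hn2 g
    have h2 : ∑ y, n y * e (g • y) = 2 * ∑ y, n' y * e (g • y) := by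
      rw [mul_sum]
      exact sum_congr rfl fun y _ => by rw [hn']; ring
    rw [h2] at h1
    linarith
  · funext y
    rw [hn']
    rfl

end

end Pool.Agent.Q29.DP
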