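import Mathlib
import Pool.Agent.Q29.DP.Core
import Pool.Agent.H977R3.CM.Tower
import Pool.Agent.H977R3.CM.Aut
import Pool.Agent.TH170.CM.Defs

/-!
# Functions on the embeddings of a CM field of 2-power degree without relations
-/

set_option autoImplicit false
set_option linter.unusedSectionVars false

namespace Pool.Agent.Q29.DP

open NumberField Module Finset MulAction Pool.Agent.H204R3.CM Pool.Agent.H977R3.CM

section

variable {E₀ E : Type*} [Field E₀] [NumberField E₀] [IsCMField E₀] [Field E] [NumberField E]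
  [IsCMField E] [Algebra E₀ E]

/-- The number of the embeddings of `E` over the embeddings in a CM type of a CM subfield. -/
theorem card_over {L : Type*} [Field L] [NumberField L] [IsGalois ℚ L] (j : L →+* ℂ)
    (h : ∀ ψ : E →+* ℂ, ∃ φ : E →+* L, j.comp φ = ψ) (O : Finset (E →+* L))
    (hO : ∀ φ, φ ∈ O ↔ cbar φ ∉ O) : 2 * O.card = finrank ℚ E := by
  classical
  have h1 := sum_half (cbar : (E →+* L) → (E →+* L)) (fun φ => cbar_cbar φ) O hO (fun _ => 1)
    (fun _ => rfl)
  simp only [sum_const, nsmul_eq_mul, mul_one, card_univ] at h1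
  rw [← card_emb j h]
  exact_mod_cast h1.symm

open Classical in
/-- An odd antisymmetric function on the embeddings of a CM field of 2-power degree, whose sum
over the extensions of the embeddings in a CM type of a CM subfield of index at least four is not
divisible by four, satisfies no relation. -/
theorem no_relation (k l : ℕ) (hk : finrank ℚ E = 2 ^ k) (hl : finrank E₀ E = 2 ^ l)
    (h2l : 2 ≤ l) (Φ₀ : Set (E₀ →+* ℂ)) (hΦ₀ : IsCMType Φ₀) (e : (E →+* ℂ) → ℤ)
    (he : ∀ φ, ¬ (2 : ℤ) ∣ e φ) (hei : ∀ φ, e (ComplexEmbedding.conjugate φ) = -e φ)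
    (hodd : ¬ (4 : ℤ) ∣ ∑ φ with φ.comp (algebraMap E₀ E) ∈ Φ₀, e φ)
    (c : (E →+* ℂ) → ℤ) (hc : ∀ φ, c (ComplexEmbedding.conjugate φ) = -c φ)
    (hrel : ∀ σ : ℂ ≃+* ℂ, ∑ φ, c φ * e ((σ : ℂ →+* ℂ).comp φ) = 0) : c = 0 := by
  obtain ⟨L, _, _, j, hj⟩ := exists_galois (fun _ : Unit => E)
  have h : ∀ ψ : E →+* ℂ, ∃ φ : E →+* L, j.comp φ = ψ := hj ()
  have h₀ : ∀ τ : E₀ →+* ℂ, ∃ y : E₀ →+* L, j.comp y = τ := by
    intro τ
    obtain ⟨ψ, rfl⟩ := exists_extension (E := E) τ
    obtain ⟨φ, rfl⟩ := h ψ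
    exact ⟨φ.comp (algebraMap E₀ E), rfl⟩
  let Y := E →+* L
  let Y₀ := E₀ →+* L
  let π : Y → Y₀ := fun φ => φ.comp (algebraMap E₀ E)
  have hπ : ∀ (g : L ≃ₐ[ℚ] L) (y : Y), π (g • y) = g • π y := fun g y => rfl
  let O₀ : Finset Y₀ := univ.filter (fun y => j.comp y ∈ Φ₀)
  have hO₀ : ∀ z : Y₀, z ∈ O₀ ↔ cbar z ∉ O₀ := by
    intro z
    simp only [O₀, mem_filter, mem_univ, true_and]
    rw [comp_cbar]
    exact hΦ₀ (j.comp z)
  let u : Y₀ → ℤ := fun z => if z ∈ O₀ then 1 else -1
  have hu : ∀ z, u z = 1 ∨ u z = -1 := by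
    intro z
    simp only [u]
    split_ifs
    · exact Or.inl rfl
    · exact Or.inr rfl
  have hui : ∀ z, u (cbar z) = -u z := by
    intro z
    by_cases hz : z ∈ O₀
    · have h1 := (hO₀ z).1 hz
      simp only [u, if_pos hz, if_neg h1]
    · have h1 : cbar z ∈ O₀ := by
        by_contra h2
        exact hz ((hO₀ z).2 h2)
      simp only [u, if_neg hz, if_pos h1, neg_neg]
  have hw : ∀ y : Y, ∃ w : ℤ, u (π y) - e (j.comp y) = 2 * w := by
    intro y
    have h1 := he (j.comp y)
    rcases hu (π y) with h2 | h2 <;> rw [h2]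
    · exact ⟨(1 - e (j.comp y)) / 2, by omega⟩
    · exact ⟨(-1 - e (j.comp y)) / 2, by omega⟩
  choose w hw using hw
  have hej : ∀ y : Y, e (j.comp (cbar y)) = -e (j.comp y) := by
    intro y
    rw [comp_cbar]
    exact hei _
  have hcj : ∀ y : Y, c (j.comp (cbar y)) = -c (j.comp y) := by
    intro y
    rw [comp_cbar]
    exact hc _
  have hπi : ∀ y : Y, π (cbar y) = cbar (π y) := fun y => cbar_restrict y j
  have hwi : ∀ y : Y, w (cbar y) = -w y := by
    intro y
    have h1 := hw y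
    have h2 := hw (cbar y)
    rw [hπi, hui, hej] at h2
    linarith
  have hcardY : Fintype.card Y = 2 ^ k := by
    rw [← hk]
    exact card_emb j h
  have hcards : Fintype.card Y = Fintype.card Y₀ * 2 ^ l := by
    rw [← hl]
    exact card_tower j h h₀
  have hO : ∀ y : Y, y ∈ univ.filter (fun y : Y => π y ∈ O₀) ↔
      cbar y ∉ univ.filter (fun y : Y => π y ∈ O₀) := by
    intro y
    simp only [mem_filter, mem_univ, true_and, hπi]
    exact hO₀ (π y)
  -- the condition
  have hsumw : ¬ (2 : ℤ) ∣ ∑ y with π y ∈ O₀, w y := by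
    intro hdiv
    apply hodd
    have h1 : ∑ φ with φ.comp (algebraMap E₀ E) ∈ Φ₀, e φ =
        ∑ y : Y with π y ∈ O₀, e (j.comp y) := by
      symm
      refine sum_bij (fun (y : Y) _ => j.comp y) ?_ ?_ ?_ ?_
      · intro y hy
        rw [mem_filter] at hy ⊢
        refine ⟨mem_univ _, ?_⟩
        exact (mem_filter.1 hy.2).2
      · intro a _ b _ hab
        exact RingHom.ext fun x => j.injective (RingHom.congr_fun hab x)
      · intro φ hφ
        obtain ⟨y, rfl⟩ := h φ
        refine ⟨y, ?_, rfl⟩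
        rw [mem_filter] at hφ ⊢
        exact ⟨mem_univ _, mem_filter.2 ⟨mem_univ _, hφ.2⟩⟩
      · intro y _
        rfl
    rw [h1]
    have h2 : ∀ y ∈ univ.filter (fun y : Y => π y ∈ O₀), e (j.comp y) = 1 - 2 * w y := by
      intro y hy
      have h3 := hw y
      have h4 : u (π y) = 1 := if_pos (mem_filter.1 hy).2
      rw [h4] at h3
      linarith
    rw [sum_congr rfl h2, sum_sub_distrib, sum_const, nsmul_eq_mul, mul_one, ← mul_sum]
    have h3 : 2 * (univ.filter (fun y : Y => π y ∈ O₀)).card = 2 ^ k := by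
      rw [← hk]
      exact card_over j h _ hO
    have hk3 : 3 ≤ k := by
      by_contra hk3
      push Not at hk3
      have h5 : Fintype.card Y₀ * 2 ^ l = 2 ^ k := by rw [← hcards, hcardY]
      have h6 : 2 ≤ Fintype.card Y₀ := by
        obtain ⟨y⟩ : Nonempty Y := by
          rw [← Fintype.card_pos_iff, hcardY]
          positivity
        have h7 : 1 < Fintype.card Y₀ := Fintype.one_lt_card_iff.2 ⟨π y, cbar (π y), fun h8 =>
          cbar_ne _ h8.symm⟩
        exact h7
      have h7 : 2 ^ 2 ≤ 2 ^ l := Nat.pow_le_pow_right (by norm_num) h2l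
      have h8 : 2 ^ k ≤ 2 ^ 2 := Nat.pow_le_pow_right (by norm_num) (by omega)
      nlinarith
    obtain ⟨k', rfl⟩ := Nat.exists_eq_add_of_le hk3
    have h4 : (univ.filter (fun y : Y => π y ∈ O₀)).card = 4 * 2 ^ k' := by
      have h5 : (2 : ℕ) ^ (3 + k') = 2 * (4 * 2 ^ k') := by ring
      omega
    rw [h4]
    obtain ⟨a, ha⟩ := hdiv
    rw [ha]
    exact ⟨2 ^ k' - a, by push_cast; ring⟩
  have key := core_parity (G := L ≃ₐ[ℚ] L) (Y := Y) (Y₀ := Y₀) cbar cbar (fun y => cbar_cbar y)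
    (fun z => cbar_cbar z) (fun g y => rfl) (fun g z => rfl) π hπ hπi k l hcardY h2l
    (fun z => card_fibre (G := L ≃ₐ[ℚ] L) π hπ (2 ^ l) hcards z) O₀ hO₀ u
    (fun z => by rcases hu z with h1 | h1 <;> rw [h1] <;> decide) hui w hwi hsumw
    (fun y => c (j.comp y)) hcj (by
      intro g
      obtain ⟨σ, hσ⟩ := exists_aut j (g : L ≃+* L)
      rw [← hrel σ]
      refine Fintype.sum_equiv (embEquiv j h) _ _ fun y => ?_
      have h1 : (embEquiv j h) y = j.comp y := rfl
      rw [h1]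
      congr 1
      have h2 : (σ : ℂ →+* ℂ).comp (j.comp y) = j.comp (g • y) := by
        ext x
        exact hσ (y x)
      rw [h2]
      have h3 := hw (g • y)
      linarith)
  funext φ
  obtain ⟨y, rfl⟩ := h φ
  exact key y

end

end Pool.Agent.Q29.DP
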