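import Mathlib
import Pool.Agent.Q29.DP.Core2
import Pool.Agent.Q29.DP.Field
import Pool.Agent.H204R3.CM.Disc

/-!
# Functions without relations, for CM subfields of index two
-/

set_option autoImplicit false
set_option linter.unusedSectionVars false

namespace Pool.Agent.Q29.DP

open NumberField Module Finset MulAction Pool.Agent.H204R3.CM Pool.Agent.H977R3.CM

section

variable {E₀ E : Type*} [Field E₀] [NumberField E₀] [IsCMField E₀] [Field E] [NumberField E]
  [IsCMField E] [Algebra E₀ E]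

/-- Complex conjugation as an element of the Galois group of a Galois extension of the rational
numbers. -/
theorem exists_conj {L : Type*} [Field L] [NumberField L] [IsGalois ℚ L] (j : L →+* ℂ) :
    ∃ ρ : L ≃ₐ[ℚ] L, ∀ y : E →+* L, ρ • y = cbar y := by
  obtain ⟨g, hg⟩ := exists_gal j (starRingAut (R := ℂ))
  refine ⟨g, fun y => RingHom.ext fun x => j.injective ?_⟩
  have h1 := RingHom.congr_fun (comp_cbar j y) x
  change j ((cbar y) x) = (starRingEnd ℂ) (j (y x)) at h1
  rw [h1, emb_smul_apply, ← hg]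
  rfl

/-- The signs of the permutations of the embeddings of a subfield, if its discriminant is a square
in the subfield or not a square in the field. -/
theorem sign_cond {L : Type*} [Field L] [NumberField L] [IsGalois ℚ L] [DecidableEq (E₀ →+* L)]
    (j : L →+* ℂ) (h₀ : ∀ τ : E₀ →+* ℂ, ∃ y : E₀ →+* L, j.comp y = τ) (y₀ : E →+* L)
    (hd : ¬ IsSquare ((discr E₀ : ℤ) : E) ∨ IsSquare ((discr E₀ : ℤ) : E₀)) :
    (∀ (g : L ≃ₐ[ℚ] L) (z : E₀ →+* L), g • z = z →
        Equiv.Perm.sign (MulAction.toPerm g : Equiv.Perm (E₀ →+* L)) = 1) ∨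
      ∃ (g : L ≃ₐ[ℚ] L) (y : E →+* L), g • y = y ∧
        Equiv.Perm.sign (MulAction.toPerm g : Equiv.Perm (E₀ →+* L)) = -1 := by
  classical
  obtain ⟨e⟩ : Nonempty (Free.ChooseBasisIndex ℤ (𝓞 E₀) ≃ (E₀ →+* L)) := by
    refine ⟨Fintype.equivOfCardEq ?_⟩
    rw [card_emb j h₀, finrank_eq_card_basis (integralBasis E₀)]
  have hsq := dlt_sq j h₀ e
  have hsm := dlt_smul e
  have hne : dlt e ≠ 0 := by
    intro h
    rw [h] at hsq
    have h1 : ((discr E₀ : ℤ) : L) ≠ 0 := by
      exact_mod_cast discr_ne_zero E₀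
    apply h1
    rw [← hsq]
    ring
  have hone : ∀ g : L ≃ₐ[ℚ] L, g (dlt e) = dlt e →
      Equiv.Perm.sign (MulAction.toPerm g : Equiv.Perm (E₀ →+* L)) = 1 := by
    intro g hg
    rcases Int.units_eq_one_or
      (Equiv.Perm.sign (MulAction.toPerm g : Equiv.Perm (E₀ →+* L))) with h1 | h1
    · exact h1
    · exfalso
      have h2 := hsm g
      have h1' : Equiv.Perm.sign (MulAction.toPerm g : Equiv.Perm (E₀ →+* L)) = -1 := by
        convert h1
      rw [hg, h1'] at h2
      apply hne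
      have h3 : (2 : L) * dlt e = 0 := by
        push_cast at h2
        linear_combination h2
      rcases mul_eq_zero.1 h3 with h4 | h4
      · exact absurd h4 two_ne_zero
      · exact h4
  rcases hd with hd | ⟨x, hx⟩
  · right
    by_contra hcon
    push Not at hcon
    apply hd
    -- the root of the discriminant is fixed by the stabilizer
    let y' : E →ₐ[ℚ] L := RingHom.equivRatAlgHom E L y₀
    let K : IntermediateField ℚ L := y'.fieldRange
    have h1 : ∀ f : L ≃ₐ[K] L, f (dlt e) = dlt e := by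
      intro f
      let g : L ≃ₐ[ℚ] L := f.restrictScalars ℚ
      have hg : g • y₀ = y₀ := by
        refine RingHom.ext fun t => ?_
        rw [emb_smul_apply]
        exact f.commutes ⟨y₀ t, ⟨t, rfl⟩⟩
      have h2 := hcon g y₀ hg
      have h3 : Equiv.Perm.sign (MulAction.toPerm g : Equiv.Perm (E₀ →+* L)) = 1 := by
        rcases Int.units_eq_one_or
          (Equiv.Perm.sign (MulAction.toPerm g : Equiv.Perm (E₀ →+* L))) with h4 | h4
        · exact h4
        · exact absurd h4 h2
      have h4 := hsm g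
      rw [h3] at h4
      change g (dlt e) = dlt e
      rw [h4]
      simp
    have h2 : dlt e ∈ Set.range (algebraMap K L) :=
      (IsGalois.mem_range_algebraMap_iff_fixed (F := K) (dlt e)).2 h1
    obtain ⟨⟨_, t, rfl⟩, ht⟩ := h2
    refine ⟨t, y₀.injective ?_⟩
    have h3 : y₀ t = dlt e := ht
    rw [map_mul, map_intCast, h3, ← hsq, pow_two]
  · left
    intro g z hgz
    apply hone
    have h1 : (dlt e) ^ 2 = (z x) ^ 2 := by
      rw [hsq, pow_two, ← map_mul, ← hx, map_intCast]
    have h2 : g (z x) = z x := RingHom.congr_fun hgz x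
    rcases sq_eq_sq_iff_eq_or_eq_neg.1 h1 with h3 | h3
    · rw [h3, h2]
    · rw [h3, map_neg, h2]

open Classical in
/-- An odd antisymmetric function on the embeddings of a CM field of 2-power degree, whose sum
over the extensions of the embeddings in a CM type of a CM subfield of index two is not
divisible by four, satisfies no relation, if the discriminant of the subfield is a square in the
subfield or not a square in the field. -/
theorem no_relation_two (k : ℕ) (hk : finrank ℚ E = 2 ^ k) (hk3 : 3 ≤ k)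
    (hl : finrank E₀ E = 2)
    (hd : ¬ IsSquare ((discr E₀ : ℤ) : E) ∨ IsSquare ((discr E₀ : ℤ) : E₀))
    (Φ₀ : Set (E₀ →+* ℂ)) (hΦ₀ : IsCMType Φ₀) (e : (E →+* ℂ) → ℤ)
    (he : ∀ φ, ¬ (2 : ℤ) ∣ e φ) (hei : ∀ φ, e (ComplexEmbedding.conjugate φ) = -e φ)
    (hodd : ¬ (4 : ℤ) ∣ ∑ φ with φ.comp (algebraMap E₀ E) ∈ Φ₀, e φ)
    (c : (E →+* ℂ) → ℤ) (hc : ∀ φ, c (ComplexEmbedding.conjugate φ) = -c φ)
    (hrel : ∀ σ : ℂ ≃+* ℂ, ∑ φ, c φ * e ((σ : ℂ →+* ℂ).comp φ) = 0) : c = 0 := by
  obtain ⟨L, _, _, j, hj⟩ := exists_galois (fun _ : Unit => E)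
  have h : ∀ ψ : E →+* ℂ, ∃ φ : E →+* L, j.comp φ = ψ := hj ()
  have h₀ : ∀ τ : E₀ →+* ℂ, ∃ y : E₀ →+* L, j.comp y = τ := by
    intro τ
    obtain ⟨ψ, rfl⟩ := exists_extension (E := E) τ
    obtain ⟨φ, rfl⟩ := h ψ
    exact ⟨φ.comp (algebraMap E₀ E), rfl⟩
  obtain ⟨ρ, hρ⟩ := exists_conj (E := E) j
  let Y := E →+* L
  let Y₀ := E₀ →+* L
  let π : Y → Y₀ := fun φ => φ.comp (algebraMap E₀ E)
  have hπ : ∀ (g : L ≃ₐ[ℚ] L) (y : Y), π (g • y) = g • π y := fun g y => rfl
  let O₀ : Finset Y₀ := univ.filter (fun y => j.comp y ∈ Φ₀)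
  have hO₀ : ∀ z : Y₀, z ∈ O₀ ↔ cbar z ∉ O₀ := by
    intro z
    simp only [O₀, mem_filter, mem_univ, true_and]
    rw [comp_cbar]
    exact hΦ₀ (j.comp z)
  let u : Y₀ → ℤ := fun z => if z ∈ O₀ then 1 else -1
  have hu : ∀ z, u z = 1 ∨ u z = -1 := by
    intro z
    simp only [u]
    split_ifs
    · exact Or.inl rfl
    · exact Or.inr rfl
  have hui : ∀ z, u (cbar z) = -u z := by
    intro z
    by_cases hz : z ∈ O₀
    · have h1 := (hO₀ z).1 hz
      simp only [u, if_pos hz, if_neg h1]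
    · have h1 : cbar z ∈ O₀ := by
        by_contra h2
        exact hz ((hO₀ z).2 h2)
      simp only [u, if_neg hz, if_pos h1, neg_neg]
  have hw : ∀ y : Y, ∃ w : ℤ, u (π y) - e (j.comp y) = 2 * w := by
    intro y
    have h1 := he (j.comp y)
    rcases hu (π y) with h2 | h2 <;> rw [h2]
    · exact ⟨(1 - e (j.comp y)) / 2, by omega⟩
    · exact ⟨(-1 - e (j.comp y)) / 2, by omega⟩
  choose w hw using hw
  have hej : ∀ y : Y, e (j.comp (cbar y)) = -e (j.comp y) := by
    intro y
    rw [comp_cbar]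
    exact hei _
  have hcj : ∀ y : Y, c (j.comp (cbar y)) = -c (j.comp y) := by
    intro y
    rw [comp_cbar]
    exact hc _
  have hπi : ∀ y : Y, π (cbar y) = cbar (π y) := fun y => cbar_restrict y j
  have hwi : ∀ y : Y, w (cbar y) = -w y := by
    intro y
    have h1 := hw y
    have h2 := hw (cbar y)
    rw [hπi, hui, hej] at h2
    linarith
  have hcardY : Fintype.card Y = 2 ^ k := by
    rw [← hk]
    exact card_emb j h
  have hcards : Fintype.card Y = Fintype.card Y₀ * 2 := by
    rw [← hl]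
    exact card_tower j h h₀
  have hO : ∀ y : Y, y ∈ univ.filter (fun y : Y => π y ∈ O₀) ↔
      cbar y ∉ univ.filter (fun y : Y => π y ∈ O₀) := by
    intro y
    simp only [mem_filter, mem_univ, true_and, hπi]
    exact hO₀ (π y)
  obtain ⟨k', rfl⟩ := Nat.exists_eq_add_of_le hk3
  -- the half system of the subfield is even
  have hev : Even O₀.card := by
    have h1 := sum_half (cbar : Y₀ → Y₀) (fun z => cbar_cbar z) O₀ hO₀ (fun _ => 1)
      (fun _ => rfl)
    simp only [sum_const, nsmul_eq_mul, mul_one, card_univ] at h1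
    have h2 : Fintype.card Y₀ = 2 * O₀.card := by exact_mod_cast h1
    have h3 : (2 : ℕ) ^ (3 + k') = 2 * (2 * (2 * 2 ^ k')) := by ring
    refine ⟨2 ^ k', ?_⟩
    omega
  -- the condition
  have hsumw : ¬ (2 : ℤ) ∣ ∑ y with π y ∈ O₀, w y := by
    intro hdiv
    apply hodd
    have h1 : ∑ φ with φ.comp (algebraMap E₀ E) ∈ Φ₀, e φ =
        ∑ y : Y with π y ∈ O₀, e (j.comp y) := by
      symm
      refine sum_bij (fun (y : Y) _ => j.comp y) ?_ ?_ ?_ ?_
      · intro y hy
        rw [mem_filter] at hy ⊢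
        refine ⟨mem_univ _, ?_⟩
        exact (mem_filter.1 hy.2).2
      · intro a _ b _ hab
        exact RingHom.ext fun x => j.injective (RingHom.congr_fun hab x)
      · intro φ hφ
        obtain ⟨y, rfl⟩ := h φ
        refine ⟨y, ?_, rfl⟩
        rw [mem_filter] at hφ ⊢
        exact ⟨mem_univ _, mem_filter.2 ⟨mem_univ _, hφ.2⟩⟩
      · intro y _
        rfl
    rw [h1]
    have h2 : ∀ y ∈ univ.filter (fun y : Y => π y ∈ O₀), e (j.comp y) = 1 - 2 * w y := by
      intro y hy
      have h3 := hw y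
      have h4 : u (π y) = 1 := if_pos (mem_filter.1 hy).2
      rw [h4] at h3
      linarith
    rw [sum_congr rfl h2, sum_sub_distrib, sum_const, nsmul_eq_mul, mul_one, ← mul_sum]
    have h3 : 2 * (univ.filter (fun y : Y => π y ∈ O₀)).card = 2 ^ (3 + k') := by
      rw [← hk]
      exact card_over j h _ hO
    have h4 : (univ.filter (fun y : Y => π y ∈ O₀)).card = 4 * 2 ^ k' := by
      have h5 : (2 : ℕ) ^ (3 + k') = 2 * (4 * 2 ^ k') := by ring
      omega
    rw [h4]
    obtain ⟨a, ha⟩ := hdiv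
    rw [ha]
    exact ⟨2 ^ k' - a, by push_cast; ring⟩
  obtain ⟨y₀⟩ : Nonempty Y := by
    rw [← Fintype.card_pos_iff, hcardY]
    positivity
  have key := core_two_fibre (G := L ≃ₐ[ℚ] L) (Y := Y) (Y₀ := Y₀) cbar cbar
    (fun y => cbar_cbar y) (fun z => cbar_cbar z) (fun g y => rfl) (fun g z => rfl) ρ hρ π hπ hπi
    (3 + k') hcardY (fun z => card_fibre (G := L ≃ₐ[ℚ] L) π hπ 2 hcards z) O₀ hO₀ hev
    (sign_cond j h₀ y₀ hd) u (fun z => rfl) w hwi hsumw
    (fun y => c (j.comp y)) hcj (by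
      intro g
      obtain ⟨σ, hσ⟩ := exists_aut j (g : L ≃+* L)
      rw [← hrel σ]
      refine Fintype.sum_equiv (embEquiv j h) _ _ fun y => ?_
      have h1 : (embEquiv j h) y = j.comp y := rfl
      rw [h1]
      congr 1
      have h2 : (σ : ℂ →+* ℂ).comp (j.comp y) = j.comp (g • y) := by
        ext x
        exact hσ (y x)
      rw [h2]
      have h3 := hw (g • y)
      linarith)
  funext φ
  obtain ⟨y, rfl⟩ := h φ
  exact key y

end

end Pool.Agent.Q29.DP
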