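import Mathlib
import Pool.Agent.TH170.CM.Defs
import Pool.Agent.H977R3.CM.TowerDefs

/-!
# The 2-adic test for CM types: definitions
-/

set_option autoImplicit false

namespace Pool.Agent.Q29.DP

open NumberField Module Finset Pool.Agent.H204R3.CM Pool.Agent.H977R3.CM Pool.Agent.TH170.CM

/-- For all complex embeddings `φ` and `ψ` of `E` which agree on the subfield `E₀` some automorphism
of the complex numbers maps `φ` to `ψ` and fixes all embeddings of `E₀`. -/
def TransitiveOver (E₀ E : Type*) [Field E₀] [Field E] [Algebra E₀ E] : Prop :=
  ∀ φ ψ : E →+* ℂ, φ.comp (algebraMap E₀ E) = ψ.comp (algebraMap E₀ E) →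
    ∃ σ : ℂ ≃+* ℂ, (∀ τ : E₀ →+* ℂ, (σ : ℂ →+* ℂ).comp τ = τ) ∧ (σ : ℂ →+* ℂ).comp φ = ψ

open Classical in
/-- The sum of the signed weights `± M φ` (the sign is positive if `φ` belongs to `Φ`) of the
extensions `φ` to `E` of the embedding `τ` of the subfield `F`. It is even if the weights are odd and
`[E : F]` is even. -/
noncomputable def fibreSum (F : Type*) {E : Type*} [Field F] [Field E] [NumberField E]
    [Algebra F E] (M : (E →+* ℂ) → ℤ) (Φ : Set (E →+* ℂ)) (τ : F →+* ℂ) : ℤ :=
  ∑ φ with φ.comp (algebraMap F E) = τ, sgn Φ φ * M φ

/-- One half of the sum `fibreSum F M Φ τ`, modulo two. -/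
noncomputable def halfSum (F : Type*) {E : Type*} [Field F] [Field E] [NumberField E]
    [Algebra F E] (M : (E →+* ℂ) → ℤ) (Φ : Set (E →+* ℂ)) (τ : F →+* ℂ) : ZMod 2 :=
  ((fibreSum F M Φ τ / 2 : ℤ) : ZMod 2)

/-- The sum of the numbers `halfSum F M Φ` over the infinite places of `F` is not zero. -/
def OddSum (F : Type*) {E : Type*} [Field F] [NumberField F] [Field E] [NumberField E]
    [Algebra F E] (M : (E →+* ℂ) → ℤ) (Φ : Set (E →+* ℂ)) : Prop :=
  ∑ v : InfinitePlace F, halfSum F M Φ v.embedding ≠ 0

/-- The numbers `halfSum F M Φ` at the infinite places of `F` and their translates by the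
automorphisms of the complex numbers satisfy no common nontrivial linear relation. -/
def FreeSums (F : Type*) {E : Type*} [Field F] [NumberField F] [Field E] [NumberField E]
    [Algebra F E] (M : (E →+* ℂ) → ℤ) (Φ : Set (E →+* ℂ)) : Prop :=
  ∀ b : InfinitePlace F → ZMod 2,
    (∀ σ : ℂ ≃+* ℂ, ∑ v, b v * halfSum F M Φ ((σ : ℂ →+* ℂ).comp v.embedding) = 0) → b = 0

/-- The degree of `E` is a power of two, and the subfield `F` has index at least four; or it has
index two, the degree of `E` is at least eight, and the discriminant of `F` is not a square in `E` or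
is a square in `F`. -/
def GoodSubfield (F E : Type*) [Field F] [NumberField F] [Field E] [NumberField E]
    [Algebra F E] : Prop :=
  (∃ k, finrank ℚ E = 2 ^ k) ∧ (4 ≤ finrank F E ∨ (finrank F E = 2 ∧ 8 ≤ finrank ℚ E ∧
    (¬ IsSquare ((discr F : ℤ) : E) ∨ IsSquare ((discr F : ℤ) : F))))

/-- **The 2-adic test for a CM type `Φ` of `E` with weights `M`.** There is a CM subfield `F` of `E`
such that

* `F` is a good subfield (`GoodSubfield`; in particular the degree of `E` is a power of two), and the
  sum of the numbers `halfSum F M Φ` over the infinite places of `F` is not zero, or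
* the index of `F` is a power of two and at least four, the automorphisms of the complex numbers that
  fix all embeddings of `F` permute the extensions of each embedding of `F` to `E` transitively, and
  the numbers `halfSum F M Φ` satisfy no linear relation. -/
def PassesTest {E : Type*} [Field E] [NumberField E] (M : (E →+* ℂ) → ℤ) (Φ : Set (E →+* ℂ)) :
    Prop :=
  ∃ F : IntermediateField ℚ E, IsCMField F ∧ ((GoodSubfield F E ∧ OddSum F M Φ) ∨
    ((∃ l, 2 ≤ l ∧ finrank F E = 2 ^ l) ∧ TransitiveOver F E ∧ FreeSums F M Φ))

/-- **Exactly one half.** Let `E` be a CM field of degree `2 g` and `F` a good CM subfield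
(`GoodSubfield`; in particular `2 g` is a power of two), and let the weights `M` be odd. One half of
the `2 ^ g` CM types of `E` satisfy `OddSum F M`, and these types pass the 2-adic test. -/
def HalfLaw : Prop :=
  ∀ (E : Type) [Field E] [NumberField E] [IsCMField E] (F : IntermediateField ℚ E)
    [IsCMField F] (M : (E →+* ℂ) → ℤ) (g : ℕ), (∀ φ, Odd (M φ)) → finrank ℚ E = 2 * g →
    GoodSubfield F E →
      {Φ : Set (E →+* ℂ) | IsCMType Φ}.ncard = 2 ^ g ∧
      2 * {Φ : Set (E →+* ℂ) | IsCMType Φ ∧ OddSum F M Φ}.ncard = 2 ^ g ∧
      ∀ Φ : Set (E →+* ℂ), OddSum F M Φ → PassesTest M Φ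

/-- If the CM subfield `F` of `E` is normal over `ℚ` then the automorphisms of the complex numbers that
fix all embeddings of `F` permute the extensions of each embedding of `F` to `E` transitively. -/
def NormalLaw : Prop :=
  ∀ (E : Type) [Field E] [NumberField E] [IsCMField E] (F : IntermediateField ℚ E)
    [IsCMField F] [IsGalois ℚ F], TransitiveOver F E

/-- The multiplicities modulo two, with which the CM type `Φ` of `E` meets the sets of the extensions
of the embeddings of the subfield `E₀`, satisfy no nontrivial linear relation that is preserved by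
all automorphisms of the complex numbers. (The multiplicities of an embedding and of its complex
conjugate agree modulo two if `[E : E₀]` is even, so the relations are sums over the infinite
places of `E₀`.) -/
def ParityFree (E₀ : Type*) {E : Type*} [Field E₀] [NumberField E₀] [Field E] [Algebra E₀ E]
    (Φ : Set (E →+* ℂ)) : Prop :=
  ∀ b : InfinitePlace E₀ → ZMod 2,
    (∀ σ : ℂ ≃+* ℂ, ∑ v, b v * (mult Φ ((σ : ℂ →+* ℂ).comp v.embedding) : ZMod 2) = 0) → b = 0

/-- The number of the elements of the CM type `Φ` of `E` over the chosen embeddings of the infinite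
places of the subfield `F` is odd. If `[E : F]` is even this does not depend on the choice of the
embeddings. -/
def OddOverPlaces (F : Type*) {E : Type*} [Field F] [NumberField F] [Field E] [Algebra F E]
    (Φ : Set (E →+* ℂ)) : Prop :=
  Odd (∑ v : InfinitePlace F, mult Φ v.embedding)

/-- **The 2-adic test for a CM type `Φ` of `E`.** There is a CM subfield `F` of `E` such that

* `F` is a good subfield (`GoodSubfield`; in particular the degree of `E` is a power of two), and the
  number of the elements of `Φ` over the infinite places of `F` is odd (`OddOverPlaces`), or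
* the index of `F` is a power of two and at least four, the automorphisms of the complex numbers that
  fix all embeddings of `F` permute the extensions of each embedding of `F` to `E` transitively
  (`TransitiveOver`), and the multiplicities modulo two of `Φ` over the infinite places of `F` satisfy
  no linear relation (`ParityFree`). -/
def Test {E : Type*} [Field E] [NumberField E] (Φ : Set (E →+* ℂ)) : Prop :=
  ∃ F : IntermediateField ℚ E, IsCMField F ∧ ((GoodSubfield F E ∧ OddOverPlaces F Φ) ∨
    ((∃ l, 2 ≤ l ∧ finrank F E = 2 ^ l) ∧ TransitiveOver F E ∧ ParityFree F Φ))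

end Pool.Agent.Q29.DP
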