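import Mathlib
import Pool.Agent.Q29.DP.Core
import Pool.Agent.H977R3.CM.TowerCore

/-!
# The combinatorial core for towers, at all levels

A group of permutations acts transitively on a set `Y` and on its quotient `Y₀`, the elements acting
trivially on `Y₀` are transitive on the fibres, and these have `r ^ l` elements, `r` prime. For an
antisymmetric function `e = u ∘ π - q w`, where `r q` divides `r ^ l`, a relation between the translates
of `e` gives a relation modulo `r` between the translates of the sums of `w` over the fibres.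
-/

set_option autoImplicit false
set_option linter.unusedSectionVars false

namespace Pool.Agent.Q29.DP

open MulAction Finset

section

variable {G : Type*} [Group G] [Finite G] {Y Y₀ : Type*} [Fintype Y] [DecidableEq Y]
  [Fintype Y₀] [DecidableEq Y₀] [MulAction G Y] [MulAction G Y₀]

/-- Averages over a group that is transitive on the fibres. -/
theorem average [Fintype G] (π : Y → Y₀) (hπ : ∀ (g : G) (y : Y), π (g • y) = g • π y)
    (K : Subgroup G) [Fintype K] (hK₀ : ∀ g ∈ K, ∀ z : Y₀, g • z = z)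
    (hKt : ∀ x y : Y, π x = π y → ∃ g ∈ K, g • x = y) (N : ℕ) (y : Y)
    (hfib : (univ.filter (fun y' => π y' = π y)).card = N) (f : Y → ℤ) :
    (N : ℤ) * ∑ k : K, f ((k : G) • y) = Fintype.card K * ∑ y' with π y' = π y, f y' := by
  classical
  have h1 : ∀ y' ∈ univ.filter (fun y' => π y' = π y), ∑ k : K, f ((k : G) • y') =
      ∑ k : K, f ((k : G) • y) := by
    intro y' hy'
    obtain ⟨g, hg, rfl⟩ := hKt y y' (mem_filter.1 hy').2.symm
    refine Fintype.sum_equiv (Equiv.mulRight ⟨g, hg⟩) _ _ fun k => ?_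
    rw [← mul_smul]
    rfl
  have h2 : ∑ y' with π y' = π y, ∑ k : K, f ((k : G) • y') =
      N * ∑ k : K, f ((k : G) • y) := by
    rw [sum_congr rfl h1, sum_const, hfib, nsmul_eq_mul]
  rw [← h2, sum_comm]
  have h3 : ∀ k : K, ∑ y' with π y' = π y, f ((k : G) • y') = ∑ y' with π y' = π y, f y' := by
    intro k
    refine sum_bij (fun y' _ => (k : G) • y') ?_ ?_ ?_ ?_
    · intro y' hy'
      rw [mem_filter] at hy' ⊢
      exact ⟨mem_univ _, by rw [hπ, hK₀ _ k.2, hy'.2]⟩
    · intro a _ b _ hab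
      exact smul_left_cancel _ hab
    · intro y' hy'
      rw [mem_filter] at hy'
      refine ⟨(k : G)⁻¹ • y', ?_, smul_inv_smul _ _⟩
      rw [mem_filter]
      exact ⟨mem_univ _, by rw [hπ, hK₀ _ (K.inv_mem k.2), hy'.2]⟩
    · intro y' _
      rfl
  rw [sum_congr rfl (fun k _ => h3 k), sum_const, card_univ, nsmul_eq_mul]

/-- A sum over the points, fibre by fibre. -/
theorem sum_fibres (π : Y → Y₀) (F : Y → ℤ) (d : Y₀ → ℤ) :
    ∑ y, d (π y) * F y = ∑ z, d z * ∑ y with π y = z, F y := by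
  rw [← sum_fiberwise_of_maps_to (s := (univ : Finset Y)) (t := (univ : Finset Y₀)) (g := π)
    (fun y _ => mem_univ _)]
  refine sum_congr rfl fun z _ => ?_
  rw [mul_sum]
  exact sum_congr rfl fun y hy => by rw [(mem_filter.1 hy).2]

/-- The sum over a fibre of a translated function. -/
theorem sum_fibre_smul (π : Y → Y₀) (hπ : ∀ (g : G) (y : Y), π (g • y) = g • π y) (g : G)
    (z : Y₀) (f : Y → ℤ) : ∑ y with π y = z, f (g • y) = ∑ y with π y = g • z, f y := by
  refine sum_bij (fun y _ => g • y) ?_ ?_ ?_ ?_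
  · intro y hy
    rw [mem_filter] at hy ⊢
    exact ⟨mem_univ _, by rw [hπ, hy.2]⟩
  · intro a _ b _ hab
    exact smul_left_cancel _ hab
  · intro y hy
    rw [mem_filter] at hy
    refine ⟨g⁻¹ • y, ?_, smul_inv_smul _ _⟩
    rw [mem_filter]
    exact ⟨mem_univ _, by rw [hπ, hy.2, inv_smul_smul]⟩
  · intro y _
    rfl

/-- **The core for towers.** -/
theorem core_level (inv : Y → Y) (inv₀ : Y₀ → Y₀)
    (hinv : ∀ y, inv (inv y) = y) (hinv₀ : ∀ z, inv₀ (inv₀ z) = z)
    (hG : ∀ (g : G) (y : Y), g • inv y = inv (g • y))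
    (hG₀ : ∀ (g : G) (z : Y₀), g • inv₀ z = inv₀ (g • z))
    (π : Y → Y₀) (hπ : ∀ (g : G) (y : Y), π (g • y) = g • π y)
    (hπi : ∀ y, π (inv y) = inv₀ (π y))
    (K : Subgroup G) (hK₀ : ∀ g ∈ K, ∀ z : Y₀, g • z = z)
    (hKt : ∀ x y : Y, π x = π y → ∃ g ∈ K, g • x = y)
    (r l : ℕ) [Fact r.Prime] (hfib : ∀ z, (univ.filter (fun y => π y = z)).card = r ^ l)
    (q : ℕ) (hq : r * q ∣ r ^ l)
    (O₀ : Finset Y₀) (hO₀ : ∀ z, z ∈ O₀ ↔ inv₀ z ∉ O₀)
    (u : Y₀ → ℤ) (hui : ∀ z, u (inv₀ z) = -u z) (w : Y → ℤ) (hwi : ∀ y, w (inv y) = -w y)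
    (hgen : ∀ b : Y₀ → ZMod r, (∀ z, b (inv₀ z) = -b z) →
      (∀ g : G, ∑ z ∈ O₀, b z * ((∑ y with π y = g • z, w y : ℤ) : ZMod r) = 0) → b = 0)
    (c : Y → ℤ) (hc : ∀ y, c (inv y) = -c y)
    (hrel : ∀ g : G, ∑ y, c y * (u (π (g • y)) - q * w (g • y)) = 0) : ∀ y, c y = 0 := by
  classical
  have _ : Fintype G := Fintype.ofFinite G
  have _ : Fintype K := Fintype.ofFinite K
  have hr : r.Prime := Fact.out
  have hr0 : (r : ℤ) ≠ 0 := by exact_mod_cast hr.ne_zero
  have hq0 : q ≠ 0 := by
    rintro rfl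
    rw [mul_zero] at hq
    exact pow_ne_zero l hr.ne_zero (Nat.eq_zero_of_zero_dvd hq)
  have hfneg : ∀ (n : Y → ℤ), (∀ y, n (inv y) = -n y) → ∀ z,
      ∑ y with π y = inv₀ z, n y = -∑ y with π y = z, n y := by
    intro n hn z
    rw [← sum_neg_distrib]
    refine sum_bij (fun y _ => inv y) ?_ ?_ ?_ ?_
    · intro y hy
      rw [mem_filter] at hy ⊢
      exact ⟨mem_univ _, by rw [hπi, hy.2, hinv₀]⟩
    · intro a _ b _ hab
      rw [← hinv a, hab, hinv]
    · intro y hy
      rw [mem_filter] at hy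
      refine ⟨inv y, ?_, hinv y⟩
      rw [mem_filter]
      exact ⟨mem_univ _, by rw [hπi, hy.2]⟩
    · intro y _
      rw [hn, neg_neg]
  set e : Y → ℤ := fun y => u (π y) - q * w y with he
  let W : Y₀ → ℤ := fun z => ∑ y with π y = z, w y
  have hWi : ∀ z, W (inv₀ z) = -W z := hfneg w hwi
  obtain ⟨N', hN'⟩ := hq
  -- the sums of `e` over the fibres
  have hE : ∀ (g : G) (z : Y₀), ∑ y with π y = z, e (g • y) =
      q * ((r * N' : ℕ) * u (g • z) - W (g • z)) := by
    intro g z
    rw [sum_fibre_smul π hπ g z e]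
    simp only [he]
    rw [sum_sub_distrib, ← mul_sum]
    have h1 : ∑ y with π y = g • z, u (π y) = (r ^ l : ℕ) * u (g • z) := by
      rw [sum_congr rfl (fun y hy => by rw [(mem_filter.1 hy).2]), sum_const, hfib, nsmul_eq_mul]
    rw [h1, hN']
    push_cast
    ring
  -- the sums of `c` over the fibres satisfy a relation
  let C : Y₀ → ℤ := fun z => ∑ y with π y = z, c y
  have hCi : ∀ z, C (inv₀ z) = -C z := hfneg c hc
  have hCrel : ∀ g : G, ∑ z, C z * ((r * N' : ℕ) * u (g • z) - W (g • z)) = 0 := by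
    intro g
    have h1 : ∑ y, c y * ∑ k : K, e (g • (k : G) • y) = 0 := by
      have h2 : ∑ y, c y * ∑ k : K, e (g • (k : G) • y) =
          ∑ k : K, ∑ y, c y * e ((g * (k : G)) • y) := by
        rw [sum_comm]
        refine sum_congr rfl fun y _ => ?_
        rw [mul_sum]
        exact sum_congr rfl fun k _ => by rw [mul_smul]
      rw [h2]
      exact sum_eq_zero fun k _ => hrel _
    have h2 : ∀ y, ((r ^ l : ℕ) : ℤ) * ∑ k : K, e (g • (k : G) • y) =
        Fintype.card K * ∑ y' with π y' = π y, e (g • y') := fun y =>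
      average π hπ K hK₀ hKt (r ^ l) y (hfib _) (fun y => e (g • y))
    have h3 : (Fintype.card K : ℤ) * ∑ y, c y * ∑ y' with π y' = π y, e (g • y') = 0 := by
      have h4 : (Fintype.card K : ℤ) * ∑ y, c y * ∑ y' with π y' = π y, e (g • y') =
          ((r ^ l : ℕ) : ℤ) * ∑ y, c y * ∑ k : K, e (g • (k : G) • y) := by
        rw [mul_sum, mul_sum]
        refine sum_congr rfl fun y _ => ?_
        rw [mul_left_comm, ← h2, mul_left_comm]
      rw [h4, h1, mul_zero]
    have h4 : ∑ y, c y * ∑ y' with π y' = π y, e (g • y') = 0 := by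
      rcases mul_eq_zero.1 h3 with h5 | h5
      · exfalso
        have h6 : 0 < Fintype.card K := Fintype.card_pos
        have h7 : (Fintype.card K : ℤ) ≠ 0 := by exact_mod_cast h6.ne'
        exact h7 h5
      · exact h5
    have h5 : ∑ y, c y * ∑ y' with π y' = π y, e (g • y') =
        ∑ z, (∑ y' with π y' = z, e (g • y')) * C z := by
      rw [← sum_fibres π c (fun z => ∑ y' with π y' = z, e (g • y'))]
      exact sum_congr rfl fun y _ => mul_comm _ _
    rw [h5] at h4
    have h6 : ∑ z, (∑ y' with π y' = z, e (g • y')) * C z =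
        q * ∑ z, C z * ((r * N' : ℕ) * u (g • z) - W (g • z)) := by
      rw [mul_sum]
      exact sum_congr rfl fun z _ => by rw [hE]; ring
    rw [h6] at h4
    exact (mul_eq_zero.1 h4).resolve_left (by exact_mod_cast hq0)
  -- these sums vanish
  have hC0 : ∀ z, C z = 0 := by
    by_contra hcon
    push Not at hcon
    obtain ⟨z₀, hz₀⟩ := hcon
    let Λ : AddSubgroup (Y₀ → ℤ) :=
      { carrier := {d | (∀ z, d (inv₀ z) = -d z) ∧
          ∀ g : G, ∑ z, d z * ((r * N' : ℕ) * u (g • z) - W (g • z)) = 0}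
        zero_mem' := ⟨fun z => by simp, fun g => by simp⟩
        add_mem' := by
          rintro a b ⟨ha1, ha2⟩ ⟨hb1, hb2⟩
          refine ⟨fun z => ?_, fun g => ?_⟩
          · simp only [Pi.add_apply, ha1, hb1]
            ring
          · simp only [Pi.add_apply, add_mul, sum_add_distrib, ha2, hb2, add_zero]
        neg_mem' := by
          rintro a ⟨ha1, ha2⟩
          refine ⟨fun z => ?_, fun g => ?_⟩
          · simp only [Pi.neg_apply, ha1]
          · simp only [Pi.neg_apply, neg_mul, sum_neg_distrib, ha2, neg_zero] }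
    have hmem : ∀ d, d ∈ Λ ↔ (∀ z, d (inv₀ z) = -d z) ∧
        ∀ g : G, ∑ z, d z * ((r * N' : ℕ) * u (g • z) - W (g • z)) = 0 := fun d => Iff.rfl
    obtain ⟨d, hd, hnd, -⟩ := exists_fixed_mod (Y := Y₀) (S := (⊥ : Subgroup G)) r
      (IsPGroup.of_bot) Λ (by
        intro s d hd
        have h1 : (fun y : Y₀ => d (s⁻¹ • y)) = d := by
          funext y
          have h2 : s = 1 := Subsingleton.elim _ _
          rw [h2, inv_one, one_smul]
        rw [h1]
        exact hd) ⟨C, (hmem C).2 ⟨hCi, hCrel⟩, fun h => hz₀ (congrFun h z₀)⟩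
    obtain ⟨hd1, hd2⟩ := (hmem d).1 hd
    have hb := hgen (fun z => ((d z : ℤ) : ZMod r)) (fun z => by
      rw [hd1]
      push_cast
      rfl) (fun g => by
      have h1 : ∑ z, d z * ((r * N' : ℕ) * u (g • z) - W (g • z)) =
          2 * ∑ z ∈ O₀, d z * ((r * N' : ℕ) * u (g • z) - W (g • z)) := by
        refine sum_half inv₀ hinv₀ O₀ hO₀ _ fun z => ?_
        rw [hd1, hG₀, hui, hWi]
        ring
      rw [hd2 g] at h1
      have h2 : ∑ z ∈ O₀, d z * ((r * N' : ℕ) * u (g • z) - W (g • z)) = 0 := by linarith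
      have h3 := congrArg (fun x : ℤ => (x : ZMod r)) h2
      simp only [Int.cast_sum, Int.cast_zero] at h3
      rw [← neg_eq_zero, ← sum_neg_distrib, ← h3]
      refine sum_congr rfl fun z _ => ?_
      push_cast
      rw [CharP.cast_eq_zero (ZMod r) r]
      simp only [W, Int.cast_sum]
      ring)
    apply hnd
    have hdiv : ∀ z, (r : ℤ) ∣ d z := fun z =>
      (ZMod.intCast_zmod_eq_zero_iff_dvd (d z) r).1 (congrFun hb z)
    choose m hm using hdiv
    refine ⟨m, (hmem m).2 ⟨fun z => ?_, fun g => ?_⟩, funext fun z => hm z⟩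
    · have h1 := hd1 z
      rw [hm, hm] at h1
      apply mul_left_cancel₀ hr0
      rw [h1]
      ring
    · have h1 := hd2 g
      have h2 : ∑ z, d z * ((r * N' : ℕ) * u (g • z) - W (g • z)) =
          r * ∑ z, m z * ((r * N' : ℕ) * u (g • z) - W (g • z)) := by
        rw [mul_sum]
        exact sum_congr rfl fun z _ => by rw [hm]; ring
      rw [h2] at h1
      exact (mul_eq_zero.1 h1).resolve_left hr0
  -- the relations with vanishing sums over the fibres
  by_contra hcon
  push Not at hcon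
  obtain ⟨x₀, hx₀⟩ := hcon
  obtain ⟨S⟩ : Nonempty (Sylow r K) := inferInstance
  let Λ : AddSubgroup (Y → ℤ) :=
    { carrier := {n | (∀ y, n (inv y) = -n y) ∧ (∀ g : G, ∑ y, n y * e (g • y) = 0) ∧
        ∀ z, ∑ y with π y = z, n y = 0}
      zero_mem' := ⟨fun z => by simp, fun g => by simp, fun z => by simp⟩
      add_mem' := by
        rintro a b ⟨ha1, ha2, ha3⟩ ⟨hb1, hb2, hb3⟩
        refine ⟨fun z => ?_, fun g => ?_, fun z => ?_⟩
        · simp only [Pi.add_apply, ha1, hb1]
          ring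
        · simp only [Pi.add_apply, add_mul, sum_add_distrib, ha2, hb2, add_zero]
        · simp only [Pi.add_apply, sum_add_distrib, ha3, hb3, add_zero]
      neg_mem' := by
        rintro a ⟨ha1, ha2, ha3⟩
        refine ⟨fun z => ?_, fun g => ?_, fun z => ?_⟩
        · simp only [Pi.neg_apply, ha1]
        · simp only [Pi.neg_apply, neg_mul, sum_neg_distrib, ha2, neg_zero]
        · simp only [Pi.neg_apply, sum_neg_distrib, ha3, neg_zero] }
  have hmem : ∀ n, n ∈ Λ ↔ (∀ y, n (inv y) = -n y) ∧ (∀ g : G, ∑ y, n y * e (g • y) = 0) ∧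
      ∀ z, ∑ y with π y = z, n y = 0 := fun n => Iff.rfl
  obtain ⟨n, hn, hnd, hns⟩ := exists_fixed_mod (Y := Y) (S := (S : Subgroup K)) r S.isPGroup' Λ
    (by
      intro s n hn
      obtain ⟨h1, h2, h3⟩ := (hmem n).1 hn
      refine (hmem _).2 ⟨fun y => ?_, fun g => ?_, fun z => ?_⟩
      · change n (((s : K) : G)⁻¹ • inv y) = -n (((s : K) : G)⁻¹ • y)
        rw [hG, h1]
      · rw [← h2 (g * ((s : K) : G))]
        refine Fintype.sum_equiv (MulAction.toPerm ((s : K) : G)⁻¹) _ _ fun y => ?_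
        simp only [MulAction.toPerm_apply, mul_smul, smul_inv_smul]
        rfl
      · rw [← h3 (((s : K) : G)⁻¹ • z)]
        exact sum_fibre_smul π hπ ((s : K) : G)⁻¹ z n)
    ⟨c, (hmem c).2 ⟨hc, hrel, hC0⟩, fun h => hx₀ (congrFun h x₀)⟩
  obtain ⟨hn1, hn2, hn3⟩ := (hmem n).1 hn
  -- `n` is constant modulo `r` on the fibres
  have hconst : ∀ x y : Y, π x = π y → ((n x : ℤ) : ZMod r) = n y := by
    intro x y hxy
    let B : Type _ := {t : Y // π t = π x}
    let _ : MulAction K B :=
      { smul := fun g t => ⟨(g : G) • t.1, by rw [hπ, hK₀ _ g.2, t.2]⟩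
        one_smul := fun t => Subtype.ext (one_smul G t.1)
        mul_smul := fun a b t => Subtype.ext (mul_smul (a : G) (b : G) t.1) }
    have hBt : IsPretransitive K B := by
      refine ⟨fun a b => ?_⟩
      obtain ⟨g, hg, hg2⟩ := hKt a.1 b.1 (a.2.trans b.2.symm)
      exact ⟨⟨g, hg⟩, Subtype.ext hg2⟩
    have hBc : Nat.card B = r ^ l := by
      rw [Nat.card_eq_fintype_card, Fintype.card_subtype]
      exact hfib (π x)
    obtain ⟨s, hs⟩ := Pool.Agent.H925R2.sylow_transitive (G := K) (B := B) r l hBc S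
      ⟨y, hxy.symm⟩ ⟨x, rfl⟩
    have hs1 : ((s : K) : G) • y = x := congrArg Subtype.val hs
    obtain ⟨m, hm, hm2⟩ := hns s
    have h1 := hm2 x
    have h2 : (s : K)⁻¹ • x = y := by
      rw [← hs1]
      change ((s : K) : G)⁻¹ • ((s : K) : G) • y = y
      rw [inv_smul_smul]
    have h3 : n y - n x = r * m x := by
      rw [← h1]
      congr 2
      exact h2.symm
    have h4 : n y = n x + r * m x := by linarith
    rw [h4]
    push_cast
    rw [CharP.cast_eq_zero (ZMod r) r, zero_mul, add_zero]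
  have hsurj : ∀ z, ∃ y, π y = z := by
    intro z
    have h1 : 0 < (univ.filter (fun y => π y = z)).card := by
      rw [hfib]
      exact pow_pos hr.pos l
    obtain ⟨y, hy⟩ := card_pos.1 h1
    exact ⟨y, (mem_filter.1 hy).2⟩
  choose σ hσ using hsurj
  have hb := hgen (fun z => ((n (σ z) : ℤ) : ZMod r)) (fun z => by
    have h1 : ((n (σ (inv₀ z)) : ℤ) : ZMod r) = n (inv (σ z)) :=
      hconst _ _ (by rw [hσ, hπi, hσ])
    rw [h1, hn1]
    push_cast
    rfl) (fun g => by
    have h1 : ∑ y, n y * w (g • y) = 0 := by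
      have h2 := hn2 g
      simp only [he, mul_sub] at h2
      rw [sum_sub_distrib] at h2
      have h3 : ∑ y, n y * u (π (g • y)) = 0 := by
        have h4 : ∑ y, n y * u (π (g • y)) = ∑ z, u (g • z) * ∑ y with π y = z, n y := by
          rw [← sum_fibres π n (fun z => u (g • z))]
          exact sum_congr rfl fun y _ => by rw [hπ, mul_comm]
        rw [h4]
        exact sum_eq_zero fun z _ => by rw [hn3, mul_zero]
      rw [h3, zero_sub, neg_eq_zero] at h2
      have h4 : ∑ y, n y * ((q : ℤ) * w (g • y)) = q * ∑ y, n y * w (g • y) := by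
        rw [mul_sum]
        exact sum_congr rfl fun y _ => by ring
      rw [h4] at h2
      exact (mul_eq_zero.1 h2).resolve_left (by exact_mod_cast hq0)
    have h2 : ∑ y, n y * w (g • y) = 2 * ∑ y with π y ∈ O₀, n y * w (g • y) := by
      refine sum_half inv hinv _ (fun y => ?_) _ fun y => ?_
      · simp only [mem_filter, mem_univ, true_and, hπi]
        exact hO₀ (π y)
      · rw [hn1, hG, hwi]
        ring
    have h3 : ∑ y with π y ∈ O₀, n y * w (g • y) = 0 := by linarith
    have h4 : ∑ y with π y ∈ O₀, n y * w (g • y) =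
        ∑ z ∈ O₀, ∑ y with π y = z, n y * w (g • y) := by
      rw [← sum_fiberwise_of_maps_to (s := univ.filter (fun y => π y ∈ O₀)) (t := O₀) (g := π)
        (fun y hy => (mem_filter.1 hy).2)]
      refine sum_congr rfl fun z hz => ?_
      rw [filter_filter]
      refine sum_congr ?_ fun _ _ => rfl
      ext y
      simp only [mem_filter, mem_univ, true_and]
      constructor
      · rintro ⟨_, h5⟩
        exact h5
      · intro h5
        exact ⟨h5 ▸ hz, h5⟩
    rw [h4] at h3
    have h5 := congrArg (fun x : ℤ => (x : ZMod r)) h3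
    simp only [Int.cast_sum, Int.cast_zero] at h5
    rw [← h5]
    refine sum_congr rfl fun z _ => ?_
    rw [← sum_fibre_smul π hπ g z w, Int.cast_sum, mul_sum]
    refine sum_congr rfl fun y hy => ?_
    rw [Int.cast_mul, hconst y (σ z) (by rw [(mem_filter.1 hy).2, hσ])])
  apply hnd
  have hdiv : ∀ y, (r : ℤ) ∣ n y := by
    intro y
    refine (ZMod.intCast_zmod_eq_zero_iff_dvd (n y) r).1 ?_
    rw [hconst y (σ (π y)) (hσ _).symm]
    exact congrFun hb (π y)
  choose m hm using hdiv
  refine ⟨m, (hmem m).2 ⟨fun y => ?_, fun g => ?_, fun z => ?_⟩, funext fun y => hm y⟩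
  · have h1 := hn1 y
    rw [hm, hm] at h1
    apply mul_left_cancel₀ hr0
    rw [h1]
    ring
  · have h1 := hn2 g
    have h2 : ∑ y, n y * e (g • y) = r * ∑ y, m y * e (g • y) := by
      rw [mul_sum]
      exact sum_congr rfl fun y _ => by rw [hm]; ring
    rw [h2] at h1
    exact (mul_eq_zero.1 h1).resolve_left hr0
  · have h1 := hn3 z
    have h2 : ∑ y with π y = z, n y = r * ∑ y with π y = z, m y := by
      rw [mul_sum]
      exact sum_congr rfl fun y _ => hm y
    rw [h2] at h1
    exact (mul_eq_zero.1 h1).resolve_left hr0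

end

end Pool.Agent.Q29.DP
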