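import Mathlib
import Pool.Agent.Q29.DP.Field
import Pool.Agent.Q29.DP.Tower
import Pool.Agent.Q29.DP.Defs

/-!
# Functions on the embeddings of an extension of 2-power degree of a CM field without relations
-/

set_option autoImplicit false
set_option linter.unusedSectionVars false

namespace Pool.Agent.Q29.DP

open NumberField Module Finset MulAction Pool.Agent.H204R3.CM Pool.Agent.H977R3.CM

section

variable {E₀ E : Type*} [Field E₀] [NumberField E₀] [IsCMField E₀] [Field E] [NumberField E]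
  [IsCMField E] [Algebra E₀ E]

open Classical in
/-- An odd antisymmetric function `e` on the embeddings of an extension of degree `2 ^ l ≥ 4` of a
CM field `E₀` satisfies no relation, if one half of its sums over the extensions of the embeddings
of `E₀` satisfy no relation modulo two. -/
theorem no_relation_tower (l : ℕ) (hl : finrank E₀ E = 2 ^ l) (h2l : 2 ≤ l)
    (htr : TransitiveOver E₀ E) (Φ₀ : Set (E₀ →+* ℂ)) (hΦ₀ : IsCMType Φ₀) (e : (E →+* ℂ) → ℤ)
    (he : ∀ φ, ¬ (2 : ℤ) ∣ e φ) (hei : ∀ φ, e (ComplexEmbedding.conjugate φ) = -e φ)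
    (hgen : ∀ b : (E₀ →+* ℂ) → ZMod 2, (∀ τ, b (ComplexEmbedding.conjugate τ) = b τ) →
      (∀ σ : ℂ ≃+* ℂ, ∑ τ with τ ∈ Φ₀, b τ * (((∑ φ with
        φ.comp (algebraMap E₀ E) = (σ : ℂ →+* ℂ).comp τ, e φ) / 2 : ℤ) : ZMod 2) = 0) → b = 0)
    (c : (E →+* ℂ) → ℤ) (hc : ∀ φ, c (ComplexEmbedding.conjugate φ) = -c φ)
    (hrel : ∀ σ : ℂ ≃+* ℂ, ∑ φ, c φ * e ((σ : ℂ →+* ℂ).comp φ) = 0) : c = 0 := by
  obtain ⟨L, _, _, j, hj⟩ := exists_galois (fun _ : Unit => E)
  have h : ∀ ψ : E →+* ℂ, ∃ φ : E →+* L, j.comp φ = ψ := hj ()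
  have h₀ : ∀ τ : E₀ →+* ℂ, ∃ y : E₀ →+* L, j.comp y = τ := by
    intro τ
    obtain ⟨ψ, rfl⟩ := exists_extension (E := E) τ
    obtain ⟨φ, rfl⟩ := h ψ
    exact ⟨φ.comp (algebraMap E₀ E), rfl⟩
  let Y := E →+* L
  let Y₀ := E₀ →+* L
  let π : Y → Y₀ := fun φ => φ.comp (algebraMap E₀ E)
  have hπ : ∀ (g : L ≃ₐ[ℚ] L) (y : Y), π (g • y) = g • π y := fun g y => rfl
  let O₀ : Finset Y₀ := univ.filter (fun y => j.comp y ∈ Φ₀)
  have hO₀ : ∀ z : Y₀, z ∈ O₀ ↔ cbar z ∉ O₀ := by
    intro z
    simp only [O₀, mem_filter, mem_univ, true_and]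
    rw [comp_cbar]
    exact hΦ₀ (j.comp z)
  let u : Y₀ → ℤ := fun z => if z ∈ O₀ then 1 else -1
  have hu : ∀ z, u z = 1 ∨ u z = -1 := by
    intro z
    simp only [u]
    split_ifs
    · exact Or.inl rfl
    · exact Or.inr rfl
  have hui : ∀ z, u (cbar z) = -u z := by
    intro z
    by_cases hz : z ∈ O₀
    · have h1 := (hO₀ z).1 hz
      simp only [u, if_pos hz, if_neg h1]
    · have h1 : cbar z ∈ O₀ := by
        by_contra h2
        exact hz ((hO₀ z).2 h2)
      simp only [u, if_neg hz, if_pos h1, neg_neg]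
  have hw : ∀ y : Y, ∃ w : ℤ, u (π y) - e (j.comp y) = 2 * w := by
    intro y
    have h1 := he (j.comp y)
    rcases hu (π y) with h2 | h2 <;> rw [h2]
    · exact ⟨(1 - e (j.comp y)) / 2, by omega⟩
    · exact ⟨(-1 - e (j.comp y)) / 2, by omega⟩
  choose w hw using hw
  have hej : ∀ y : Y, e (j.comp (cbar y)) = -e (j.comp y) := by
    intro y
    rw [comp_cbar]
    exact hei _
  have hcj : ∀ y : Y, c (j.comp (cbar y)) = -c (j.comp y) := by
    intro y
    rw [comp_cbar]
    exact hc _
  have hπi : ∀ y : Y, π (cbar y) = cbar (π y) := fun y => cbar_restrict y j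
  have hwi : ∀ y : Y, w (cbar y) = -w y := by
    intro y
    have h1 := hw y
    have h2 := hw (cbar y)
    rw [hπi, hui, hej] at h2
    linarith
  have hcards : Fintype.card Y = Fintype.card Y₀ * 2 ^ l := by
    rw [← hl]
    exact card_tower j h h₀
  have hfib : ∀ z, (univ.filter (fun y => π y = z)).card = 2 ^ l := fun z =>
    card_fibre (G := L ≃ₐ[ℚ] L) π hπ (2 ^ l) hcards z
  let K : Subgroup (L ≃ₐ[ℚ] L) :=
    { carrier := {g | ∀ z : Y₀, g • z = z}
      mul_mem' := by
        intro a b ha hb z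
        rw [mul_smul, hb, ha]
      one_mem' := fun z => one_smul _ z
      inv_mem' := by
        intro a ha z
        rw [inv_smul_eq_iff, ha] }
  have hKt : ∀ x y : Y, π x = π y → ∃ g ∈ K, g • x = y := by
    intro x y hxy
    obtain ⟨σ, hσ1, hσ2⟩ := htr (j.comp x) (j.comp y) (by
      have h1 : (j.comp x).comp (algebraMap E₀ E) = j.comp (π x) := rfl
      have h2 : (j.comp y).comp (algebraMap E₀ E) = j.comp (π y) := rfl
      rw [h1, h2, hxy])
    obtain ⟨g, hg⟩ := exists_gal j σ
    refine ⟨g, fun z => ?_, ?_⟩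
    · refine RingHom.ext fun t => j.injective ?_
      have h1 := RingHom.congr_fun (hσ1 (j.comp z)) t
      rw [emb_smul_apply, ← hg]
      exact h1
    · refine RingHom.ext fun t => j.injective ?_
      have h1 := RingHom.congr_fun hσ2 t
      rw [emb_smul_apply, ← hg]
      exact h1
  -- one half of the sums over the fibres
  have hW : ∀ z : Y₀, ((∑ y with π y = z, w y : ℤ) : ZMod 2) =
      (((∑ φ with φ.comp (algebraMap E₀ E) = j.comp z, e φ) / 2 : ℤ) : ZMod 2) := by
    intro z
    have h1 : ∑ φ with φ.comp (algebraMap E₀ E) = j.comp z, e φ =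
        ∑ y : Y with π y = z, e (j.comp y) := by
      symm
      refine sum_bij (fun (y : Y) _ => j.comp y) ?_ ?_ ?_ ?_
      · intro y hy
        rw [mem_filter] at hy ⊢
        refine ⟨mem_univ _, ?_⟩
        rw [← hy.2]
        rfl
      · intro a _ b _ hab
        exact RingHom.ext fun x => j.injective (RingHom.congr_fun hab x)
      · intro φ hφ
        obtain ⟨y, rfl⟩ := h φ
        refine ⟨y, ?_, rfl⟩
        rw [mem_filter] at hφ ⊢
        refine ⟨mem_univ _, RingHom.ext fun x => j.injective ?_⟩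
        exact RingHom.congr_fun hφ.2 x
      · intro y _
        rfl
    have h2 : ∑ y : Y with π y = z, e (j.comp y) = 2 * (2 ^ (l - 1) * u z -
        ∑ y with π y = z, w y) := by
      have h3 : ∀ y ∈ univ.filter (fun y : Y => π y = z), e (j.comp y) = u z - 2 * w y := by
        intro y hy
        have h4 := hw y
        rw [(mem_filter.1 hy).2] at h4
        linarith
      rw [sum_congr rfl h3, sum_sub_distrib, sum_const, hfib, nsmul_eq_mul, ← mul_sum]
      have h4 : (2 : ℤ) ^ l = 2 * 2 ^ (l - 1) := by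
        rw [← pow_succ']
        congr 1
        omega
      push_cast
      rw [h4]
      ring
    rw [h1, h2, Int.mul_ediv_cancel_left _ two_ne_zero]
    have h3 : ((2 : ℤ) : ZMod 2) = 0 := by decide
    have h4 : l - 1 = (l - 2) + 1 := by omega
    rw [h4, pow_succ]
    push_cast
    have h5 : (2 : ZMod 2) = 0 := by decide
    rw [h5]
    ring_nf
    rw [← sum_neg_distrib]
    exact sum_congr rfl fun y _ => (neg_two _).symm
  have key := core_level (G := L ≃ₐ[ℚ] L) (Y := Y) (Y₀ := Y₀) cbar cbar (fun y => cbar_cbar y)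
    (fun z => cbar_cbar z) (fun g y => rfl) (fun g z => rfl) π hπ hπi K (fun g hg z => hg z) hKt
    2 l hfib 2 (by
      obtain ⟨l', rfl⟩ := Nat.exists_eq_add_of_le h2l
      rw [pow_add]
      exact Dvd.intro (2 ^ l') (by ring)) O₀ hO₀ u hui w hwi (by
      intro b hb hb2
      have h1 := hgen (fun τ => b ((embEquiv j h₀).symm τ)) (by
        intro τ
        obtain ⟨z, rfl⟩ := h₀ τ
        rw [← comp_cbar]
        have h2 : (embEquiv j h₀).symm (j.comp z) = z := (embEquiv j h₀).symm_apply_apply z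
        have h3 : (embEquiv j h₀).symm (j.comp (cbar z)) = cbar z :=
          (embEquiv j h₀).symm_apply_apply (cbar z)
        rw [h2, h3, hb, neg_two]) (by
        intro σ
        obtain ⟨g, hg⟩ := exists_gal j σ
        rw [← hb2 g]
        symm
        refine sum_bij (fun (z : Y₀) _ => j.comp z) ?_ ?_ ?_ ?_
        · intro z hz
          rw [mem_filter]
          exact ⟨mem_univ _, (mem_filter.1 hz).2⟩
        · intro a _ b _ hab
          exact RingHom.ext fun x => j.injective (RingHom.congr_fun hab x)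
        · intro τ hτ
          obtain ⟨z, rfl⟩ := h₀ τ
          exact ⟨z, mem_filter.2 ⟨mem_univ _, (mem_filter.1 hτ).2⟩, rfl⟩
        · intro z _
          have h2 : (embEquiv j h₀).symm (j.comp z) = z := (embEquiv j h₀).symm_apply_apply z
          have h3 : (σ : ℂ →+* ℂ).comp (j.comp z) = j.comp (g • z) := by
            ext x
            exact hg (z x)
          rw [hW, h2, h3])
      funext z
      have h2 := congrFun h1 (j.comp z)
      have h3 : (embEquiv j h₀).symm (j.comp z) = z := (embEquiv j h₀).symm_apply_apply z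
      simp only [h3] at h2
      exact h2)
    (fun y => c (j.comp y)) hcj (by
      intro g
      obtain ⟨σ, hσ⟩ := exists_aut j (g : L ≃+* L)
      rw [← hrel σ]
      refine Fintype.sum_equiv (embEquiv j h) _ _ fun y => ?_
      have h1 : (embEquiv j h) y = j.comp y := rfl
      rw [h1]
      congr 1
      have h2 : (σ : ℂ →+* ℂ).comp (j.comp y) = j.comp (g • y) := by
        ext x
        exact hσ (y x)
      rw [h2]
      have h3 := hw (g • y)
      push_cast
      linarith)
  funext φ
  obtain ⟨y, rfl⟩ := h φ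
  exact key y

/-- The condition on automorphisms holds for subfields that are normal over the rational numbers. -/
theorem transitiveOver_of_galois [IsGalois ℚ E₀] : TransitiveOver E₀ E := by
  intro φ ψ hφψ
  obtain ⟨L, _, _, j, hj⟩ := exists_galois (fun _ : Unit => E)
  obtain ⟨x, rfl⟩ := hj () φ
  obtain ⟨y, rfl⟩ := hj () ψ
  obtain ⟨g, rfl⟩ := exists_smul_eq (L ≃ₐ[ℚ] L) x y
  obtain ⟨σ, hσ⟩ := exists_aut j (g : L ≃+* L)
  have h1 : ∀ t : E₀, σ (j (x (algebraMap E₀ E t))) = j (x (algebraMap E₀ E t)) := by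
    intro t
    rw [hσ]
    exact (RingHom.congr_fun hφψ t).symm
  refine ⟨σ, fun τ => ?_, ?_⟩
  · -- every embedding of `E₀` is the composition of the given one with an automorphism of `E₀`
    let τ₁ : E₀ →+* ℂ := (j.comp x).comp (algebraMap E₀ E)
    have hτ₁ : ∀ t, σ (τ₁ t) = τ₁ t := h1
    let f : (E₀ ≃ₐ[ℚ] E₀) → (E₀ →+* ℂ) := fun g => τ₁.comp (g : E₀ →+* E₀)
    have hf : Function.Injective f := by
      intro a b hab
      ext t
      exact τ₁.injective (RingHom.congr_fun hab t)
    have hcard : Fintype.card (E₀ ≃ₐ[ℚ] E₀) = Fintype.card (E₀ →+* ℂ) := by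
      rw [NumberField.Embeddings.card, ← IsGalois.card_aut_eq_finrank, Nat.card_eq_fintype_card]
    have hb : Function.Bijective f := (Fintype.bijective_iff_injective_and_card f).2 ⟨hf, hcard⟩
    obtain ⟨g, rfl⟩ := hb.2 τ
    ext t
    exact hτ₁ (g t)
  · ext t
    exact hσ (x t)

end

end Pool.Agent.Q29.DP
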