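import Mathlib
import Pool.Agent.Q29.DP.Field2
import Pool.Agent.H977R3.CM.TowerDefs

/-!
# The parity criterion for CM types
-/

set_option autoImplicit false
set_option linter.unusedSectionVars false

namespace Pool.Agent.Q29.DP

open NumberField Module Finset Pool.Agent.H204R3.CM Pool.Agent.H977R3.CM Pool.Agent.TH170.CM

/-- The number of the elements of the CM type `Φ` of `E` whose restrictions to the subfield `E₀` are
not in the CM type `Φ₀` of `E₀` is odd. -/
def OddOver {E₀ E : Type*} [Field E₀] [Field E] [Algebra E₀ E] (Φ₀ : Set (E₀ →+* ℂ))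
    (Φ : Set (E →+* ℂ)) : Prop :=
  Odd {φ : E →+* ℂ | φ ∈ Φ ∧ φ.comp (algebraMap E₀ E) ∉ Φ₀}.ncard

section

variable {E₀ E : Type*} [Field E₀] [NumberField E₀] [IsCMField E₀] [Field E] [NumberField E]
  [IsCMField E] [Algebra E₀ E]

omit [NumberField E] [IsCMField E] in
theorem sgn_odd (Φ : Set (E →+* ℂ)) (φ : E →+* ℂ) : ¬ (2 : ℤ) ∣ sgn Φ φ := by
  unfold sgn
  split_ifs <;> omega

omit [NumberField E] [IsCMField E] in
theorem sgn_conj {Φ : Set (E →+* ℂ)} (hΦ : IsCMType Φ) (φ : E →+* ℂ) :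
    sgn Φ (ComplexEmbedding.conjugate φ) = -sgn Φ φ := by
  classical
  unfold sgn
  by_cases h : φ ∈ Φ
  · rw [if_pos h, if_neg ((hΦ φ).1 h)]
  · have h1 : ComplexEmbedding.conjugate φ ∈ Φ := by
      by_contra h2
      exact h ((hΦ φ).2 h2)
    rw [if_neg h, if_pos h1, neg_neg]

theorem conj_conj' (φ : E →+* ℂ) :
    ComplexEmbedding.conjugate (ComplexEmbedding.conjugate φ) = φ := star_star φ

theorem conj_comp (φ : E →+* ℂ) : (ComplexEmbedding.conjugate φ).comp (algebraMap E₀ E) =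
    ComplexEmbedding.conjugate (φ.comp (algebraMap E₀ E)) := rfl

open Classical in
/-- The number of the embeddings over a CM type of a CM subfield. -/
theorem card_over' {Φ₀ : Set (E₀ →+* ℂ)} (hΦ₀ : IsCMType Φ₀) :
    2 * (univ.filter (fun φ : E →+* ℂ => φ.comp (algebraMap E₀ E) ∈ Φ₀)).card = finrank ℚ E := by
  have h1 := sum_half (fun φ : E →+* ℂ => ComplexEmbedding.conjugate φ) (fun φ => star_star φ)
    (univ.filter (fun φ : E →+* ℂ => φ.comp (algebraMap E₀ E) ∈ Φ₀)) (by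
      intro φ
      simp only [mem_filter, mem_univ, true_and]
      exact hΦ₀ _) (fun _ => 1) (fun _ => rfl)
  simp only [sum_const, nsmul_eq_mul, mul_one, card_univ] at h1
  rw [Embeddings.card] at h1
  exact_mod_cast h1.symm

open Classical in
/-- The sum of the sign function over the embeddings over a CM type of a CM subfield. -/
theorem sum_sgn {Φ₀ : Set (E₀ →+* ℂ)} (hΦ₀ : IsCMType Φ₀) {Φ : Set (E →+* ℂ)} (hΦ : IsCMType Φ) :
    ∑ φ with φ.comp (algebraMap E₀ E) ∈ Φ₀, sgn Φ φ =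
      ((univ.filter (fun φ : E →+* ℂ => φ.comp (algebraMap E₀ E) ∈ Φ₀)).card : ℤ) -
        2 * ({φ : E →+* ℂ | φ ∈ Φ ∧ φ.comp (algebraMap E₀ E) ∉ Φ₀}.ncard : ℤ) := by
  have h1 : {φ : E →+* ℂ | φ ∈ Φ ∧ φ.comp (algebraMap E₀ E) ∉ Φ₀}.ncard =
      ((univ.filter (fun φ : E →+* ℂ => φ.comp (algebraMap E₀ E) ∈ Φ₀)).filter
        (fun φ => φ ∉ Φ)).card := by
    rw [Set.ncard_eq_toFinset_card']
    refine card_bij (fun φ _ => ComplexEmbedding.conjugate φ) ?_ ?_ ?_
    · intro φ hφ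
      rw [Set.mem_toFinset] at hφ
      simp only [mem_filter, mem_univ, true_and]
      refine ⟨?_, (hΦ φ).1 hφ.1⟩
      rw [conj_comp]
      by_contra h2
      exact hφ.2 ((hΦ₀ _).2 h2)
    · intro a _ b _ h
      have h2 := congrArg ComplexEmbedding.conjugate h
      rwa [conj_conj', conj_conj'] at h2
    · intro φ hφ
      simp only [mem_filter, mem_univ, true_and] at hφ
      refine ⟨ComplexEmbedding.conjugate φ, ?_, conj_conj' φ⟩
      rw [Set.mem_toFinset]
      constructor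
      · by_contra h2
        exact hφ.2 ((hΦ φ).2 h2)
      · rw [conj_comp]
        exact (hΦ₀ _).1 hφ.1
  have h2 : ∀ φ : E →+* ℂ, sgn Φ φ = 1 - 2 * (if φ ∉ Φ then 1 else 0) := by
    intro φ
    by_cases h : φ ∈ Φ
    · simp [sgn, h]
    · simp [sgn, h]
  rw [h1, sum_congr rfl (fun φ _ => h2 φ), sum_sub_distrib, ← mul_sum, sum_boole, sum_const]
  simp

/-- **The parity criterion.** Let `E` be a CM field whose degree is a power of two, `E₀` a CM
subfield of index at least four, and `Φ₀` a CM type of `E₀`. A CM type of `E` with an odd number of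
elements that are not over elements of `Φ₀` is nondegenerate. -/
theorem not_degenerate_of_odd (k l : ℕ) (hk : finrank ℚ E = 2 ^ k) (hl : finrank E₀ E = 2 ^ l)
    (h2l : 2 ≤ l) {Φ₀ : Set (E₀ →+* ℂ)} (hΦ₀ : IsCMType Φ₀) {Φ : Set (E →+* ℂ)}
    (hΦ : IsCMType Φ) (h : OddOver Φ₀ Φ) : ¬ Degenerate Φ := by
  classical
  rintro ⟨b, hb0, hbc, hrel⟩
  refine hb0 (no_relation k l hk hl h2l Φ₀ hΦ₀ (sgn Φ) (sgn_odd Φ) (sgn_conj hΦ) ?_ b hbc ?_)
  · rw [sum_sgn hΦ₀ hΦ]
    obtain ⟨m, hm⟩ := h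
    rw [hm]
    have h1 := card_over' (E := E) hΦ₀
    have h3 : 3 ≤ k := by
      have h4 : 2 ^ l * 2 ∣ 2 ^ k := by
        rw [← hk, ← finrank_mul_finrank ℚ E₀ E, hl, mul_comm]
        refine mul_dvd_mul ?_ dvd_rfl
        have h5 := finrank_mul_finrank ℚ (maximalRealSubfield E₀) E₀
        have h6 : finrank (maximalRealSubfield E₀) E₀ = 2 :=
          (IsCMField.isQuadraticExtension (K := E₀)).finrank_eq_two
        rw [← h5, h6]
        exact Dvd.intro_left _ rfl
      rw [← pow_succ] at h4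
      have h5 := (Nat.pow_dvd_pow_iff_le_right (by norm_num : 1 < 2)).1 h4
      omega
    obtain ⟨k', rfl⟩ := Nat.exists_eq_add_of_le h3
    rw [hk] at h1
    have h4 : (2 : ℕ) ^ (3 + k') = 2 * (4 * 2 ^ k') := by
      rw [pow_add]
      ring
    rw [h4] at h1
    have h5 : (univ.filter (fun φ : E →+* ℂ => φ.comp (algebraMap E₀ E) ∈ Φ₀)).card =
        4 * 2 ^ k' := by omega
    rw [h5]
    push_cast
    omega
  · intro σ
    exact hrel σ

end

end Pool.Agent.Q29.DP
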