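import Mathlib
import Pool.Agent.Q29.DP.Types

/-!
# Exactly one half of all CM types, and towers
-/

set_option autoImplicit false
set_option linter.unusedSectionVars false

namespace Pool.Agent.Q29.DP

open NumberField Module Finset Pool.Agent.H204R3.CM Pool.Agent.H977R3.CM Pool.Agent.TH170.CM

section

variable {E₀ E : Type*} [Field E₀] [NumberField E₀] [IsCMField E₀] [Field E] [NumberField E]
  [IsCMField E] [Algebra E₀ E]

theorem conj_ne (φ : E →+* ℂ) : ComplexEmbedding.conjugate φ ≠ φ := by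
  intro h
  have h1 := IsCMField.isTotallyComplex (K := E)
  have h2 := InfinitePlace.isReal_mk_iff.2 h
  exact (InfinitePlace.not_isReal_iff_isComplex.2
    (IsTotallyComplex.isComplex (InfinitePlace.mk φ))) h2

open Classical in
/-- The set `Φ` with the embedding `ψ` and its complex conjugate exchanged. -/
def flip (ψ : E →+* ℂ) (Φ : Set (E →+* ℂ)) : Set (E →+* ℂ) :=
  {φ | if φ = ψ ∨ φ = ComplexEmbedding.conjugate ψ then φ ∉ Φ else φ ∈ Φ}

open Classical in
theorem mem_flip (ψ : E →+* ℂ) (Φ : Set (E →+* ℂ)) (φ : E →+* ℂ) :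
    φ ∈ flip ψ Φ ↔ if φ = ψ ∨ φ = ComplexEmbedding.conjugate ψ then φ ∉ Φ else φ ∈ Φ := by
  unfold flip
  rfl

theorem flip_flip (ψ : E →+* ℂ) (Φ : Set (E →+* ℂ)) : flip ψ (flip ψ Φ) = Φ := by
  classical
  ext φ
  rw [mem_flip]
  split_ifs with h
  · rw [mem_flip, if_pos h, not_not]
  · rw [mem_flip, if_neg h]

theorem isCMType_flip (ψ : E →+* ℂ) {Φ : Set (E →+* ℂ)} (hΦ : IsCMType Φ) :
    IsCMType (flip ψ Φ) := by
  classical
  intro φ
  rw [mem_flip, mem_flip]
  have h1 : (ComplexEmbedding.conjugate φ = ψ ∨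
      ComplexEmbedding.conjugate φ = ComplexEmbedding.conjugate ψ) ↔
      (φ = ψ ∨ φ = ComplexEmbedding.conjugate ψ) := by
    constructor
    · rintro (h | h)
      · right
        rw [← h, conj_conj']
      · left
        have h2 := congrArg ComplexEmbedding.conjugate h
        rwa [conj_conj', conj_conj'] at h2
    · rintro (h | h)
      · right
        rw [h]
      · left
        rw [h, conj_conj']
  by_cases h : φ = ψ ∨ φ = ComplexEmbedding.conjugate ψ
  · rw [if_pos h, if_pos (h1.2 h), not_not, hΦ φ, not_not]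
  · rw [if_neg h, if_neg (fun h2 => h (h1.1 h2))]
    exact hΦ φ

theorem oddOver_flip {Φ₀ : Set (E₀ →+* ℂ)} {ψ : E →+* ℂ}
    (h0 : ψ.comp (algebraMap E₀ E) ∈ Φ₀) (hΦ₀ : IsCMType Φ₀) {Φ : Set (E →+* ℂ)}
    (h : OddOver Φ₀ Φ) : ¬ OddOver Φ₀ (flip ψ Φ) := by
  classical
  have hc : (ComplexEmbedding.conjugate ψ).comp (algebraMap E₀ E) ∉ Φ₀ := by
    rw [conj_comp]
    exact (hΦ₀ _).1 h0
  let A : Set (E →+* ℂ) := {φ : E →+* ℂ | φ ∈ Φ ∧ φ.comp (algebraMap E₀ E) ∉ Φ₀}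
  let B : Set (E →+* ℂ) := {φ : E →+* ℂ | φ ∈ flip ψ Φ ∧ φ.comp (algebraMap E₀ E) ∉ Φ₀}
  let C : Set (E →+* ℂ) := {φ : E →+* ℂ | φ ∈ Φ ∧ φ.comp (algebraMap E₀ E) ∉ Φ₀ ∧
    φ ≠ ComplexEmbedding.conjugate ψ}
  have hfin : ∀ S : Set (E →+* ℂ), S.Finite := fun S => Set.toFinite S
  have hcC : ComplexEmbedding.conjugate ψ ∉ C := fun h => h.2.2 rfl
  have hψ : ∀ φ : E →+* ℂ, φ.comp (algebraMap E₀ E) ∉ Φ₀ → φ ≠ ψ := by
    rintro φ h1 rfl
    exact h1 h0
  unfold OddOver at h ⊢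
  change Odd A.ncard at h
  change ¬ Odd B.ncard
  by_cases hmem : ComplexEmbedding.conjugate ψ ∈ Φ
  · have hA : A = insert (ComplexEmbedding.conjugate ψ) C := by
      ext φ
      simp only [A, C, Set.mem_ofPred_eq, Set.mem_insert_iff]
      constructor
      · intro h1
        by_cases h2 : φ = ComplexEmbedding.conjugate ψ
        · exact Or.inl h2
        · exact Or.inr ⟨h1.1, h1.2, h2⟩
      · rintro (rfl | h1)
        · exact ⟨hmem, hc⟩
        · exact ⟨h1.1, h1.2.1⟩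
    have hB : B = C := by
      ext φ
      simp only [B, C, Set.mem_ofPred_eq]
      rw [mem_flip]
      constructor
      · rintro ⟨h1, h2⟩
        split_ifs at h1 with h3
        · rcases h3 with h3 | h3
          · exact absurd h3 (hψ φ h2)
          · exact absurd (h3 ▸ hmem) h1
        · exact ⟨h1, h2, fun h4 => h3 (Or.inr h4)⟩
      · rintro ⟨h1, h2, h3⟩
        rw [if_neg (by
          rintro (h4 | h4)
          · exact hψ φ h2 h4
          · exact h3 h4)]
        exact ⟨h1, h2⟩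
    rw [hA, Set.ncard_insert_of_notMem hcC (hfin C)] at h
    rw [hB]
    rw [Nat.odd_add_one] at h
    exact h
  · have hA : A = C := by
      ext φ
      simp only [A, C, Set.mem_ofPred_eq]
      constructor
      · rintro ⟨h1, h2⟩
        refine ⟨h1, h2, ?_⟩
        rintro rfl
        exact hmem h1
      · rintro ⟨h1, h2, _⟩
        exact ⟨h1, h2⟩
    have hB : B = insert (ComplexEmbedding.conjugate ψ) C := by
      ext φ
      simp only [B, C, Set.mem_ofPred_eq, Set.mem_insert_iff]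
      rw [mem_flip]
      constructor
      · rintro ⟨h1, h2⟩
        split_ifs at h1 with h3
        · rcases h3 with h3 | h3
          · exact absurd h3 (hψ φ h2)
          · exact Or.inl h3
        · exact Or.inr ⟨h1, h2, fun h4 => h3 (Or.inr h4)⟩
      · rintro (rfl | ⟨h1, h2, h3⟩)
        · rw [if_pos (Or.inr rfl)]
          exact ⟨hmem, hc⟩
        · rw [if_neg (by
            rintro (h4 | h4)
            · exact hψ φ h2 h4
            · exact h3 h4)]
          exact ⟨h1, h2⟩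
    rw [hA] at h
    rw [hB, Set.ncard_insert_of_notMem hcC (hfin C), Nat.odd_add_one]
    exact not_not.2 h

theorem oddOver_flip' {Φ₀ : Set (E₀ →+* ℂ)} {ψ : E →+* ℂ}
    (h0 : ψ.comp (algebraMap E₀ E) ∈ Φ₀) (hΦ₀ : IsCMType Φ₀) {Φ : Set (E →+* ℂ)}
    (h : ¬ OddOver Φ₀ Φ) : OddOver Φ₀ (flip ψ Φ) := by
  classical
  have hc : (ComplexEmbedding.conjugate ψ).comp (algebraMap E₀ E) ∉ Φ₀ := by
    rw [conj_comp]
    exact (hΦ₀ _).1 h0
  let A : Set (E →+* ℂ) := {φ : E →+* ℂ | φ ∈ Φ ∧ φ.comp (algebraMap E₀ E) ∉ Φ₀}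
  let B : Set (E →+* ℂ) := {φ : E →+* ℂ | φ ∈ flip ψ Φ ∧ φ.comp (algebraMap E₀ E) ∉ Φ₀}
  let C : Set (E →+* ℂ) := {φ : E →+* ℂ | φ ∈ Φ ∧ φ.comp (algebraMap E₀ E) ∉ Φ₀ ∧
    φ ≠ ComplexEmbedding.conjugate ψ}
  have hfin : ∀ S : Set (E →+* ℂ), S.Finite := fun S => Set.toFinite S
  have hcC : ComplexEmbedding.conjugate ψ ∉ C := fun h => h.2.2 rfl
  have hψ : ∀ φ : E →+* ℂ, φ.comp (algebraMap E₀ E) ∉ Φ₀ → φ ≠ ψ := by
    rintro φ h1 rfl
    exact h1 h0
  unfold OddOver at h ⊢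
  change ¬ Odd A.ncard at h
  change Odd B.ncard
  by_cases hmem : ComplexEmbedding.conjugate ψ ∈ Φ
  · have hA : A = insert (ComplexEmbedding.conjugate ψ) C := by
      ext φ
      simp only [A, C, Set.mem_ofPred_eq, Set.mem_insert_iff]
      constructor
      · intro h1
        by_cases h2 : φ = ComplexEmbedding.conjugate ψ
        · exact Or.inl h2
        · exact Or.inr ⟨h1.1, h1.2, h2⟩
      · rintro (rfl | h1)
        · exact ⟨hmem, hc⟩
        · exact ⟨h1.1, h1.2.1⟩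
    have hB : B = C := by
      ext φ
      simp only [B, C, Set.mem_ofPred_eq]
      rw [mem_flip]
      constructor
      · rintro ⟨h1, h2⟩
        split_ifs at h1 with h3
        · rcases h3 with h3 | h3
          · exact absurd h3 (hψ φ h2)
          · exact absurd (h3 ▸ hmem) h1
        · exact ⟨h1, h2, fun h4 => h3 (Or.inr h4)⟩
      · rintro ⟨h1, h2, h3⟩
        rw [if_neg (by
          rintro (h4 | h4)
          · exact hψ φ h2 h4
          · exact h3 h4)]
        exact ⟨h1, h2⟩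
    rw [hA, Set.ncard_insert_of_notMem hcC (hfin C), Nat.odd_add_one, not_not] at h
    rw [hB]
    exact h
  · have hA : A = C := by
      ext φ
      simp only [A, C, Set.mem_ofPred_eq]
      constructor
      · rintro ⟨h1, h2⟩
        refine ⟨h1, h2, ?_⟩
        rintro rfl
        exact hmem h1
      · rintro ⟨h1, h2, _⟩
        exact ⟨h1, h2⟩
    have hB : B = insert (ComplexEmbedding.conjugate ψ) C := by
      ext φ
      simp only [B, C, Set.mem_ofPred_eq, Set.mem_insert_iff]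
      rw [mem_flip]
      constructor
      · rintro ⟨h1, h2⟩
        split_ifs at h1 with h3
        · rcases h3 with h3 | h3
          · exact absurd h3 (hψ φ h2)
          · exact Or.inl h3
        · exact Or.inr ⟨h1, h2, fun h4 => h3 (Or.inr h4)⟩
      · rintro (rfl | ⟨h1, h2, h3⟩)
        · rw [if_pos (Or.inr rfl)]
          exact ⟨hmem, hc⟩
        · rw [if_neg (by
            rintro (h4 | h4)
            · exact hψ φ h2 h4
            · exact h3 h4)]
          exact ⟨h1, h2⟩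
    rw [hA] at h
    rw [hB, Set.ncard_insert_of_notMem hcC (hfin C), Nat.odd_add_one]
    exact h

variable (E)

/-- **Exactly one half.** One half of all CM types of `E` are odd over the CM type `Φ₀` of `E₀`. -/
theorem half_odd {Φ₀ : Set (E₀ →+* ℂ)} (hΦ₀ : IsCMType Φ₀) :
    2 * {Φ : Set (E →+* ℂ) | IsCMType Φ ∧ OddOver Φ₀ Φ}.ncard =
      {Φ : Set (E →+* ℂ) | IsCMType Φ}.ncard := by
  classical
  obtain ⟨τ⟩ : Nonempty (E₀ →+* ℂ) := inferInstance
  obtain ⟨τ, hτ⟩ : ∃ τ : E₀ →+* ℂ, τ ∈ Φ₀ := by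
    by_cases h : τ ∈ Φ₀
    · exact ⟨τ, h⟩
    · refine ⟨ComplexEmbedding.conjugate τ, ?_⟩
      by_contra h2
      exact h ((hΦ₀ τ).2 h2)
  obtain ⟨ψ, rfl⟩ := exists_extension (E := E) τ
  have h1 : {Φ : Set (E →+* ℂ) | IsCMType Φ} = {Φ | IsCMType Φ ∧ OddOver Φ₀ Φ} ∪
      {Φ | IsCMType Φ ∧ ¬ OddOver Φ₀ Φ} := by
    ext Φ
    simp only [Set.mem_ofPred_eq, Set.mem_union]
    by_cases h3 : OddOver Φ₀ Φ <;> simp [h3]
  have h2 : Disjoint {Φ : Set (E →+* ℂ) | IsCMType Φ ∧ OddOver Φ₀ Φ}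
      {Φ | IsCMType Φ ∧ ¬ OddOver Φ₀ Φ} := by
    rw [Set.disjoint_left]
    rintro Φ ⟨_, h3⟩ ⟨_, h4⟩
    exact h4 h3
  have h3 : {Φ : Set (E →+* ℂ) | IsCMType Φ ∧ OddOver Φ₀ Φ}.ncard =
      {Φ : Set (E →+* ℂ) | IsCMType Φ ∧ ¬ OddOver Φ₀ Φ}.ncard := by
    refine Set.ncard_congr (fun Φ _ => flip ψ Φ) ?_ ?_ ?_
    · rintro Φ ⟨h4, h5⟩
      exact ⟨isCMType_flip ψ h4, oddOver_flip hτ hΦ₀ h5⟩
    · intro Φ Φ' _ _ h4
      have h5 := congrArg (flip ψ) h4
      rwa [flip_flip, flip_flip] at h5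
    · rintro Φ ⟨h4, h5⟩
      exact ⟨flip ψ Φ, ⟨isCMType_flip ψ h4, oddOver_flip' hτ hΦ₀ h5⟩, flip_flip ψ Φ⟩
  rw [h1, Set.ncard_union_eq h2 (Set.toFinite _) (Set.toFinite _), ← h3]
  omega

end

end Pool.Agent.Q29.DP
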