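import Mathlib
import Pool.Agent.Q29.DP.Half

/-!
# The parity criterion in towers of CM fields
-/

set_option autoImplicit false
set_option linter.unusedSectionVars false

namespace Pool.Agent.Q29.DP

open NumberField Module Finset Pool.Agent.H204R3.CM Pool.Agent.H977R3.CM Pool.Agent.TH170.CM

section

variable {E₀ E : Type*} [Field E₀] [NumberField E₀] [IsCMField E₀] [Field E] [NumberField E]
  [IsCMField E] [Algebra E₀ E]

theorem isCMType_range :
    IsCMType (Set.range (InfinitePlace.embedding (K := E₀))) := by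
  intro φ
  constructor
  · rintro ⟨v, hv⟩ ⟨w, hw⟩
    have h1 : InfinitePlace.mk w.embedding = InfinitePlace.mk v.embedding := by
      rw [hv, hw, InfinitePlace.mk_conjugate_eq]
    rw [InfinitePlace.mk_embedding, InfinitePlace.mk_embedding] at h1
    subst h1
    rw [hv] at hw
    exact conj_ne φ hw.symm
  · intro h
    rcases InfinitePlace.mk_eq_iff.1 (InfinitePlace.mk_embedding (InfinitePlace.mk φ)) with h1 | h1
    · exact ⟨_, h1⟩
    · refine absurd ⟨InfinitePlace.mk φ, ?_⟩ h
      have h2 := congrArg ComplexEmbedding.conjugate h1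
      rwa [conj_conj'] at h2

open Classical in
theorem sum_fibre (Φ : Set (E →+* ℂ)) (l : ℕ) (hl : finrank E₀ E = 2 ^ l) (τ : E₀ →+* ℂ) :
    ∑ φ with φ.comp (algebraMap E₀ E) = τ, sgn Φ φ = 2 * (mult Φ τ : ℤ) - 2 ^ l := by
  have h1 : mult Φ τ =
      ((univ.filter (fun φ : E →+* ℂ => φ.comp (algebraMap E₀ E) = τ)).filter
        (fun φ => φ ∈ Φ)).card := by
    unfold mult
    rw [Set.ncard_eq_toFinset_card']
    congr 1
    ext φ
    simp [and_comm]
  have h2 : ∀ φ : E →+* ℂ, sgn Φ φ = 2 * (if φ ∈ Φ then 1 else 0) - 1 := by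
    intro φ
    by_cases h : φ ∈ Φ
    · simp [sgn, h]
    · simp [sgn, h]
  have h3 : (univ.filter (fun φ : E →+* ℂ => φ.comp (algebraMap E₀ E) = τ)).card = 2 ^ l := by
    obtain ⟨L, _, _, j, hj⟩ := exists_galois (fun _ : Unit => E)
    have h : ∀ ψ : E →+* ℂ, ∃ φ : E →+* L, j.comp φ = ψ := hj ()
    have h₀ : ∀ τ : E₀ →+* ℂ, ∃ y : E₀ →+* L, j.comp y = τ := by
      intro τ
      obtain ⟨ψ, rfl⟩ := exists_extension (E := E) τ
      obtain ⟨φ, rfl⟩ := h ψ
      exact ⟨φ.comp (algebraMap E₀ E), rfl⟩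
    obtain ⟨z, rfl⟩ := h₀ τ
    have hcards : Fintype.card (E →+* L) = Fintype.card (E₀ →+* L) * 2 ^ l := by
      rw [← hl]
      exact card_tower j h h₀
    have h4 := card_fibre (G := L ≃ₐ[ℚ] L) (fun φ : E →+* L => φ.comp (algebraMap E₀ E))
      (fun g y => rfl) (2 ^ l) hcards z
    rw [← h4]
    symm
    refine card_bij (fun (y : E →+* L) _ => j.comp y) ?_ ?_ ?_
    · intro y hy
      rw [mem_filter] at hy ⊢
      refine ⟨mem_univ _, ?_⟩
      rw [← hy.2]
      rfl
    · intro a _ b _ hab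
      exact RingHom.ext fun x => j.injective (RingHom.congr_fun hab x)
    · intro φ hφ
      obtain ⟨y, rfl⟩ := h φ
      refine ⟨y, ?_, rfl⟩
      rw [mem_filter] at hφ ⊢
      refine ⟨mem_univ _, RingHom.ext fun x => j.injective ?_⟩
      exact RingHom.congr_fun hφ.2 x
  rw [h1, sum_congr rfl (fun φ _ => h2 φ), sum_sub_distrib, ← mul_sum, sum_boole, sum_const, h3]
  simp

theorem mult_conj (Φ : Set (E →+* ℂ)) (hΦ : IsCMType Φ) (l : ℕ) (hl : finrank E₀ E = 2 ^ l)
    (τ : E₀ →+* ℂ) : mult Φ (ComplexEmbedding.conjugate τ) + mult Φ τ = 2 ^ l := by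
  classical
  have h1 := sum_fibre Φ l hl τ
  have h2 := sum_fibre Φ l hl (ComplexEmbedding.conjugate τ)
  have h3 : ∑ φ with φ.comp (algebraMap E₀ E) = ComplexEmbedding.conjugate τ, sgn Φ φ =
      -∑ φ with φ.comp (algebraMap E₀ E) = τ, sgn Φ φ := by
    rw [← sum_neg_distrib]
    refine sum_bij (fun φ _ => ComplexEmbedding.conjugate φ) ?_ ?_ ?_ ?_
    · intro φ hφ
      rw [mem_filter] at hφ ⊢
      refine ⟨mem_univ _, ?_⟩
      rw [conj_comp, hφ.2, conj_conj']
    · intro a _ b _ h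
      have h2 := congrArg ComplexEmbedding.conjugate h
      rwa [conj_conj', conj_conj'] at h2
    · intro φ hφ
      rw [mem_filter] at hφ
      refine ⟨ComplexEmbedding.conjugate φ, ?_, conj_conj' φ⟩
      rw [mem_filter]
      refine ⟨mem_univ _, ?_⟩
      rw [conj_comp, hφ.2]
    · intro φ _
      rw [sgn_conj hΦ, neg_neg]
  rw [h1, h2] at h3
  have h4 : ((mult Φ (ComplexEmbedding.conjugate τ) + mult Φ τ : ℕ) : ℤ) = ((2 ^ l : ℕ) : ℤ) := by
    push_cast
    linarith
  exact_mod_cast h4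

/-- **Towers.** Let `E` be a CM field, `E₀` a CM subfield of index `2 ^ l ≥ 4` such that the
automorphisms of the complex numbers which fix all embeddings of `E₀` permute the extensions of
each embedding of `E₀` to `E` transitively (for example, `E₀` is a Galois extension of the rational
numbers). If the multiplicities of a CM type over `E₀` are free of relations modulo two, then the
CM type is nondegenerate. -/
theorem not_degenerate_of_parityFree (l : ℕ) (hl : finrank E₀ E = 2 ^ l) (h2l : 2 ≤ l)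
    (htr : TransitiveOver E₀ E) {Φ : Set (E →+* ℂ)} (hΦ : IsCMType Φ) (h : ParityFree E₀ Φ) :
    ¬ Degenerate Φ := by
  classical
  rintro ⟨b, hb0, hbc, hrel⟩
  obtain ⟨Φ₀, hΦ₀⟩ : ∃ S : Set (E₀ →+* ℂ), S = Set.range (InfinitePlace.embedding (K := E₀)) :=
    ⟨_, rfl⟩
  refine hb0 (no_relation_tower l hl h2l htr Φ₀
    (hΦ₀ ▸ isCMType_range) (sgn Φ) (sgn_odd Φ) (sgn_conj hΦ) ?_ b hbc (fun σ => hrel σ))
  intro b hb hb2
  have h1 := h (fun v => b v.embedding) (by
    intro σ
    rw [← hb2 σ]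
    refine sum_bij (fun (v : InfinitePlace E₀) _ => v.embedding) ?_ ?_ ?_ ?_
    · intro v _
      rw [mem_filter]
      rw [hΦ₀]
      exact ⟨mem_univ _, v, rfl⟩
    · intro v _ w _ h2
      rw [← InfinitePlace.mk_embedding v, ← InfinitePlace.mk_embedding w, h2]
    · intro τ hτ
      rw [mem_filter, hΦ₀] at hτ
      obtain ⟨v, rfl⟩ := hτ.2
      exact ⟨v, mem_univ _, rfl⟩
    · intro v _
      rw [sum_fibre Φ l hl]
      congr 1
      have h4 : (2 : ℤ) ^ l = 2 * (2 * 2 ^ (l - 2)) := by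
        rw [← pow_succ', ← pow_succ']
        congr 1
        omega
      rw [h4, ← mul_sub, Int.mul_ediv_cancel_left _ two_ne_zero]
      push_cast
      have h5 : (2 : ZMod 2) = 0 := by decide
      rw [h5, zero_mul, sub_zero])
  funext τ
  by_cases h2 : τ ∈ Set.range (InfinitePlace.embedding (K := E₀))
  · obtain ⟨v, rfl⟩ := h2
    exact congrFun h1 v
  · have h3 : ComplexEmbedding.conjugate τ ∈ Set.range (InfinitePlace.embedding (K := E₀)) := by
      by_contra h4
      exact h2 ((isCMType_range τ).2 h4)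
    obtain ⟨v, hv⟩ := h3
    rw [← hb τ, ← hv]
    exact congrFun h1 v

end

end Pool.Agent.Q29.DP
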