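import Mathlib
import Pool.Agent.Q29.DP.TypesTower
import Pool.Agent.Q29.DP.Field3

/-!
# The parity criterion with weights
-/

set_option autoImplicit false
set_option linter.unusedSectionVars false

namespace Pool.Agent.Q29.DP

open NumberField Module Finset Pool.Agent.H204R3.CM Pool.Agent.H977R3.CM Pool.Agent.TH170.CM

section

variable {F E : Type*} [Field F] [NumberField F] [IsCMField F] [Field E] [NumberField E]
  [IsCMField E] [Algebra F E]

omit [NumberField F] [IsCMField F] [NumberField E] [IsCMField E] [Algebra F E] in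
theorem sgn_mul_odd (Φ : Set (E →+* ℂ)) {M : (E →+* ℂ) → ℤ} (hM : ∀ φ, Odd (M φ)) (φ : E →+* ℂ) :
    ¬ (2 : ℤ) ∣ sgn Φ φ * M φ := by
  have h1 := hM φ
  unfold sgn
  split_ifs
  · rw [one_mul, ← even_iff_two_dvd, Int.not_even_iff_odd]
    exact h1
  · rw [neg_mul, one_mul, dvd_neg, ← even_iff_two_dvd, Int.not_even_iff_odd]
    exact h1

omit [NumberField F] [IsCMField F] [Algebra F E] in
theorem sgn_mul_conj {Φ : Set (E →+* ℂ)} (hΦ : IsCMType Φ) {M : (E →+* ℂ) → ℤ}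
    (hM : ∀ φ, M (ComplexEmbedding.conjugate φ) = M φ) (φ : E →+* ℂ) :
    sgn Φ (ComplexEmbedding.conjugate φ) * M (ComplexEmbedding.conjugate φ) =
      -(sgn Φ φ * M φ) := by
  rw [sgn_conj hΦ, hM, neg_mul]

/-- The number of the extensions of an embedding of a subfield. -/
theorem card_ext (F : Type*) {E : Type*} [Field F] [NumberField F] [IsCMField F] [Field E]
    [NumberField E] [IsCMField E] [Algebra F E] (l : ℕ) (hl : finrank F E = 2 ^ l) (τ : F →+* ℂ) [DecidablePred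
      (fun φ : E →+* ℂ => φ.comp (algebraMap F E) = τ)] :
    (univ.filter (fun φ : E →+* ℂ => φ.comp (algebraMap F E) = τ)).card = 2 ^ l := by
  classical
  obtain ⟨L, _, _, j, hj⟩ := exists_galois (fun _ : Unit => E)
  have h : ∀ ψ : E →+* ℂ, ∃ φ : E →+* L, j.comp φ = ψ := hj ()
  have h₀ : ∀ τ : F →+* ℂ, ∃ y : F →+* L, j.comp y = τ := by
    intro τ
    obtain ⟨ψ, rfl⟩ := exists_extension (E := E) τ
    obtain ⟨φ, rfl⟩ := h ψ
    exact ⟨φ.comp (algebraMap F E), rfl⟩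
  obtain ⟨z, rfl⟩ := h₀ τ
  have hcards : Fintype.card (E →+* L) = Fintype.card (F →+* L) * 2 ^ l := by
    rw [← hl]
    exact card_tower j h h₀
  have h4 := card_fibre (G := L ≃ₐ[ℚ] L) (fun φ : E →+* L => φ.comp (algebraMap F E))
    (fun g y => rfl) (2 ^ l) hcards z
  rw [← h4]
  symm
  refine card_bij (fun (y : E →+* L) _ => j.comp y) ?_ ?_ ?_
  · intro y hy
    rw [mem_filter] at hy ⊢
    refine ⟨mem_univ _, ?_⟩
    rw [← hy.2]
    rfl
  · intro a _ b _ hab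
    exact RingHom.ext fun x => j.injective (RingHom.congr_fun hab x)
  · intro φ hφ
    obtain ⟨y, rfl⟩ := h φ
    refine ⟨y, ?_, rfl⟩
    rw [mem_filter] at hφ ⊢
    refine ⟨mem_univ _, RingHom.ext fun x => j.injective ?_⟩
    exact RingHom.congr_fun hφ.2 x

/-- The sums over the fibres are even. -/
theorem two_dvd_fibreSum (l : ℕ) (hl : finrank F E = 2 ^ l) (h1l : 1 ≤ l)
    {M : (E →+* ℂ) → ℤ} (hM : ∀ φ, Odd (M φ)) (Φ : Set (E →+* ℂ)) (τ : F →+* ℂ) :
    (2 : ℤ) ∣ fibreSum F M Φ τ := by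
  classical
  have h1 : ∀ φ : E →+* ℂ, ((sgn Φ φ * M φ : ℤ) : ZMod 2) = 1 := by
    intro φ
    have h2 := sgn_mul_odd Φ hM φ
    have h3 : Odd (sgn Φ φ * M φ) := by
      rw [← Int.not_even_iff_odd, even_iff_two_dvd]
      exact h2
    obtain ⟨m, hm⟩ := h3
    rw [hm]
    push_cast
    have h5 : (2 : ZMod 2) = 0 := by decide
    rw [h5]
    ring
  have key : ((fibreSum F M Φ τ : ℤ) : ZMod 2) = 0 → (2 : ℤ) ∣ fibreSum F M Φ τ := fun h =>
    (ZMod.intCast_zmod_eq_zero_iff_dvd _ 2).1 h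
  apply key
  unfold fibreSum
  push_cast
  have h2 : ∀ φ ∈ univ.filter (fun φ : E →+* ℂ => φ.comp (algebraMap F E) = τ),
      ((sgn Φ φ : ℤ) : ZMod 2) * ((M φ : ℤ) : ZMod 2) = 1 := by
    intro φ _
    rw [← h1 φ]
    push_cast
    rfl
  have h3 := card_ext F l hl τ
  rw [sum_congr rfl h2, sum_const, nsmul_eq_mul, mul_one]
  rw [show (univ.filter (fun φ : E →+* ℂ => φ.comp (algebraMap F E) = τ)).card = 2 ^ l by
    convert h3]
  obtain ⟨l', rfl⟩ := Nat.exists_eq_add_of_le h1l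
  rw [pow_add, pow_one]
  push_cast
  have h5 : (2 : ZMod 2) = 0 := by decide
  rw [h5, zero_mul]

open Classical in
/-- The sum over the infinite places as a sum over the embeddings over a CM type. -/
theorem sum_places (M : (E →+* ℂ) → ℤ) (Φ : Set (E →+* ℂ)) {S : Set (F →+* ℂ)}
    (hS : S = Set.range (InfinitePlace.embedding (K := F))) :
    ∑ v : InfinitePlace F, fibreSum F M Φ v.embedding =
      ∑ φ : E →+* ℂ with φ.comp (algebraMap F E) ∈ S, sgn Φ φ * M φ := by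
  unfold fibreSum
  rw [← sum_biUnion]
  · refine sum_congr ?_ fun _ _ => rfl
    ext φ
    simp only [mem_biUnion, mem_filter, mem_univ, true_and, hS, Set.mem_range]
    constructor
    · rintro ⟨v, hv⟩
      exact ⟨v, hv.symm⟩
    · rintro ⟨v, hv⟩
      exact ⟨v, hv.symm⟩
  · intro v _ w _ hvw
    rw [Function.onFun, disjoint_left]
    intro φ h1 h2
    rw [mem_filter] at h1 h2
    refine hvw ?_
    rw [← InfinitePlace.mk_embedding v, ← InfinitePlace.mk_embedding w, ← h1.2, ← h2.2]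

/-- The first test in terms of divisibility by four. -/
theorem oddSum_iff (l : ℕ) (hl : finrank F E = 2 ^ l) (h1l : 1 ≤ l)
    {M : (E →+* ℂ) → ℤ} (hM : ∀ φ, Odd (M φ)) (Φ : Set (E →+* ℂ)) :
    OddSum F M Φ ↔ ¬ (4 : ℤ) ∣ ∑ v : InfinitePlace F, fibreSum F M Φ v.embedding := by
  have h1 : ∀ v : InfinitePlace F, ∃ m : ℤ, fibreSum F M Φ v.embedding = 2 * m := fun v =>
    two_dvd_fibreSum l hl h1l hM Φ v.embedding
  choose m hm using h1
  have h2 : ∑ v : InfinitePlace F, fibreSum F M Φ v.embedding = 2 * ∑ v, m v := by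
    rw [mul_sum]
    exact sum_congr rfl fun v _ => hm v
  have h3 : ∑ v : InfinitePlace F, halfSum F M Φ v.embedding = ((∑ v, m v : ℤ) : ZMod 2) := by
    push_cast
    refine sum_congr rfl fun v _ => ?_
    unfold halfSum
    rw [hm, Int.mul_ediv_cancel_left _ two_ne_zero]
  unfold OddSum
  rw [h2, h3, Ne, ZMod.intCast_zmod_eq_zero_iff_dvd, not_iff_not,
    show (4 : ℤ) = 2 * 2 by norm_num]
  push_cast
  exact (mul_dvd_mul_iff_left two_ne_zero).symm

end

section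

variable {F E : Type*} [Field F] [NumberField F] [IsCMField F] [Field E] [NumberField E]
  [IsCMField E] [Algebra F E]

omit [IsCMField F] [IsCMField E] in
/-- The index of a good subfield. -/
theorem GoodSubfield.index (h : GoodSubfield F E) : ∃ k l, finrank ℚ E = 2 ^ k ∧
    finrank F E = 2 ^ l ∧ 1 ≤ l ∧ (2 ≤ l ∨ (l = 1 ∧ 3 ≤ k ∧
      (¬ IsSquare ((discr F : ℤ) : E) ∨ IsSquare ((discr F : ℤ) : F)))) := by
  obtain ⟨⟨k, hk⟩, h⟩ := h
  have h1 : finrank F E ∣ 2 ^ k := by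
    rw [← hk, ← finrank_mul_finrank ℚ F E]
    exact Dvd.intro_left _ rfl
  obtain ⟨l, -, hl⟩ := (Nat.dvd_prime_pow Nat.prime_two).1 h1
  rcases h with h | ⟨h, h8, hd⟩
  · have h2 : 2 ≤ l := by
      by_contra h3
      push Not at h3
      have h4 : 2 ^ l ≤ 2 ^ 1 := Nat.pow_le_pow_right (by norm_num) (by omega)
      omega
    exact ⟨k, l, hk, hl, by omega, Or.inl h2⟩
  · have h2 : l = 1 := by
      rw [h] at hl
      have h3 : 2 ^ 1 = 2 ^ l := hl
      exact (Nat.pow_right_injective le_rfl h3).symm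
    refine ⟨k, l, hk, hl, by omega, Or.inr ⟨h2, ?_, hd⟩⟩
    rw [hk] at h8
    by_contra h3
    push Not at h3
    have h4 : 2 ^ k ≤ 2 ^ 2 := Nat.pow_le_pow_right (by norm_num) (by omega)
    omega

/-- The 2-adic criterion for one subfield. -/
theorem relation_eq_zero_of {M : (E →+* ℂ) → ℤ} (hM : ∀ φ, Odd (M φ))
    (hMc : ∀ φ, M (ComplexEmbedding.conjugate φ) = M φ) {Φ : Set (E →+* ℂ)} (hΦ : IsCMType Φ)
    (h : (GoodSubfield F E ∧ OddSum F M Φ) ∨
      ((∃ l, 2 ≤ l ∧ finrank F E = 2 ^ l) ∧ TransitiveOver F E ∧ FreeSums F M Φ))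
    (c : (E →+* ℂ) → ℤ) (hc : ∀ φ, c (ComplexEmbedding.conjugate φ) = -c φ)
    (hrel : ∀ σ : ℂ ≃+* ℂ, ∑ φ, c φ * (sgn Φ ((σ : ℂ →+* ℂ).comp φ) *
      M ((σ : ℂ →+* ℂ).comp φ)) = 0) : c = 0 := by
  classical
  obtain ⟨S, hS⟩ : ∃ S : Set (F →+* ℂ), S = Set.range (InfinitePlace.embedding (K := F)) :=
    ⟨_, rfl⟩
  have hSc : IsCMType S := hS ▸ isCMType_range
  rcases h with ⟨hgood, h⟩ | ⟨⟨l, h2l, hl⟩, htr, h⟩
  · obtain ⟨k, l, hk, hl, h1l, h2⟩ := hgood.index
    rw [oddSum_iff l hl h1l hM, sum_places M Φ hS] at h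
    rcases h2 with h2 | ⟨h2, hk3, hd⟩
    · exact no_relation k l hk hl h2 S hSc (fun φ => sgn Φ φ * M φ)
        (sgn_mul_odd Φ hM) (sgn_mul_conj hΦ hMc) h c hc hrel
    · rw [h2, pow_one] at hl
      exact no_relation_two k hk hk3 hl hd S hSc (fun φ => sgn Φ φ * M φ)
        (sgn_mul_odd Φ hM) (sgn_mul_conj hΦ hMc) h c hc hrel
  · refine no_relation_tower l hl h2l htr S hSc (fun φ => sgn Φ φ * M φ)
      (sgn_mul_odd Φ hM) (sgn_mul_conj hΦ hMc) ?_ c hc hrel
    intro b hb hb2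
    have h1 := h (fun v => b v.embedding) (by
      intro σ
      rw [← hb2 σ]
      refine sum_bij (fun (v : InfinitePlace F) _ => v.embedding) ?_ ?_ ?_ ?_
      · intro v _
        rw [mem_filter, hS]
        exact ⟨mem_univ _, v, rfl⟩
      · intro v _ w _ h2
        rw [← InfinitePlace.mk_embedding v, ← InfinitePlace.mk_embedding w, h2]
      · intro τ hτ
        rw [mem_filter, hS] at hτ
        obtain ⟨v, rfl⟩ := hτ.2
        exact ⟨v, mem_univ _, rfl⟩
      · intro v _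
        rfl)
    funext τ
    by_cases h2 : τ ∈ Set.range (InfinitePlace.embedding (K := F))
    · obtain ⟨v, rfl⟩ := h2
      exact congrFun h1 v
    · have h3 : ComplexEmbedding.conjugate τ ∈ Set.range (InfinitePlace.embedding (K := F)) := by
        by_contra h4
        exact h2 ((isCMType_range τ).2 h4)
      obtain ⟨v, hv⟩ := h3
      rw [← hb τ, ← hv]
      exact congrFun h1 v

end

/-- **The 2-adic criterion.** A CM type with odd symmetric weights which passes the 2-adic test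
satisfies no nontrivial antisymmetric linear relation. -/
theorem relation_eq_zero {E : Type*} [Field E] [NumberField E] [IsCMField E]
    {M : (E →+* ℂ) → ℤ} (hM : ∀ φ, Odd (M φ))
    (hMc : ∀ φ, M (ComplexEmbedding.conjugate φ) = M φ) {Φ : Set (E →+* ℂ)} (hΦ : IsCMType Φ)
    (h : PassesTest M Φ) (c : (E →+* ℂ) → ℤ)
    (hc : ∀ φ, c (ComplexEmbedding.conjugate φ) = -c φ)
    (hrel : ∀ σ : ℂ ≃+* ℂ, ∑ φ, c φ * (sgn Φ ((σ : ℂ →+* ℂ).comp φ) *
      M ((σ : ℂ →+* ℂ).comp φ)) = 0) : c = 0 := by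
  obtain ⟨F, hF, h⟩ := h
  exact relation_eq_zero_of (F := F) hM hMc hΦ h c hc hrel

section

variable (F E : Type*) [Field F] [NumberField F] [IsCMField F] [Field E] [NumberField E]
  [IsCMField E] [Algebra F E]

/-- **Exactly one half** of all CM types pass the first test over a CM subfield of even index. -/
theorem half_oddSum (l : ℕ) (hl : finrank F E = 2 ^ l) (h1l : 1 ≤ l)
    {M : (E →+* ℂ) → ℤ} (hM : ∀ φ, Odd (M φ)) :
    2 * {Φ : Set (E →+* ℂ) | IsCMType Φ ∧ OddSum F M Φ}.ncard =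
      {Φ : Set (E →+* ℂ) | IsCMType Φ}.ncard := by
  classical
  obtain ⟨v₀⟩ : Nonempty (InfinitePlace F) := inferInstance
  obtain ⟨ψ, hψ⟩ := exists_extension (E := E) v₀.embedding
  obtain ⟨S, hS⟩ : ∃ S : Set (F →+* ℂ), S = Set.range (InfinitePlace.embedding (K := F)) :=
    ⟨_, rfl⟩
  have hSc : IsCMType S := hS ▸ isCMType_range
  have hψS : ψ.comp (algebraMap F E) ∈ S := by
    rw [hψ, hS]
    exact ⟨v₀, rfl⟩
  have hψ2 : (ComplexEmbedding.conjugate ψ).comp (algebraMap F E) ∉ S := by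
    rw [conj_comp]
    exact (hSc _).1 hψS
  have hsum : ∀ Φ : Set (E →+* ℂ), ∑ v : InfinitePlace F, fibreSum F M Φ v.embedding =
      ∑ φ : E →+* ℂ with φ.comp (algebraMap F E) ∈ S, sgn Φ φ * M φ := by
    intro Φ
    exact sum_places M Φ hS
  have hflip : ∀ Φ : Set (E →+* ℂ),
      ∑ φ : E →+* ℂ with φ.comp (algebraMap F E) ∈ S, sgn (flip ψ Φ) φ * M φ =
        ∑ φ : E →+* ℂ with φ.comp (algebraMap F E) ∈ S, sgn Φ φ * M φ -
          2 * (sgn Φ ψ * M ψ) := by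
    intro Φ
    have hmem : ψ ∈ univ.filter (fun φ : E →+* ℂ => φ.comp (algebraMap F E) ∈ S) :=
      mem_filter.2 ⟨mem_univ _, hψS⟩
    rw [← add_sum_erase _ _ hmem, ← add_sum_erase _ _ hmem]
    have h1 : ∀ φ ∈ (univ.filter (fun φ : E →+* ℂ => φ.comp (algebraMap F E) ∈ S)).erase ψ,
        sgn (flip ψ Φ) φ * M φ = sgn Φ φ * M φ := by
      intro φ hφ
      rw [mem_erase, mem_filter] at hφ
      congr 1
      have h2 : ¬ (φ = ψ ∨ φ = ComplexEmbedding.conjugate ψ) := by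
        rintro (h3 | h3)
        · exact hφ.1 h3
        · rw [h3] at hφ
          exact hψ2 hφ.2.2
      unfold sgn
      rw [mem_flip, if_neg h2]
    rw [sum_congr rfl h1]
    have h3 : sgn (flip ψ Φ) ψ = -sgn Φ ψ := by
      unfold sgn
      rw [mem_flip, if_pos (Or.inl rfl)]
      by_cases h4 : ψ ∈ Φ
      · simp [h4]
      · simp [h4]
    rw [h3]
    ring
  have hodd : ∀ Φ : Set (E →+* ℂ), OddSum F M (flip ψ Φ) ↔ ¬ OddSum F M Φ := by
    intro Φ
    rw [oddSum_iff l hl h1l hM, oddSum_iff l hl h1l hM, hsum, hsum, hflip]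
    have h1 : (2 : ℤ) ∣ ∑ φ : E →+* ℂ with φ.comp (algebraMap F E) ∈ S, sgn Φ φ * M φ := by
      rw [← hsum]
      exact dvd_sum fun v _ => two_dvd_fibreSum l hl h1l hM Φ v.embedding
    have h2 := sgn_mul_odd Φ hM ψ
    generalize ∑ φ : E →+* ℂ with φ.comp (algebraMap F E) ∈ S, sgn Φ φ * M φ = x at *
    generalize sgn Φ ψ * M ψ = y at *
    omega
  have h1 : {Φ : Set (E →+* ℂ) | IsCMType Φ} = {Φ | IsCMType Φ ∧ OddSum F M Φ} ∪
      {Φ | IsCMType Φ ∧ ¬ OddSum F M Φ} := by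
    ext Φ
    simp only [Set.mem_ofPred_eq, Set.mem_union]
    by_cases h3 : OddSum F M Φ <;> simp [h3]
  have h2 : Disjoint {Φ : Set (E →+* ℂ) | IsCMType Φ ∧ OddSum F M Φ}
      {Φ | IsCMType Φ ∧ ¬ OddSum F M Φ} := by
    rw [Set.disjoint_left]
    rintro Φ ⟨_, h3⟩ ⟨_, h4⟩
    exact h4 h3
  have h3 : {Φ : Set (E →+* ℂ) | IsCMType Φ ∧ OddSum F M Φ}.ncard =
      {Φ : Set (E →+* ℂ) | IsCMType Φ ∧ ¬ OddSum F M Φ}.ncard := by
    refine Set.ncard_congr (fun Φ _ => flip ψ Φ) ?_ ?_ ?_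
    · rintro Φ ⟨h4, h5⟩
      exact ⟨isCMType_flip ψ h4, fun h6 => ((hodd Φ).1 h6) h5⟩
    · intro Φ Φ' _ _ h4
      have h5 := congrArg (flip ψ) h4
      rwa [flip_flip, flip_flip] at h5
    · rintro Φ ⟨h4, h5⟩
      exact ⟨flip ψ Φ, ⟨isCMType_flip ψ h4, (hodd Φ).2 h5⟩, flip_flip ψ Φ⟩
  rw [h1, Set.ncard_union_eq h2 (Set.toFinite _) (Set.toFinite _), ← h3]
  omega

end

end Pool.Agent.Q29.DP
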