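import Mathlib
import Pool.Agent.Q29.DP.Weights
import Pool.Agent.Q29.OS.Rel
import Pool.Agent.TH170.FW.Main
import Pool.Agent.TH170.FW.Bridge

/-!
# Types without relations are not degenerate, with weights
-/

set_option autoImplicit false
set_option linter.unusedSectionVars false

namespace Pool.Agent.Q29.DP

open NumberField Module Finset Pool.Agent.H204R3.CM Pool.Agent.H977R3.CM Pool.Agent.TH170.CM
  Pool.Agent.TH170.MF Pool.Agent.TH170.FW Pool.Agent.Q29.OS

/-- A type with weights without relations is not orthogonal to a Galois-stable space of odd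
functions. -/
theorem notMem_degTypes_of_noRelations {E : Type} [Field E] [NumberField E] [IsCMField E]
    {M : (E →+* ℂ) → ℤ} {Φ : Set (E →+* ℂ)} (h : NoRelations M Φ) : Φ ∉ degTypes M := by
  classical
  rintro ⟨-, S, ⟨hS0, hSst, hSodd, -⟩, horth⟩
  obtain ⟨s, hs, hs0⟩ := S.ne_bot_iff.1 hS0
  -- a common denominator
  obtain ⟨b, hb⟩ := IsLocalization.exist_integer_multiples_of_finset (nonZeroDivisors ℤ)
    (univ.image s)
  have hb1 : ∀ φ : E →+* ℂ, ∃ m : ℤ, (m : ℚ) = (b : ℤ) * s φ := by
    intro φ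
    obtain ⟨m, hm⟩ := hb (s φ) (mem_image_of_mem s (mem_univ φ))
    refine ⟨m, ?_⟩
    rw [← Int.cast_smul_eq_zsmul ℚ] at hm
    simpa using hm
  choose m hm using hb1
  have hb0 : ((b : ℤ) : ℚ) ≠ 0 := by
    have h1 := nonZeroDivisors.coe_ne_zero b
    exact_mod_cast h1
  have h1 : m = 0 := by
    refine h m ?_ ?_
    · intro φ
      have h2 : ((m (ComplexEmbedding.conjugate φ) : ℤ) : ℚ) = ((-m φ : ℤ) : ℚ) := by
        push_cast
        rw [hm, hm, hSodd s hs]
        ring
      exact_mod_cast h2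
    · intro σ
      have h2 := horth _ (hSst σ.symm s hs)
      have h3 : ((∑ φ, m φ * (sgn Φ ((σ : ℂ →+* ℂ).comp φ) * M ((σ : ℂ →+* ℂ).comp φ)) : ℤ) : ℚ) =
          (b : ℤ) * ∑ φ, ((sgn Φ φ * M φ : ℤ) : ℚ) * s ((σ.symm : ℂ →+* ℂ).comp φ) := by
        push_cast
        rw [mul_sum]
        let e : (E →+* ℂ) ≃ (E →+* ℂ) :=
          { toFun := fun φ => (σ : ℂ →+* ℂ).comp φ
            invFun := fun φ => (σ.symm : ℂ →+* ℂ).comp φ
            left_inv := fun φ => by
              ext x
              exact σ.symm_apply_apply (φ x)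
            right_inv := fun φ => by
              ext x
              exact σ.apply_symm_apply (φ x) }
        refine Fintype.sum_equiv e _ _ fun φ => ?_
        have h4 : (σ.symm : ℂ →+* ℂ).comp (e φ) = φ := e.symm_apply_apply φ
        rw [h4, hm]
        change _ * ((sgn Φ (e φ) : ℚ) * (M (e φ) : ℚ)) = _
        ring
      rw [h2, mul_zero] at h3
      exact_mod_cast h3
  apply hs0
  funext φ
  have h2 : (0 : ℚ) = (b : ℤ) * s φ := by
    rw [← hm, h1]
    simp
  have h3 := mul_eq_zero.1 h2.symm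
  exact h3.resolve_left hb0

/-- A type with odd weights which passes the 2-adic test has no relations. -/
theorem noRelations_of_test {E : Type} [Field E] [NumberField E] [IsCMField E]
    {M : (E →+* ℂ) → ℤ} (hM : ∀ φ, Odd (M φ))
    (hMc : ∀ φ, M (ComplexEmbedding.conjugate φ) = M φ) {Φ : Set (E →+* ℂ)} (hΦ : IsCMType Φ)
    (h : PassesTest M Φ) : NoRelations M Φ := fun c hc hrel =>
  relation_eq_zero hM hMc hΦ h c hc hrel

/-- A type with odd weights which passes the 2-adic test is not degenerate. -/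
theorem notMem_degTypes {E : Type} [Field E] [NumberField E] [IsCMField E]
    {M : (E →+* ℂ) → ℤ} (hM : ∀ φ, Odd (M φ))
    (hMc : ∀ φ, M (ComplexEmbedding.conjugate φ) = M φ) {Φ : Set (E →+* ℂ)} (hΦ : IsCMType Φ)
    (h : PassesTest M Φ) : Φ ∉ degTypes M :=
  notMem_degTypes_of_noRelations (noRelations_of_test hM hMc hΦ h)

/-- A type which is not degenerate has no relations. -/
theorem noRelations_of_notMem {E : Type} [Field E] [NumberField E] [IsCMField E]
    {M : (E →+* ℂ) → ℤ} {Φ : Set (E →+* ℂ)} (hΦ : IsCMType Φ) (h : Φ ∉ degTypes M) :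
    NoRelations M Φ := by
  intro c hc hrel
  by_contra hne
  exact h ⟨hΦ, exists_minimal_of_rel c hne hc hrel⟩

end Pool.Agent.Q29.DP
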