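import Mathlib
import Pool.Agent.Q29.DP.Defs

/-!
# CM subfields that are good for given weights
-/

set_option autoImplicit false

namespace Pool.Agent.Q29.DP

open NumberField Module

/-- The CM subfield `F` of `E` is good for the weights `M`: it is a good subfield (`GoodSubfield`; in
particular the degree of `E` is a power of two) and the weights are odd, or it is imaginary
quadratic, `[E : F] > 1` is a power of an odd prime number `p`, and not all weights are divisible
by `p`. -/
def GoodFor (F : Type*) {E : Type*} [Field F] [NumberField F] [Field E] [NumberField E]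
    [Algebra F E] (M : (E →+* ℂ) → ℤ) : Prop :=
  (GoodSubfield F E ∧ ∀ φ, Odd (M φ)) ∨ ∃ p k : ℕ, p.Prime ∧ p ≠ 2 ∧ 1 ≤ k ∧
    finrank ℚ F = 2 ∧ finrank F E = p ^ k ∧ ∃ φ, ¬ (p : ℤ) ∣ M φ

end Pool.Agent.Q29.DP
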