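import Mathlib
import Pool.Agent.Q29.DP.Weights
import Pool.Agent.TH170.GH.Total

/-!
# One half of all types
-/

set_option autoImplicit false

namespace Pool.Agent.Q29.DP

open NumberField Module Pool.Agent.H204R3.CM Pool.Agent.H977R3.CM

theorem ncard_cmTypes (E : Type) [Field E] [NumberField E] [IsCMField E] {g : ℕ}
    (hg : finrank ℚ E = 2 * g) : {Φ : Set (E →+* ℂ) | IsCMType Φ}.ncard = 2 ^ g := by
  have h4 := Pool.Agent.TH170.GH.ncard_types (fun _ : Unit => E) g (by simp [hg])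
  rw [← h4]
  refine Set.ncard_congr (fun Φ _ => fun _ => Φ) ?_ ?_ ?_
  · intro Φ hΦ _
    exact hΦ
  · intro Φ Ψ _ _ h
    exact congrFun h ()
  · intro Φ hΦ
    exact ⟨Φ (), hΦ (), by funext u; cases u; rfl⟩

theorem halfLaw : HalfLaw := by
  intro E _ _ _ F _ M g hM hg hgood
  refine ⟨ncard_cmTypes E hg, ?_, fun Φ h => ⟨F, inferInstance, Or.inl ⟨hgood, h⟩⟩⟩
  obtain ⟨k, l, hk, hl, h1l, -⟩ := hgood.index
  rw [← ncard_cmTypes E hg]
  exact half_oddSum F E l hl h1l hM

theorem normalLaw : NormalLaw := by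
  intro E _ _ _ F _ _
  exact transitiveOver_of_galois

/-- A property which holds for all types that pass the test holds for at least one half of all
types. -/
theorem half_of {E : Type} [Field E] [NumberField E] [IsCMField E] {F : IntermediateField ℚ E}
    [IsCMField F] {M : (E →+* ℂ) → ℤ} {g : ℕ} (hM : ∀ φ, Odd (M φ))
    (hg : finrank ℚ E = 2 * g) (hgood : GoodSubfield F E)
    (P : Set (E →+* ℂ) → Prop) (hP : ∀ Φ, IsCMType Φ → PassesTest M Φ → P Φ) :
    2 ^ g ≤ 2 * {Φ : Set (E →+* ℂ) | IsCMType Φ ∧ P Φ}.ncard := by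
  obtain ⟨-, h2, h3⟩ := halfLaw E F M g hM hg hgood
  rw [← h2]
  refine Nat.mul_le_mul_left 2 (Set.ncard_le_ncard ?_ (Set.toFinite _))
  rintro Φ ⟨h5, h6⟩
  exact ⟨h5, hP Φ h5 (h3 Φ h6)⟩

theorem pairwiseIndep_unit (E : Type) [Field E] : PairwiseIndep (fun _ : Unit => E) := by
  intro i k hik
  exact absurd (Subsingleton.elim i k) hik

end Pool.Agent.Q29.DP
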