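import Mathlib
import Pool.Agent.Q29.DP.Deg
import Pool.Agent.Q29.DP.Laws
import Pool.Agent.Q29.AB.All
import Pool.Agent.Y1.KN.All

/-!
# How many families of types have no relations
-/

set_option autoImplicit false
set_option linter.unusedSectionVars false

namespace Pool.Agent.Q29.DP

open NumberField Module Finset Pool.Agent.H204R3.CM Pool.Agent.H977R3.CM Pool.Agent.TH170.CM
  Pool.Agent.Q29.AB Pool.Agent.Q29.OS

theorem ncard_fam {ι : Type} [Fintype ι] {X : ι → Type} (S : ∀ i, Set (X i)) :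
    {Φ : ∀ i, X i | ∀ i, Φ i ∈ S i}.ncard = ∏ i, (S i).ncard := by
  have e : {Φ : ∀ i, X i | ∀ i, Φ i ∈ S i} ≃ ∀ i, S i := Equiv.subtypePiEquivPi
  rw [← Nat.card_coe_set_eq, Nat.card_congr e, Nat.card_pi]
  exact prod_congr rfl fun i _ => Nat.card_coe_set_eq _

section

variable {ι : Type} [Fintype ι] {E : ι → Type} [∀ i, Field (E i)] [∀ i, NumberField (E i)]
  [∀ i, IsCMField (E i)] {M : ∀ i, (E i →+* ℂ) → ℤ} {P : (∀ i, Set (E i →+* ℂ)) → Prop}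

/-- The families of types without relations. -/
theorem prod_le_fam (hP : ∀ Φ : ∀ i, Set (E i →+* ℂ), (∀ i, IsCMType (Φ i)) →
      (∀ i, NoRelations (M i) (Φ i)) → P Φ) :
    ∏ i, {Φ : Set (E i →+* ℂ) | IsCMType Φ ∧ NoRelations (M i) Φ}.ncard ≤
      {Φ : ∀ i, Set (E i →+* ℂ) | (∀ i, IsCMType (Φ i)) ∧ P Φ}.ncard := by
  rw [← ncard_fam]
  refine Set.ncard_le_ncard ?_ (Set.toFinite _)
  intro Φ hΦ
  exact ⟨fun i => (hΦ i).1, hP Φ (fun i => (hΦ i).1) fun i => (hΦ i).2⟩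

/-- A property which holds for all families of types without relations holds for a proportion of at
least `2 ^ (- number of the fields)` of all families of types. -/
theorem fam_half (F : ∀ i, IntermediateField ℚ (E i)) [∀ i, IsCMField (F i)] {g : ι → ℕ}
    (hM : ∀ i φ, Odd (M i φ)) (hMc : ∀ i φ, M i (ComplexEmbedding.conjugate φ) = M i φ)
    (hg : ∀ i, finrank ℚ (E i) = 2 * g i) (hgood : ∀ i, GoodSubfield (F i) (E i))
    (hP : ∀ Φ : ∀ i, Set (E i →+* ℂ), (∀ i, IsCMType (Φ i)) →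
      (∀ i, NoRelations (M i) (Φ i)) → P Φ) :
    2 ^ (∑ i, g i) ≤ 2 ^ Fintype.card ι *
      {Φ : ∀ i, Set (E i →+* ℂ) | (∀ i, IsCMType (Φ i)) ∧ P Φ}.ncard := by
  refine le_trans ?_ (Nat.mul_le_mul_left _ (prod_le_fam hP))
  calc 2 ^ (∑ i, g i) = ∏ i, 2 ^ g i := (prod_pow_eq_pow_sum _ _ _).symm
    _ ≤ ∏ i, 2 * {Φ : Set (E i →+* ℂ) | IsCMType Φ ∧ NoRelations (M i) Φ}.ncard :=
      prod_le_prod' fun i _ => half_of (hM i) (hg i) (hgood i) _ fun Φ hΦ h =>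
        noRelations_of_test (hM i) (hMc i) hΦ h
    _ = _ := by rw [prod_mul_distrib, prod_const, card_univ]

end

/-- A property which holds for all families of types without relations of abelian CM fields of large
degree holds for a proportion of at least `(4 / 25) ^ (number of the fields)` of all families. -/
theorem fam_abelian : ∃ g₀ : ℕ, ∀ (ι : Type) [Fintype ι] (E : ι → Type) [∀ i, Field (E i)]
    [∀ i, NumberField (E i)] [∀ i, IsCMField (E i)] [∀ i, IsGalois ℚ (E i)]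
    (M : ∀ i, (E i →+* ℂ) → ℤ) (g : ι → ℕ) (P : (∀ i, Set (E i →+* ℂ)) → Prop),
    (∀ i, ∀ a b : E i ≃ₐ[ℚ] E i, a * b = b * a) → (∀ i φ, Odd (M i φ)) →
    (∀ i φ, M i (ComplexEmbedding.conjugate φ) = M i φ) → (∀ i, g₀ ≤ g i) →
    (∀ i, finrank ℚ (E i) = 2 * g i) →
    (∀ Φ : ∀ i, Set (E i →+* ℂ), (∀ i, IsCMType (Φ i)) →
      (∀ i, NoRelations (M i) (Φ i)) → P Φ) →
    (4 / 25 : ℝ) ^ Fintype.card ι * 2 ^ (∑ i, g i) ≤
      (({Φ : ∀ i, Set (E i →+* ℂ) | (∀ i, IsCMType (Φ i)) ∧ P Φ}.ncard : ℕ) : ℝ) := by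
  obtain ⟨g₀, h⟩ := fieldTheoremW_holds
  refine ⟨g₀, ?_⟩
  intro ι _ E _ _ _ _ M g P hab hM hMc hg0 hg hP
  refine le_trans ?_ (Nat.cast_le.2 (prod_le_fam hP))
  rw [Nat.cast_prod]
  calc (4 / 25 : ℝ) ^ Fintype.card ι * 2 ^ (∑ i, g i) = ∏ i, (4 / 25 : ℝ) * 2 ^ g i := by
        rw [prod_mul_distrib, prod_const, card_univ, prod_pow_eq_pow_sum]
    _ ≤ _ := prod_le_prod (fun i _ => by positivity) fun i _ =>
      h (E i) (M i) (g i) (hab i) (hM i) (hMc i) (hg0 i) (hg i)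

open Pool.Agent.Y1.KN in
/-- A property which holds for all families of types without relations holds for almost all
families. -/
theorem fam_almostAll : ∃ C : ℝ, 0 ≤ C ∧ ∀ (ι : Type) [Fintype ι] (E : ι → Type)
    [∀ i, Field (E i)] [∀ i, NumberField (E i)] [∀ i, IsCMField (E i)]
    (M : ∀ i, (E i →+* ℂ) → ℤ) (n g q : ι → ℕ) (P : (∀ i, Set (E i →+* ℂ)) → Prop),
    (∀ i φ, M i (ComplexEmbedding.conjugate φ) = M i φ) → (∀ i, n i ≠ 0) →
    (∀ i φ, M i φ ∣ (n i : ℤ)) → (∀ i, finrank ℚ (E i) = 2 * g i) →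
    (∀ i, q i ∣ g i ∧ (q i = 1 ∨ (q i).Prime)) →
    (∀ Φ : ∀ i, Set (E i →+* ℂ), (∀ i, IsCMType (Φ i)) →
      (∀ i, NoRelations (M i) (Φ i)) → P Φ) →
    (({Φ : ∀ i, Set (E i →+* ℂ) | (∀ i, IsCMType (Φ i)) ∧ ¬ P Φ}.ncard : ℕ) : ℝ) ≤
      2 ^ (∑ i, g i) * ∑ i, C * (n i : ℝ) ^ 2 * rate (E i) (g i) (q i) := by
  obtain ⟨C, hC0, hC⟩ := families_holds
  refine ⟨C, hC0, ?_⟩
  intro ι _ E _ _ _ M n g q P hMc hn hMn hg hq hP
  exact hC ι E M n g q hMc hn hMn hg hq P fun Φ hΦ hnd =>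
    hP Φ hΦ fun i => noRelations_of_notMem (hΦ i) (hnd i)

end Pool.Agent.Q29.DP
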