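import Mathlib
import Pool.Agent.Y1.CT.TypeDefs
import Pool.Agent.Y1.KN.Defs
import Pool.Agent.Q29.DP.Defs

/-!
# Properties of Weil numbers for one half of all slope types, for 16 percent of the slope types of all
abelian CM fields, and for almost all slope types

In all definitions `P K q f` is a property of CM fields `K i`, a prime power `q` and polynomials
`f i`. `ForAllTypes ν K M (P K) Φ` means that it holds for all Weil numbers with the slope types
`Φ i` and the weights `M i`.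
-/

set_option autoImplicit false

namespace Pool.Agent.Q29.DP

open NumberField Module Polynomial Pool.Agent.H204R3.CM Pool.Agent.H977R3.CM Pool.Agent.Y1.CT
  Pool.Agent.Y1.KN

/-- A property of families of fields, a prime power and polynomials. -/
abbrev Property : Type 1 := ∀ (I : Type) (K : I → Type) [∀ i, Field (K i)], ℕ → (I → ℤ[X]) → Prop

variable (P : Property)

/-- **The criterion.** `P` holds for all Weil numbers that generate pairwise independent CM fields
`K i` and have slope types `Φ i`, with odd weights `M i`, which pass the 2-adic test. -/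
def HoldsByTest : Prop :=
  ∀ (p : ℕ) [Fact p.Prime] (ν : PadicAlgCl p ≃+* ℂ) (I : Type) [Fintype I]
    (K : I → Type) [∀ i, Field (K i)] [∀ i, NumberField (K i)] [∀ i, IsCMField (K i)]
    (M : ∀ i, (K i →+* ℂ) → ℤ) (Φ : ∀ i, Set (K i →+* ℂ)), PairwiseIndep K →
    (∀ i φ, Odd (M i φ)) → (∀ i φ, M i (ComplexEmbedding.conjugate φ) = M i φ) →
    (∀ i, IsCMType (Φ i)) → (∀ i, PassesTest (M i) (Φ i)) → ForAllTypes ν K M (P I K) Φ

/-- **One half of all slope types.** For pairwise independent CM fields `K i` of 2-power degree with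
good CM subfields `F i` and all odd weights `M i`, the property `P` holds for at least
`2 ^ (∑ g i - number of the fields)` of the `2 ^ (∑ g i)` families of types. -/
def HoldsForHalf : Prop :=
  ∀ (p : ℕ) [Fact p.Prime] (ν : PadicAlgCl p ≃+* ℂ) (I : Type) [Fintype I]
    (K : I → Type) [∀ i, Field (K i)] [∀ i, NumberField (K i)] [∀ i, IsCMField (K i)]
    (F : ∀ i, IntermediateField ℚ (K i)) [∀ i, IsCMField (F i)]
    (M : ∀ i, (K i →+* ℂ) → ℤ) (g : I → ℕ), PairwiseIndep K → (∀ i φ, Odd (M i φ)) →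
    (∀ i φ, M i (ComplexEmbedding.conjugate φ) = M i φ) → (∀ i, finrank ℚ (K i) = 2 * g i) →
    (∀ i, GoodSubfield (F i) (K i)) →
    2 ^ (∑ i, g i) ≤ 2 ^ Fintype.card I * {Φ : ∀ i, Set (K i →+* ℂ) |
      (∀ i, IsCMType (Φ i)) ∧ ForAllTypes ν K M (P I K) Φ}.ncard

/-- **Abelian fields.** There is a number `g₀` such that for all pairwise independent CM fields
`K i` that are abelian over `ℚ`, of degrees `2 g i ≥ 2 g₀`, and all odd weights `M i`, the property
`P` holds for a proportion of at least `(4 / 25) ^ (number of the fields)` of the families of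
types. -/
def HoldsForAbelian : Prop :=
  ∃ g₀ : ℕ, ∀ (p : ℕ) [Fact p.Prime] (ν : PadicAlgCl p ≃+* ℂ) (I : Type) [Fintype I]
    (K : I → Type) [∀ i, Field (K i)] [∀ i, NumberField (K i)] [∀ i, IsCMField (K i)]
    [∀ i, IsGalois ℚ (K i)] (M : ∀ i, (K i →+* ℂ) → ℤ) (g : I → ℕ), PairwiseIndep K →
    (∀ i, ∀ a b : K i ≃ₐ[ℚ] K i, a * b = b * a) → (∀ i φ, Odd (M i φ)) →
    (∀ i φ, M i (ComplexEmbedding.conjugate φ) = M i φ) → (∀ i, g₀ ≤ g i) →
    (∀ i, finrank ℚ (K i) = 2 * g i) →
    (4 / 25 : ℝ) ^ Fintype.card I * 2 ^ (∑ i, g i) ≤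
      (({Φ : ∀ i, Set (K i →+* ℂ) |
        (∀ i, IsCMType (Φ i)) ∧ ForAllTypes ν K M (P I K) Φ}.ncard : ℕ) : ℝ)

/-- **Almost all slope types.** For pairwise independent CM fields `K i` of degrees `2 g i` and all
weights `M i` whose values divide `n i ≠ 0`, the property `P` holds for all families of types but at
most `2 ^ (∑ g i) * ∑ C * n i ^ 2 * rate (K i) (g i) (q i)`; here `q i` is a prime factor of `g i`, or
`q i = 1`. -/
def HoldsForAlmostAll : Prop :=
  ∃ C : ℝ, 0 ≤ C ∧ ∀ (p : ℕ) [Fact p.Prime] (ν : PadicAlgCl p ≃+* ℂ) (I : Type) [Fintype I]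
    (K : I → Type) [∀ i, Field (K i)] [∀ i, NumberField (K i)] [∀ i, IsCMField (K i)]
    (M : ∀ i, (K i →+* ℂ) → ℤ) (n g q : I → ℕ), PairwiseIndep K →
    (∀ i φ, M i (ComplexEmbedding.conjugate φ) = M i φ) → (∀ i, n i ≠ 0) →
    (∀ i φ, M i φ ∣ (n i : ℤ)) → (∀ i, finrank ℚ (K i) = 2 * g i) →
    (∀ i, q i ∣ g i ∧ (q i = 1 ∨ (q i).Prime)) →
    (({Φ : ∀ i, Set (K i →+* ℂ) | (∀ i, IsCMType (Φ i)) ∧
      ¬ ForAllTypes ν K M (P I K) Φ}.ncard : ℕ) : ℝ) ≤
      2 ^ (∑ i, g i) * ∑ i, C * (n i : ℝ) ^ 2 * rate (K i) (g i) (q i)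

end Pool.Agent.Q29.DP
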