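import Mathlib
import Pool.Agent.Q29.DP.RowsDefs
import Pool.Agent.Q29.DP.Fam

/-!
# From types without relations to one half of all slope types, abelian fields, almost all types
-/

set_option autoImplicit false
set_option linter.unusedSectionVars false

namespace Pool.Agent.Q29.DP

open NumberField Module Polynomial Pool.Agent.H204R3.CM Pool.Agent.H977R3.CM Pool.Agent.Y1.CT
  Pool.Agent.Y1.KN Pool.Agent.Q29.OS

/-- `P` holds for all families of slope types without relations. -/
def HoldsWithoutRelations (P : Property) : Prop :=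
  ∀ (p : ℕ) [Fact p.Prime] (ν : PadicAlgCl p ≃+* ℂ) (I : Type) [Fintype I]
    (K : I → Type) [∀ i, Field (K i)] [∀ i, NumberField (K i)] [∀ i, IsCMField (K i)]
    (M : ∀ i, (K i →+* ℂ) → ℤ) (Φ : ∀ i, Set (K i →+* ℂ)), PairwiseIndep K →
    (∀ i φ, M i (ComplexEmbedding.conjugate φ) = M i φ) →
    (∀ i, IsCMType (Φ i)) → (∀ i, NoRelations (M i) (Φ i)) → ForAllTypes ν K M (P I K) Φ

variable {P : Property} (h : HoldsWithoutRelations P)

include h

theorem holdsByTest : HoldsByTest P := by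
  intro p _ ν I _ K _ _ _ M Φ hind hM hMc hΦ ht
  exact h p ν I K M Φ hind hMc hΦ fun i => noRelations_of_test (hM i) (hMc i) (hΦ i) (ht i)

theorem holdsForHalf : HoldsForHalf P := by
  intro p _ ν I _ K _ _ _ F _ M g hind hM hMc hg hgood
  exact fam_half F hM hMc hg hgood fun Φ hΦ hno => h p ν I K M Φ hind hMc hΦ hno

theorem holdsForAbelian : HoldsForAbelian P := by
  obtain ⟨g₀, h1⟩ := fam_abelian
  refine ⟨g₀, ?_⟩
  intro p _ ν I _ K _ _ _ _ M g hind hab hM hMc hg0 hg
  exact h1 I K M g _ hab hM hMc hg0 hg fun Φ hΦ hno => h p ν I K M Φ hind hMc hΦ hno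

theorem holdsForAlmostAll : HoldsForAlmostAll P := by
  obtain ⟨C, hC0, h1⟩ := fam_almostAll
  refine ⟨C, hC0, ?_⟩
  intro p _ ν I _ K _ _ _ M n g q hind hMc hn hMn hg hq
  exact h1 I K M n g q _ hMc hn hMn hg hq fun Φ hΦ hno => h p ν I K M Φ hind hMc hΦ hno

end Pool.Agent.Q29.DP
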