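import Mathlib
import Pool.Agent.Y1.CT.Light
import Pool.Agent.Y1.CT.UnrelRel
import Pool.Agent.Q29.DP.Rows

/-!
# Weil numbers whose slope types have no relations
-/

set_option autoImplicit false
set_option linter.unusedSectionVars false
set_option linter.unusedVariables false

namespace Pool.Agent.Q29.DP

open Polynomial NumberField Module Pool.Agent.H204R3.CM Pool.Agent.H977R3.CM Pool.Agent.TH170
  Pool.Agent.TH170.FW Pool.Agent.Y1.KN Pool.Agent.Y1.CT Pool.Agent.Q29.OS

/-- Properties of Weil numbers without relations with unrelated numbers. -/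
theorem of_unrelated {P : Property}
    (hP : ∀ (I : Type) [Fintype I] (K : I → Type) [∀ i, Field (K i)] (Q : ℕ) (f : I → ℤ[X]),
      1 < Q → Y1.CT.NoRel f Q (Unrelated K) → P I K Q f) : HoldsWithoutRelations P := by
  intro p _ ν I _ K _ _ _ M Φ hind hMc hΦ hno a π f ha hπ hf
  refine hP I K (p ^ a) f (Nat.one_lt_pow ha.ne' (Fact.out : p.Prime).one_lt)
    ⟨fun i => (hf i).1, unrelated_one K, fun s hs ρ hρ => ?_⟩
  exact exactPair_of_angle (Y1.TS.angle_types hind hMc hΦ
    (fun i => notMem_degTypes_of_noRelations (hno i)) hπ) (fun i => (hπ i).weil) f hf s hs ρ hρ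

/-- Properties of Weil numbers without relations with independent numbers. -/
theorem of_independent {P : Property}
    (hP : ∀ (I : Type) [Fintype I] (K : I → Type) [∀ i, Field (K i)] (Q : ℕ) (f : I → ℤ[X]),
      1 < Q → Y1.CT.NoRel f Q (Independent K) → P I K Q f) : HoldsWithoutRelations P := by
  intro p _ ν I _ K _ _ _ M Φ hind hMc hΦ hno
  refine forAllTypes_of ?_
  intro a π f ha hπ hf
  refine hP I K (p ^ a) f (Nat.one_lt_pow ha.ne' (Fact.out : p.Prime).one_lt)
    ⟨fun i => (hf i).1, independent_one K, fun s hs ρ hρ => ?_⟩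
  exact exactPair_types hind hMc hΦ (fun i => notMem_degTypes_of_noRelations (hno i)) hπ f hf s hs
    ρ hρ

end Pool.Agent.Q29.DP
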